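import Mathlib

/-!
# Fractional small-set expansion

Regular multigraphs are given by their matrices. `FracNo μ d η s`: all functions with values in
`[0, 1]` and sum at most `s` have small energy. We show that this follows from the corresponding
property of the sets with `s` elements, up to a factor `3`.
-/

set_option autoImplicit false
set_option linter.unusedSectionVars false

namespace Pool.Agent.U16.SSE

open Finset

variable {V V' : Type} [Fintype V] [Fintype V']

/-- The energy of a function. -/
def form (μ : V → V → ℕ) (f : V → ℝ) : ℝ := ∑ u, ∑ v, (μ u v : ℝ) * (f u * f v)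

/-- The indicator function of a set. -/
noncomputable def ind (S : Finset V) (v : V) : ℝ := by
  classical exact if v ∈ S then 1 else 0

/-- The matrix of a `d`-regular multigraph without loops. -/
structure MG (μ : V → V → ℕ) (d : ℕ) : Prop where
  symm : ∀ u v, μ u v = μ v u
  diag : ∀ u, μ u u = 0
  reg : ∀ u, ∑ v, μ u v = d

/-- All functions with values in `[0, 1]` and sum at most `s` have energy at most `η d s`. -/
def FracNo (μ : V → V → ℕ) (d : ℕ) (η s : ℝ) : Prop :=
  ∀ f : V → ℝ, (∀ v, 0 ≤ f v) → (∀ v, f v ≤ 1) → ∑ v, f v ≤ s → form μ f ≤ η * (d * s)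

/-- Some set with `s` elements has energy at least `(1 - η) d s`. -/
def HasSet (μ : V → V → ℕ) (d : ℕ) (η : ℝ) (s : ℕ) : Prop :=
  ∃ S : Finset V, S.card = s ∧ (1 - η) * (d * s) ≤ form μ (ind S)

theorem ind_nonneg (S : Finset V) (v : V) : 0 ≤ ind S v := by
  unfold ind
  split_ifs <;> norm_num

theorem ind_le_one (S : Finset V) (v : V) : ind S v ≤ 1 := by
  unfold ind
  split_ifs <;> norm_num

theorem sum_ind (S : Finset V) : ∑ v, ind S v = S.card := by
  classical
  have h : ∀ v, ind S v = if v ∈ S then 1 else 0 := by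
    intro v
    unfold ind
    congr
  simp [h]

theorem form_nonneg (μ : V → V → ℕ) {f : V → ℝ} (hf : ∀ v, 0 ≤ f v) : 0 ≤ form μ f :=
  sum_nonneg fun u _ => sum_nonneg fun v _ =>
    mul_nonneg (Nat.cast_nonneg _) (mul_nonneg (hf u) (hf v))

theorem form_mono (μ : V → V → ℕ) {f g : V → ℝ} (hf : ∀ v, 0 ≤ f v) (h : ∀ v, f v ≤ g v) :
    form μ f ≤ form μ g :=
  sum_le_sum fun u _ => sum_le_sum fun v _ =>
    mul_le_mul_of_nonneg_left (mul_le_mul (h u) (h v) (hf v) ((hf u).trans (h u)))
      (Nat.cast_nonneg _)

theorem ind_mono {S T : Finset V} (h : S ⊆ T) (v : V) : ind S v ≤ ind T v := by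
  classical
  unfold ind
  split_ifs with h1 h2
  · exact le_rfl
  · exact absurd (h h1) h2
  · norm_num
  · exact le_rfl

/-! ### Multilinear functions -/

/-- The energy and a multiple of the sum of the products at different vertices. -/
theorem exists_vertex {c : V → V → ℝ} (hc : ∀ u, c u u = 0) (f : V → ℝ) (hf0 : ∀ v, 0 ≤ f v)
    (hf1 : ∀ v, f v ≤ 1) : ∃ S : Finset V, ∑ u, ∑ v, c u v * (f u * f v) ≤
      ∑ u, ∑ v, c u v * (ind S u * ind S v) := by
  classical
  -- change the values one after the other
  have key : ∀ A : Finset V, ∃ g : V → ℝ, (∀ v, 0 ≤ g v) ∧ (∀ v, g v ≤ 1) ∧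
      (∀ v ∈ A, g v = 0 ∨ g v = 1) ∧ ∑ u, ∑ v, c u v * (f u * f v) ≤
        ∑ u, ∑ v, c u v * (g u * g v) := by
    intro A
    induction A using Finset.induction_on with
    | empty => exact ⟨f, hf0, hf1, by simp, le_rfl⟩
    | insert a A ha ih =>
      obtain ⟨g, h0, h1, h2, h3⟩ := ih
      obtain ⟨P, hP⟩ : ∃ P : ℝ, P = ∑ v ∈ univ.erase a, (c a v + c v a) * g v := ⟨_, rfl⟩
      have hform : ∀ x : ℝ, ∑ u, ∑ v, c u v * (Function.update g a x u * Function.update g a x v) =
          x * P + ∑ u ∈ univ.erase a, ∑ v ∈ univ.erase a, c u v * (g u * g v) := by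
        intro x
        rw [← Finset.add_sum_erase univ _ (mem_univ a)]
        rw [← Finset.add_sum_erase univ _ (mem_univ a)]
        rw [hc a, zero_mul, zero_add]
        have e1 : ∀ v ∈ univ.erase a, c a v * (Function.update g a x a *
            Function.update g a x v) = x * (c a v * g v) := by
          intro v hv
          rw [Function.update_self, Function.update_of_ne (ne_of_mem_erase hv)]
          ring
        rw [sum_congr rfl e1]
        have e2 : ∀ u ∈ univ.erase a, ∑ v, c u v * (Function.update g a x u *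
            Function.update g a x v) = x * (c u a * g u) +
              ∑ v ∈ univ.erase a, c u v * (g u * g v) := by
          intro u hu
          rw [← Finset.add_sum_erase univ _ (mem_univ a), Function.update_self,
            Function.update_of_ne (ne_of_mem_erase hu)]
          congr 1
          · ring
          · refine sum_congr rfl fun v hv => ?_
            rw [Function.update_of_ne (ne_of_mem_erase hv)]
        rw [sum_congr rfl e2, sum_add_distrib, ← mul_sum, ← mul_sum, hP]
        have e3 : ∑ v ∈ univ.erase a, (c a v + c v a) * g v =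
            ∑ v ∈ univ.erase a, c a v * g v + ∑ v ∈ univ.erase a, c v a * g v := by
          rw [← sum_add_distrib]
          exact sum_congr rfl fun v _ => by ring
        rw [e3]
        ring
      have hg : ∑ u, ∑ v, c u v * (g u * g v) =
          g a * P + ∑ u ∈ univ.erase a, ∑ v ∈ univ.erase a, c u v * (g u * g v) := by
        rw [← hform (g a), Function.update_eq_self]
      by_cases hP0 : 0 ≤ P
      · refine ⟨Function.update g a 1, ?_, ?_, ?_, ?_⟩
        · intro v
          by_cases hv : v = a
          · rw [hv, Function.update_self]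
            norm_num
          · rw [Function.update_of_ne hv]
            exact h0 v
        · intro v
          by_cases hv : v = a
          · rw [hv, Function.update_self]
          · rw [Function.update_of_ne hv]
            exact h1 v
        · intro v hv
          by_cases hva : v = a
          · rw [hva, Function.update_self]
            exact Or.inr rfl
          · rw [Function.update_of_ne hva]
            exact h2 v (mem_of_mem_insert_of_ne hv hva)
        · rw [hform 1]
          refine h3.trans ?_
          rw [hg]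
          have := h1 a
          nlinarith
      · refine ⟨Function.update g a 0, ?_, ?_, ?_, ?_⟩
        · intro v
          by_cases hv : v = a
          · rw [hv, Function.update_self]
          · rw [Function.update_of_ne hv]
            exact h0 v
        · intro v
          by_cases hv : v = a
          · rw [hv, Function.update_self]
            norm_num
          · rw [Function.update_of_ne hv]
            exact h1 v
        · intro v hv
          by_cases hva : v = a
          · rw [hva, Function.update_self]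
            exact Or.inl rfl
          · rw [Function.update_of_ne hva]
            exact h2 v (mem_of_mem_insert_of_ne hv hva)
        · rw [hform 0]
          refine h3.trans ?_
          rw [hg]
          have := h0 a
          push Not at hP0
          nlinarith
  obtain ⟨g, -, -, h2, h3⟩ := key univ
  refine ⟨univ.filter fun v => g v = 1, h3.trans (le_of_eq ?_)⟩
  have hgi : ∀ v, g v = ind (univ.filter fun v => g v = 1) v := by
    intro v
    unfold ind
    rcases h2 v (mem_univ v) with h | h
    · rw [if_neg (by simp [h]), h]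
    · rw [if_pos (by simp [h]), h]
  exact sum_congr rfl fun u _ => sum_congr rfl fun v _ => by rw [← hgi u, ← hgi v]

/-! ### Larger sets -/

theorem form_ind (μ : V → V → ℕ) (S : Finset V) :
    form μ (ind S) = ∑ u ∈ S, ∑ v ∈ S, (μ u v : ℝ) := by
  classical
  have h : ∀ v, ind S v = if v ∈ S then 1 else 0 := by
    intro v
    unfold ind
    congr
  unfold form
  simp only [h]
  have h1 : ∀ u v : V, (μ u v : ℝ) * ((if u ∈ S then (1 : ℝ) else 0) *
      (if v ∈ S then (1 : ℝ) else 0)) = if u ∈ S then (if v ∈ S then (μ u v : ℝ) else 0) else 0 := by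
    intro u v
    split_ifs <;> simp
  simp only [h1]
  have h2 : ∀ u : V, (∑ v, if u ∈ S then (if v ∈ S then (μ u v : ℝ) else 0) else 0) =
      if u ∈ S then ∑ v ∈ S, (μ u v : ℝ) else 0 := by
    intro u
    split_ifs
    · rw [← sum_filter, filter_mem_eq_inter, univ_inter]
    · simp
  simp only [h2]
  rw [← sum_filter, filter_mem_eq_inter, univ_inter]

/-- The average over the removed vertex. -/
theorem sum_erase_form [DecidableEq V] {μ : V → V → ℕ} {d : ℕ} (hμ : MG μ d) (R : Finset V) :
    ∑ x ∈ R, form μ (ind (R.erase x)) = (R.card - 2) * form μ (ind R) := by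
  simp only [form_ind]
  have h1 : ∀ x ∈ R, ∑ u ∈ R.erase x, ∑ v ∈ R.erase x, (μ u v : ℝ) =
      ∑ u ∈ R, ∑ v ∈ R, (μ u v : ℝ) - 2 * ∑ v ∈ R, (μ x v : ℝ) := by
    intro x hx
    have e1 : ∀ u, ∑ v ∈ R.erase x, (μ u v : ℝ) = ∑ v ∈ R, (μ u v : ℝ) - μ u x := by
      intro u
      rw [← Finset.add_sum_erase R _ hx]
      ring
    have e2 : ∑ u ∈ R.erase x, ∑ v ∈ R.erase x, (μ u v : ℝ) =
        ∑ u ∈ R, ∑ v ∈ R.erase x, (μ u v : ℝ) - ∑ v ∈ R.erase x, (μ x v : ℝ) := by
      rw [← Finset.add_sum_erase R _ hx]
      ring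
    rw [e2]
    simp only [e1]
    rw [sum_sub_distrib, hμ.diag x]
    have e3 : ∑ u ∈ R, (μ u x : ℝ) = ∑ v ∈ R, (μ x v : ℝ) :=
      sum_congr rfl fun u _ => by rw [hμ.symm]
    rw [e3]
    push_cast
    ring
  rw [sum_congr rfl h1, sum_sub_distrib, sum_const, nsmul_eq_mul, ← mul_sum]
  ring

theorem form_large {μ : V → V → ℕ} {d : ℕ} (hμ : MG μ d) {η : ℝ} {s : ℕ} (hs : 2 ≤ s)
    (h : ∀ S : Finset V, S.card = s → form μ (ind S) ≤ η * (d * s)) :
    ∀ (r : ℕ) (R : Finset V), R.card = s + r →
      form μ (ind R) * (s * (s - 1)) ≤ η * (d * s) * ((s + r) * (s + r - 1)) := by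
  classical
  intro r
  induction r with
  | zero =>
    intro R hR
    have h1 := h R hR
    have h2 : (0 : ℝ) ≤ s * (s - 1) := by
      have : (2 : ℝ) ≤ s := by exact_mod_cast hs
      nlinarith
    push_cast
    rw [add_zero]
    exact mul_le_mul_of_nonneg_right h1 h2
  | succ r ih =>
    intro R hR
    have h1 := sum_erase_form hμ R
    have h2 : ∀ x ∈ R, form μ (ind (R.erase x)) * (s * (s - 1)) ≤
        η * (d * s) * ((s + r) * (s + r - 1)) := by
      intro x hx
      refine ih _ ?_
      rw [card_erase_of_mem hx, hR]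
      omega
    have h3 := sum_le_sum h2
    rw [← sum_mul, h1, sum_const, nsmul_eq_mul, hR] at h3
    have h4 : (0 : ℝ) < s + r - 1 := by
      have : (2 : ℝ) ≤ s := by exact_mod_cast hs
      have : (0 : ℝ) ≤ r := Nat.cast_nonneg r
      linarith
    push_cast at h3 ⊢
    have h5 : (s + (r + 1) - 2 : ℝ) = s + r - 1 := by ring
    rw [h5] at h3
    have h6 : (s + r - 1 : ℝ) * (form μ (ind R) * (s * (s - 1))) ≤
        (s + r - 1) * (η * (d * s) * ((s + (r + 1)) * (s + (r + 1) - 1))) := by
      calc (s + r - 1 : ℝ) * (form μ (ind R) * (s * (s - 1)))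
          = (s + r - 1) * form μ (ind R) * (s * (s - 1)) := by ring
        _ ≤ (s + (r + 1)) * (η * (d * s) * ((s + r) * (s + r - 1))) := h3
        _ = _ := by ring
    exact le_of_mul_le_mul_left h6 h4

/-- The fractional statement follows from the statement for sets, with the factor `3`. -/
theorem fracNo_of_sets {μ : V → V → ℕ} {d : ℕ} (hμ : MG μ d) {η : ℝ} (hη : 0 ≤ η) {s : ℕ}
    (hs : 2 ≤ s) (hsV : s ≤ Fintype.card V)
    (h : ∀ S : Finset V, S.card = s → form μ (ind S) ≤ η * (d * s)) :
    FracNo μ d (3 * η) s := by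
  classical
  intro f hf0 hf1 hfs
  have hs2 : (2 : ℝ) ≤ s := by exact_mod_cast hs
  obtain ⟨κ, hκ⟩ : ∃ κ : ℝ, κ = η * d / (s - 1) := ⟨_, rfl⟩
  have hκ' : κ * (s - 1) = η * d := by
    rw [hκ, div_mul_cancel₀]
    linarith
  have hκ0 : 0 ≤ κ := by
    rw [hκ]
    exact div_nonneg (mul_nonneg hη (Nat.cast_nonneg _)) (by linarith)
  have hc : ∀ u : V, (fun u v : V => (μ u v : ℝ) - if u = v then 0 else κ) u u = 0 := by
    intro u
    simp [hμ.diag u]
  obtain ⟨S, hS⟩ := exists_vertex (c := fun u v : V => (μ u v : ℝ) - if u = v then 0 else κ)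
    hc f hf0 hf1
  have hsplit : ∀ g : V → ℝ, ∑ u, ∑ v, ((μ u v : ℝ) - if u = v then 0 else κ) * (g u * g v) =
      form μ g - κ * ((∑ v, g v) ^ 2 - ∑ v, g v ^ 2) := by
    intro g
    have e1 : ∀ u v : V, ((μ u v : ℝ) - if u = v then 0 else κ) * (g u * g v) =
        (μ u v : ℝ) * (g u * g v) - (κ * (g u * g v) - if u = v then κ * (g u * g v) else 0) := by
      intro u v
      split_ifs <;> ring
    simp only [e1, sum_sub_distrib]
    unfold form
    congr 1
    rw [mul_sub]
    congr 1
    · simp only [← mul_sum]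
      rw [← sum_mul]
      ring
    · simp only [sum_ite_eq, mem_univ, if_true]
      rw [mul_sum]
      exact sum_congr rfl fun v _ => by ring
  rw [hsplit, hsplit] at hS
  have hind2 : ∑ v, ind S v ^ 2 = S.card := by
    rw [← sum_ind]
    refine sum_congr rfl fun v _ => ?_
    unfold ind
    split_ifs <;> norm_num
  rw [sum_ind, hind2] at hS
  have hd0 : (0 : ℝ) ≤ η * d := mul_nonneg hη (Nat.cast_nonneg _)
  -- the bound for sets
  have hset : form μ (ind S) - κ * ((S.card : ℝ) ^ 2 - S.card) ≤ η * (d * s) := by
    have hc0 : (0 : ℝ) ≤ (S.card : ℝ) ^ 2 - S.card := by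
      have : (S.card : ℝ) ≤ (S.card : ℝ) ^ 2 := by
        exact_mod_cast Nat.le_self_pow two_ne_zero _
      linarith
    rcases le_total S.card s with h1 | h1
    · obtain ⟨T, hT1, hT2⟩ := exists_superset_card_eq h1 hsV
      have h2 : form μ (ind S) ≤ form μ (ind T) :=
        form_mono μ (ind_nonneg S) (ind_mono hT1)
      have h3 := h T hT2
      have h4 := mul_nonneg hκ0 hc0
      linarith
    · obtain ⟨r, hr⟩ := Nat.exists_eq_add_of_le h1
      have h2 := form_large hμ hs h r S hr
      have h3 : (S.card : ℝ) = s + r := by exact_mod_cast hr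
      have h4 : (0 : ℝ) < s * (s - 1) := by nlinarith
      have h5 : form μ (ind S) ≤ κ * ((S.card : ℝ) ^ 2 - S.card) := by
        have h6 : form μ (ind S) * (s * (s - 1)) ≤
            κ * ((S.card : ℝ) ^ 2 - S.card) * (s * (s - 1)) := by
          calc form μ (ind S) * (s * (s - 1)) ≤ η * (d * s) * ((s + r) * (s + r - 1)) := h2
            _ = (η * d) * s * ((s + r) * (s + r - 1)) := by ring
            _ = κ * ((S.card : ℝ) ^ 2 - S.card) * (s * (s - 1)) := by
              rw [← hκ', h3]
              ring
        exact le_of_mul_le_mul_right h6 h4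
      have h6 : 0 ≤ η * (d * s) := by
        have : η * (d * s) = η * d * s := by ring
        rw [this]
        positivity
      linarith
  have hsum0 : 0 ≤ ∑ v, f v := sum_nonneg fun v _ => hf0 v
  have hsq : 0 ≤ ∑ v, f v ^ 2 := sum_nonneg fun v _ => sq_nonneg _
  have h1 : κ * ((∑ v, f v) ^ 2 - ∑ v, f v ^ 2) ≤ κ * s ^ 2 := by
    refine mul_le_mul_of_nonneg_left ?_ hκ0
    have : (∑ v, f v) ^ 2 ≤ (s : ℝ) ^ 2 := by nlinarith
    linarith
  have h2 : κ * s ^ 2 ≤ 2 * (η * (d * s)) := by
    have h3 : κ * s ^ 2 = κ * s * s := by ring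
    have h4 : κ * s ≤ 2 * (η * d) := by
      rw [← hκ']
      nlinarith
    calc κ * s ^ 2 = (κ * s) * s := by ring
      _ ≤ (2 * (η * d)) * s := mul_le_mul_of_nonneg_right h4 (by linarith)
      _ = _ := by ring
  linarith

end Pool.Agent.U16.SSE
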