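import Pool.Agent.U16.SSE.Main

/-!
# Hardness of small-set expansion
-/

set_option autoImplicit false
set_option linter.unusedSectionVars false

namespace Pool.Agent.U16.SSE

open Finset Pool.Agent.NPC
open Pool.Agent.U16.UGT (Red)

variable {n n' m d : ℕ}

theorem disjoint_yes_no {η : ℚ} (hη2 : η < 1 / 2) (δ : ℚ) : Disjoint (Yes η δ) (No η δ) := by
  rw [Set.disjoint_left]
  rintro y ⟨n, d, s, G, h1, h2, h3, ⟨S, h4, h4'⟩, h5⟩ ⟨n', d', s', G', h1', h2', h3', h6, h5'⟩
  obtain ⟨rfl, rfl, h7⟩ := rawG_inj (h5.symm.trans h5')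
  simp only at h7
  subst h7
  have hss : s = s' := by
    have : (s : ℚ) = s' := by rw [h3, h3']
    exact_mod_cast this
  subst hss
  have h8 := h6 S h4
  linarith

/-- A description of disjunctive reductions. -/
theorem disjTT_iff {k : ℕ} {L : Set (List Bool)} {Y Z : Fin k → Set (List Bool)}
    (hd : ∀ i, Disjoint (Y i) (Z i)) : DisjTT L Y Z ↔ ∃ f : Fin k → List Bool → List Bool,
      (∀ i, PolyTime (f i)) ∧ ∀ x, (x ∈ L → ∃ i, f i x ∈ Y i) ∧ (x ∉ L → ∀ i, f i x ∈ Z i) := by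
  constructor
  · rintro ⟨f, hf, hA⟩
    refine ⟨f, hf, fun x => ⟨fun hx => (hA Y (fun i => subset_rfl) hd x).1 hx, fun hx i => ?_⟩⟩
    by_contra hcon
    exact hx ((hA (fun i => (Z i)ᶜ) (fun i => Set.subset_compl_iff_disjoint_right.2 (hd i))
      (fun i => disjoint_compl_left) x).2 ⟨i, hcon⟩)
  · rintro ⟨f, hf, h⟩
    refine ⟨f, hf, fun A hY hZ x => ⟨fun hx => ?_, fun hx => ?_⟩⟩
    · obtain ⟨i, hi⟩ := (h x).1 hx
      exact ⟨i, hY i hi⟩
    · by_contra hcon
      obtain ⟨i, hi⟩ := hx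
      exact Set.disjoint_left.1 (hZ i) hi ((h x).2 hcon i)

theorem disjTT_of_red {L Y Z : Set (List Bool)} (hd : Disjoint Y Z) (h : Red L Y Z) :
    DisjTT (k := 1) L (fun _ => Y) (fun _ => Z) := by
  obtain ⟨f, hf, h⟩ := h
  exact (disjTT_iff fun _ => hd).2 ⟨fun _ => f, fun _ => hf, fun x =>
    ⟨fun hx => ⟨0, (h x).1 hx⟩, fun hx _ => (h x).2 hx⟩⟩

/-! ### Large sets -/

theorem size_le_of_no {η δ : ℚ} (hη : 0 < η) (hηδ : η < δ) (hδ1 : δ ≤ 1) {s : ℕ}
    {G : SimpleGraph (Fin n)} (h : Regular G d) (hs : 1 ≤ s) (hsn : (s : ℚ) = δ * n)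
    (hS : ∀ S : Finset (Fin n), S.card = s → 1 - η ≤ (cut G S : ℚ) / (d * s)) :
    (n : ℚ) ≤ 1 / (δ - η) := by
  have hpos : 0 < δ - η := by linarith
  rw [le_div_iff₀ hpos]
  have hn0 : (0 : ℚ) ≤ n := Nat.cast_nonneg n
  rcases Nat.lt_or_ge s 2 with h1 | h1
  · have h2 : s = 1 := by omega
    subst h2
    push_cast at hsn
    nlinarith
  · have hsn' : s ≤ n := by
      have h2 : (s : ℚ) ≤ n := by
        rw [hsn]
        nlinarith
      exact_mod_cast h2
    have hd : 1 ≤ d := h.1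
    have hset : ∀ S : Finset (Fin n), S.card = s → form (adj G) (ind S) ≤ (η : ℝ) * (d * s) := by
      intro S hS1
      have h3 := hS S hS1
      have h4 : (0 : ℚ) < d * s := by
        have : 0 < d * s := Nat.mul_pos hd (by omega)
        exact_mod_cast this
      rw [le_div_iff₀ h4] at h3
      have h5 : (1 - (η : ℝ)) * (d * s) ≤ (cut G S : ℝ) := by exact_mod_cast h3
      rw [cut_eq h S, hS1] at h5
      linarith
    obtain ⟨r, hr⟩ := Nat.exists_eq_add_of_le hsn'
    have h3 := form_large (adj_mg h) h1 hset r univ (by rw [card_univ, Fintype.card_fin, hr])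
    have h4 : form (adj G) (ind univ) = d * n := by
      rw [form_ind]
      have h5 : ∀ u, ∑ v, (adj G u v : ℝ) = d := by
        intro u
        exact_mod_cast (adj_mg h).reg u
      simp only [h5, sum_const, card_univ, Fintype.card_fin, nsmul_eq_mul]
      ring
    have h5 : (s : ℝ) + r = n := by exact_mod_cast hr.symm
    rw [h4, h5] at h3
    have hdR : (0 : ℝ) < d := by exact_mod_cast hd
    have hsR : (0 : ℝ) < s := by exact_mod_cast (by omega : 0 < s)
    have hnR : (0 : ℝ) < n := by exact_mod_cast (by omega : 0 < n)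
    have h6 : ((s : ℝ) - 1) ≤ η * (n - 1) := by
      have h7 : (d * s * n : ℝ) * (s - 1) ≤ (d * s * n) * (η * (n - 1)) := by
        calc (d * s * n : ℝ) * (s - 1) = d * n * (s * (s - 1)) := by ring
          _ ≤ η * (d * s) * (n * (n - 1)) := h3
          _ = _ := by ring
      exact le_of_mul_le_mul_left h7 (by positivity)
    have h7 : ((s : ℚ) - 1) ≤ η * (n - 1) := by exact_mod_cast h6
    rw [hsn] at h7
    nlinarith

theorem finite_no {η δ : ℚ} (hη : 0 < η) (hηδ : η < δ) (hδ1 : δ ≤ 1) : (No η δ).Finite := by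
  classical
  obtain ⟨B, hB⟩ := exists_nat_ge (1 / (δ - η))
  have h1 : (⋃ n ∈ Finset.range (B + 1), ⋃ d ∈ Finset.range (B + 1),
      Set.range fun G : SimpleGraph (Fin n) => code G d).Finite := by
    refine Set.Finite.biUnion (Finset.finite_toSet _) fun n _ => ?_
    refine Set.Finite.biUnion (Finset.finite_toSet _) fun d _ => ?_
    exact Set.finite_range _
  refine h1.subset ?_
  rintro x ⟨n, d, s, G, h2, h3, h4, h5, rfl⟩
  have h6 := size_le_of_no hη hηδ hδ1 h2 h3 h4 h5
  have hn : n ≤ B := by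
    have : (n : ℚ) ≤ B := h6.trans hB
    exact_mod_cast this
  have hn0 : 0 < n := by
    by_contra hcon
    push Not at hcon
    have : n = 0 := by omega
    subst this
    push_cast at h4
    rw [mul_zero] at h4
    have : s = 0 := by exact_mod_cast h4
    omega
  have hdn : d ≤ n := (adj_mg h2).le_card (adj_le G) hn0
  simp only [Set.mem_iUnion, Finset.mem_range, Set.mem_range]
  exact ⟨n, by omega, d, by omega, G, rfl⟩

/-! ### Special instances -/

theorem exists_no {η δ : ℚ} (_ : 0 < η) (hδ : 0 < δ) (hδη : δ ≤ η / 2) :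
    ∃ y, y ∈ No η δ := by
  rcases lt_or_ge η 1 with h1 | h1
  · have h2 : DisjTT (k := 0) (∅ : Set (List Bool)) (fun _ => Yes (η / 2) δ)
        (fun _ => No (η / 2) δ) := by
      refine ⟨fun _ x => x, fun i => i.elim0, fun A _ _ x => ⟨fun h => h.elim, ?_⟩⟩
      rintro ⟨i, -⟩
      exact i.elim0
    have h3 : Red ∅ (Yes η δ) (No η δ) := by
      refine red_of_disjTT (k := 0) (δ := fun _ => δ) (η := η / 2) (by linarith) (by linarith)
        (fun i => i.elim0) (fun i => i.elim0) ?_ hδ ?_ h2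
      · push_cast
        linarith
      · rw [Fin.sum_univ_zero, zero_add]
        exact one_div_le_one_div_of_le hδ hδη
    obtain ⟨f, -, h⟩ := h3
    exact ⟨f [], (h []).2 (fun h => h)⟩
  · -- every graph is a no instance
    obtain ⟨a, b, hab⟩ := exists_frac hδ
    have hmg : MG (blowF b edge) (1 * b) := (edge_mg.blow b).equiv finProdFinEquiv.symm
    have hle : ∀ u v, blowF b edge u v ≤ 1 := by
      intro u v
      unfold blowF blow edge
      split_ifs <;> omega
    have hreg := regular_ofM hmg hle (by rw [one_mul]; exact hab.bpos)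
    refine ⟨_, 2 * b, 1 * b, 2 * a, ofM _ hmg, hreg, ?_, ?_, ?_, rfl⟩
    · have := hab.apos
      omega
    · push_cast
      rw [← hab.eq]
      ring
    · intro S _
      have h2 : (0 : ℚ) ≤ (cut (ofM (blowF b edge) hmg) S : ℚ) /
          (((1 * b : ℕ) : ℚ) * ((2 * a : ℕ) : ℚ)) := by positivity
      linarith

theorem exists_yes {η δ : ℚ} (hη : 0 ≤ η) (hδ : 0 < δ) (hδ1 : δ < 1) : ∃ y, y ∈ Yes η δ := by
  classical
  obtain ⟨a, b, hab⟩ := exists_frac hδ
  have hlt : a < b := by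
    have h1 := hab.eq
    have h2 : (0 : ℚ) < b := by exact_mod_cast hab.bpos
    have h3 : (a : ℚ) < b := by
      rw [← h1]
      nlinarith
    exact_mod_cast h3
  obtain ⟨e, he⟩ := Nat.exists_eq_add_of_lt hlt
  obtain ⟨c, hc⟩ : ∃ c : ℕ, c = e + 1 := ⟨_, rfl⟩
  have hb : b = a + c := by omega
  have hc0 : 0 < c := by omega
  have hmgx : ∀ t : ℕ, MG (blowF t edge) t := by
    intro t
    have h1 := (edge_mg.blow t).equiv finProdFinEquiv.symm
    rwa [one_mul] at h1
  have hlex : ∀ t : ℕ, ∀ u v, blowF t edge u v ≤ 1 := by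
    intro t u v
    unfold blowF blow edge
    split_ifs <;> omega
  obtain ⟨M, hM⟩ : ∃ M : Fin (2 * a + 2 * c) → Fin (2 * a + 2 * c) → ℕ,
    M = unionF (scale c (blowF a edge)) (scale a (blowF c edge)) := ⟨_, rfl⟩
  have hMmg : MG M (c * a) := by
    rw [hM]
    refine unionF_mg ((hmgx a).scale c) ?_
    have h1 := (hmgx c).scale a
    rwa [Nat.mul_comm a c] at h1
  have hMle : ∀ u v, M u v ≤ a + c := by
    rw [hM]
    refine unionF_le (fun u v => ?_) fun u v => ?_
    · unfold scale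
      have := hlex a u v
      nlinarith
    · unfold scale
      have := hlex c u v
      nlinarith
  have hset : HasSet M (c * a) η (2 * a) := by
    have h1 : HasSet edge 1 η 2 := by
      refine ⟨univ, by simp, ?_⟩
      have h2 : form edge (ind univ) = 2 := by
        rw [form_ind]
        simp [edge, Fin.sum_univ_two]
        norm_num
      rw [h2]
      have : (0 : ℝ) ≤ η := by exact_mod_cast hη
      push_cast
      linarith
    have h2 := ((h1.blow (t := a)).equiv finProdFinEquiv.symm).scale c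
    rw [one_mul] at h2
    rw [hM]
    exact (h2.union_left _).equiv finSumFinEquiv.symm
  refine ⟨_, out_yes (Q := a + c) (s := 2 * a) (δ := δ) (by omega) hMmg
    (Nat.mul_pos hc0 hab.apos) hMle (by have := hab.apos; omega) ?_ hset⟩
  have h1 := hab.eq
  rw [hb] at h1
  push_cast at h1 ⊢
  linear_combination (-2) * h1

/-- The queries can be replaced by queries with small `δ`. -/
theorem small_queries {k : ℕ} {L : Set (List Bool)} {η : ℚ} {δ : Fin k → ℚ} (hη : 0 < η)
    (hη2 : η < 1 / 2) (hδ : ∀ i, 0 < δ i) (hδ1 : ∀ i, δ i ≤ 1)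
    (h : DisjTT L (fun i => Yes η (δ i)) (fun i => No η (δ i))) :
    DisjTT L (fun i => Yes η (if δ i ≤ η then δ i else η / 2))
      (fun i => No η (if δ i ≤ η then δ i else η / 2)) := by
  classical
  obtain ⟨f, hf, hx⟩ := (disjTT_iff fun i => disjoint_yes_no hη2 (δ i)).1 h
  refine (disjTT_iff fun i => disjoint_yes_no hη2 _).2 ?_
  have key : ∀ i, ∃ g : List Bool → List Bool, PolyTime g ∧
      (∀ x, f i x ∈ Yes η (δ i) → g x ∈ Yes η (if δ i ≤ η then δ i else η / 2)) ∧
      (∀ x, f i x ∈ No η (δ i) → g x ∈ No η (if δ i ≤ η then δ i else η / 2)) := by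
    intro i
    split_ifs with h1
    · exact ⟨f i, hf i, fun x hx => hx, fun x hx => hx⟩
    · push Not at h1
      have hfin := finite_no hη h1 (hδ1 i)
      obtain ⟨y₀, hy₀⟩ := exists_yes (δ := η / 2) hη.le (by linarith) (by linarith)
      obtain ⟨z₀, hz₀⟩ := exists_no (δ := η / 2) hη (by linarith) le_rfl
      obtain ⟨ry, hry⟩ : ∃ r : ℕ × ℕ × List (List Bool), y₀ = bits r := by
        obtain ⟨n, d, s, G, -, -, -, -, h2⟩ := hy₀
        exact ⟨_, h2⟩
      obtain ⟨rz, hrz⟩ : ∃ r : ℕ × ℕ × List (List Bool), z₀ = bits r := by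
        obtain ⟨n, d, s, G, -, -, -, -, h2⟩ := hz₀
        exact ⟨_, h2⟩
      refine ⟨fun x => bits (if f i x ∈ hfin.toFinset.toList then rz else ry), ?_,
        fun x hx => ?_, fun x hx => ?_⟩
      · have h2 : NPC.Poly fun x => decide (f i x ∈ hfin.toFinset.toList) :=
          NPC.Poly.dec_mem (Med.poly_of_polyTime (hf i)) (NPC.Poly.const _)
        exact polyTime_bits (NPC.Poly.ite h2 (NPC.Poly.const _) (NPC.Poly.const _))
      · have h2 : f i x ∉ hfin.toFinset.toList := by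
          intro h3
          rw [Finset.mem_toList, Set.Finite.mem_toFinset] at h3
          exact Set.disjoint_left.1 (disjoint_yes_no hη2 (δ i)) hx h3
        simp only
        rw [if_neg h2, ← hry]
        exact hy₀
      · have h2 : f i x ∈ hfin.toFinset.toList := by
          rw [Finset.mem_toList, Set.Finite.mem_toFinset]
          exact hx
        simp only
        rw [if_pos h2, ← hrz]
        exact hz₀
  choose g hg hgY hgN using key
  refine ⟨g, hg, fun x => ⟨fun hxL => ?_, fun hxL i => ?_⟩⟩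
  · obtain ⟨i, hi⟩ := (hx x).1 hxL
    exact ⟨i, hgY i x hi⟩
  · exact hgN i x ((hx x).2 hxL i)

/-- Composition of disjunctive reductions with many-one reductions. -/
theorem DisjTT.comp_red {k : ℕ} {L : Set (List Bool)} {L' Y Z : Fin k → Set (List Bool)}
    (hd : ∀ i, Disjoint (Y i) (Z i)) (h : DisjTT L L' fun i => (L' i)ᶜ)
    (h' : ∀ i, Red (L' i) (Y i) (Z i)) : DisjTT L Y Z := by
  obtain ⟨f, hf, h⟩ := (disjTT_iff fun i => disjoint_compl_right).1 h
  choose g hg hg' using h'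
  refine (disjTT_iff hd).2 ⟨fun i x => g i (f i x), fun i =>
    H642R2.TMSim.polyTime_comp (hg i) (hf i), fun x => ⟨fun hx => ?_, fun hx i => ?_⟩⟩
  · obtain ⟨i, hi⟩ := (h x).1 hx
    exact ⟨i, (hg' i _).1 hi⟩
  · exact (hg' i _).2 ((h x).2 hx i)

theorem disjTT_union (L : Fin 2 → Set (List Bool)) :
    DisjTT (L 0 ∪ L 1) L fun i => (L i)ᶜ := by
  refine (disjTT_iff fun i => disjoint_compl_right).2 ⟨fun _ x => x, fun _ => polyTime_id,
    fun x => ⟨?_, fun hx i => ?_⟩⟩
  · rintro (hx | hx)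
    · exact ⟨0, hx⟩
    · exact ⟨1, hx⟩
  · rw [Set.mem_union, not_or] at hx
    fin_cases i
    · exact hx.1
    · exact hx.2

/-- The bound for `δ'`. -/
theorem exists_bound {k : ℕ} {η : ℚ} {δ : Fin k → ℚ} (hη : 0 < η) (hδ : ∀ i, 0 < δ i) :
    ∃ δ₀ : ℚ, 0 < δ₀ ∧ ∀ δ' : ℚ, 0 < δ' → δ' ≤ δ₀ → ∑ i, 1 / δ i + 1 / η ≤ 1 / δ' := by
  have h1 : 0 < ∑ i, 1 / δ i + 1 / η := by
    have : 0 ≤ ∑ i, 1 / δ i := Finset.sum_nonneg fun i _ => (by have := hδ i; positivity)
    positivity
  refine ⟨1 / (∑ i, 1 / δ i + 1 / η), by positivity, fun δ' h2 h3 => ?_⟩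
  rw [le_div_iff₀ h1] at h3
  rw [le_div_iff₀ h2]
  linarith

/-- Disjunctive reductions with any `δ i ≤ 1` give many-one reductions for all small `δ'`. -/
theorem red_of_disjTT' {k : ℕ} {L : Set (List Bool)} {η η' : ℚ} {δ : Fin k → ℚ} (hη : 0 < η)
    (hη2 : η < 1 / 2) (hη' : (3 * k + 2) * η ≤ η') (hδ : ∀ i, 0 < δ i) (hδ1 : ∀ i, δ i ≤ 1)
    (h : DisjTT L (fun i => Yes η (δ i)) (fun i => No η (δ i))) :
    ∃ δ₀ : ℚ, 0 < δ₀ ∧ ∀ δ' : ℚ, 0 < δ' → δ' ≤ δ₀ → Red L (Yes η' δ') (No η' δ') := by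
  have h1 := small_queries hη hη2 hδ hδ1 h
  have h2 : ∀ i, 0 < if δ i ≤ η then δ i else η / 2 := by
    intro i
    split_ifs
    · exact hδ i
    · linarith
  obtain ⟨δ₀, h3, h4⟩ := exists_bound hη h2
  refine ⟨δ₀, h3, fun δ' h5 h6 => red_of_disjTT hη hη2 h2 (fun i => ?_) hη' h5 (h4 δ' h5 h6) h1⟩
  split_ifs with h7
  · exact h7
  · linarith

end Pool.Agent.U16.SSE
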