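import Pool.Agent.U16.SSE.Norm

/-!
# Disjunctive reductions to small-set expansion
-/

set_option autoImplicit false
set_option linter.unusedSectionVars false

namespace Pool.Agent.U16.SSE

open Finset Pool.Agent.NPC
open Pool.Agent.U16.UGT (Red)

/-- The language `L` has a disjunctive truth-table reduction to the promise problems `(Y i, Z i)`
with `k` queries, one to each of them: the queries `f i x` are computed in polynomial time and, for
all sets `A i` which solve the promise problems, `x` belongs to `L` if and only if some `f i x`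
belongs to `A i`. -/
def DisjTT {k : ℕ} (L : Set (List Bool)) (Y Z : Fin k → Set (List Bool)) : Prop :=
  ∃ f : Fin k → List Bool → List Bool, (∀ i, PolyTime (f i)) ∧
    ∀ A : Fin k → Set (List Bool), (∀ i, Y i ⊆ A i) → (∀ i, Disjoint (A i) (Z i)) →
      ∀ x, x ∈ L ↔ ∃ i, f i x ∈ A i

variable {α : Type} [TEnc α]

theorem upoly_prod : ∀ {k : ℕ} {f : Fin k → α → ℕ}, (∀ i, UPoly (f i)) →
    UPoly fun a => ∏ i, f i a
  | 0, _, _ => by
    simp only [Fin.prod_univ_zero]
    exact UPoly.const 1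
  | k + 1, f, h => by
    simp only [Fin.prod_univ_succ]
    exact UPoly.mul (h 0) (upoly_prod (f := fun i => f i.succ) fun i => h i.succ)

section reduction

variable {k : ℕ} (a b : Fin k → ℕ) (x₁ x₂ q₀ : ℕ) (c : Fin k → ℕ × List (List ℕ))

/-- The number `s`, for each of the graphs. -/
def sz' (i : Fin k) : ℕ := a i * (c i).2.length / b i

/-- The product of these numbers. -/
def prodS : ℕ := ∏ i, sz' a b c i

/-- The common number of vertices of the sets. -/
def bigP : ℕ := 2 * x₂ * prodS a b c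

/-- The number of copies of each vertex. -/
def cop (i : Fin k) : ℕ := bigP a b x₂ c / sz' a b c i

/-- The number of copies of the vertices of the edge. -/
def cop0 : ℕ := x₁ * prodS a b c

/-- The common degree. -/
def bigW : ℕ := cop0 a b x₁ c * ∏ i, (c i).1 * cop a b x₂ c i

/-- The combined multigraph. -/
def comb : List (List ℕ) :=
  unionR (scaleR (bigW a b x₁ x₂ c / cop0 a b x₁ c) (blowR (cop0 a b x₁ c) (toL edge)))
    (unionAll k fun i => scaleR (bigW a b x₁ x₂ c / ((c i).1 * cop a b x₂ c i))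
      (blowR (cop a b x₂ c i) (c i).2))

/-- The combined graph. -/
def total : ℕ × ℕ × List (List Bool) :=
  outR (nextPrime (bigW a b x₁ x₂ c + q₀ + 2)) (bigW a b x₁ x₂ c) (comb a b x₁ x₂ c)

end reduction

section poly

variable {k : ℕ} (a b : Fin k → ℕ) (x₁ x₂ q₀ : ℕ) {c : α → Fin k → ℕ × List (List ℕ)}

theorem upoly_sz (hc : ∀ i, NPC.Poly fun x => c x i) (i : Fin k) :
    UPoly fun x => sz' a b (c x) i := by
  unfold sz'
  have h1 : UPoly fun x => (c x i).2.length := UPoly.length (NPC.Poly.snd (hc i))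
  have h2 : UPoly fun x => a i * (c x i).2.length := UPoly.mul (UPoly.const _) h1
  exact UPoly.of_le (NPC.Poly.div h2.toPoly (NPC.Poly.const _)) h2 fun x => Nat.div_le_self _ _

theorem upoly_prodS (hc : ∀ i, NPC.Poly fun x => c x i) : UPoly fun x => prodS a b (c x) := by
  unfold prodS
  exact upoly_prod fun i => upoly_sz a b hc i

theorem upoly_bigP (hc : ∀ i, NPC.Poly fun x => c x i) : UPoly fun x => bigP a b x₂ (c x) := by
  unfold bigP
  exact UPoly.mul (UPoly.const _) (upoly_prodS a b hc)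

theorem upoly_cop (hc : ∀ i, NPC.Poly fun x => c x i) (i : Fin k) :
    UPoly fun x => cop a b x₂ (c x) i := by
  unfold cop
  have h1 := upoly_bigP a b x₂ hc
  exact UPoly.of_le (NPC.Poly.div h1.toPoly (upoly_sz a b hc i).toPoly) h1 fun x =>
    Nat.div_le_self _ _

theorem upoly_cop0 (hc : ∀ i, NPC.Poly fun x => c x i) : UPoly fun x => cop0 a b x₁ (c x) := by
  unfold cop0
  exact UPoly.mul (UPoly.const _) (upoly_prodS a b hc)

/-- The degrees have to be bounded by the numbers of vertices. -/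
theorem upoly_bigW (hc : ∀ i, NPC.Poly fun x => c x i) (hd : ∀ x i, (c x i).1 ≤ (c x i).2.length) :
    UPoly fun x => bigW a b x₁ x₂ (c x) := by
  unfold bigW
  refine UPoly.mul (upoly_cop0 a b x₁ hc) (upoly_prod (f := fun i x => (c x i).1 *
    cop a b x₂ (c x) i) fun i => UPoly.mul ?_ (upoly_cop a b x₂ hc i))
  exact UPoly.of_le (NPC.Poly.fst (hc i)) (UPoly.length (NPC.Poly.snd (hc i))) fun x => hd x i

theorem poly_total (hc : ∀ i, NPC.Poly fun x => c x i) (hd : ∀ x i, (c x i).1 ≤ (c x i).2.length) :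
    NPC.Poly fun x => total a b x₁ x₂ q₀ (c x) := by
  unfold total
  have hW := upoly_bigW a b x₁ x₂ hc hd
  refine poly_outR (upoly_nextPrime (UPoly.add (UPoly.add hW (UPoly.const _)) (UPoly.const _)))
    hW.toPoly ?_
  unfold comb
  refine poly_unionR (poly_scaleR (NPC.Poly.div hW.toPoly (upoly_cop0 a b x₁ hc).toPoly)
    (poly_blowR (upoly_cop0 a b x₁ hc) (NPC.Poly.const _))) ?_
  refine poly_unionAll (l := fun i x => scaleR (bigW a b x₁ x₂ (c x) / ((c x i).1 *
    cop a b x₂ (c x) i)) (blowR (cop a b x₂ (c x) i) (c x i).2)) fun i => ?_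
  exact poly_scaleR (NPC.Poly.div hW.toPoly (NPC.Poly.mul (NPC.Poly.fst (hc i))
    (upoly_cop a b x₂ hc i).toPoly)) (poly_blowR (upoly_cop a b x₂ hc i) (NPC.Poly.snd (hc i)))

end poly

/-- The degree is less than the number of vertices. -/
theorem MG.le_card {n d : ℕ} {μ : Fin n → Fin n → ℕ} (h : MG μ d) (h1 : ∀ u v, μ u v ≤ 1)
    (hn : 0 < n) : d ≤ n := by
  rw [← h.reg ⟨0, hn⟩]
  refine (sum_le_sum fun v _ => h1 _ v).trans ?_
  simp

section main

variable {k : ℕ} {a b : Fin k → ℕ} {x₁ x₂ q₀ : ℕ} {δ : Fin k → ℚ} {η δ' : ℚ}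
  {z : Fin k → List Bool}

theorem comb_spec (hx₁ : 0 < x₁) (hx₂ : 0 < x₂) (hab : ∀ i, Frac (δ i) (a i) (b i))
    (hδ' : 0 < δ') (hx : (x₁ : ℚ) / x₂ = 1 / δ' - ∑ i, 1 / δ i) {n d s : Fin k → ℕ}
    {μ : ∀ i, Fin (n i) → Fin (n i) → ℕ}
    (h : ∀ i, Spec η (δ i) (a i) (b i) (z i) (n i) (d i) (s i) (μ i)) :
    ∃ (N P W : ℕ) (M : Fin N → Fin N → ℕ), MG M W ∧ 1 ≤ W ∧ 1 ≤ P ∧ (P : ℚ) = δ' * N ∧
      (∀ u v, M u v ≤ W) ∧
      total a b x₁ x₂ q₀ (fun i => norm (a i) (b i) (z i)) =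
        outR (nextPrime (W + q₀ + 2)) W (toL M) ∧
      (∀ i, z i ∈ Yes η (δ i) → HasSet M W η P) ∧
      ((∀ i, z i ∈ No η (δ i)) → 0 < η → FracNo M W (x₂ / x₁ + k * (3 * η)) P) := by
  classical
  obtain ⟨c, hc⟩ : ∃ c : Fin k → ℕ × List (List ℕ), c = fun i => (d i, toL (μ i)) := ⟨_, rfl⟩
  have hc' : (fun i => norm (a i) (b i) (z i)) = c := by
    rw [hc]
    funext i
    exact (h i).eq
  rw [hc']
  have hs0 : ∀ i, 0 < s i := fun i => by
    have := (h i).two
    omega
  have hsz : ∀ i, sz' a b c i = s i := by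
    intro i
    unfold sz'
    rw [hc]
    simp only
    rw [length_toL, (h i).size, Nat.mul_div_cancel_left _ (hab i).bpos]
  obtain ⟨S, hS⟩ : ∃ S : ℕ, S = ∏ i, s i := ⟨_, rfl⟩
  have hS0 : 0 < S := by
    rw [hS]
    exact Finset.prod_pos fun i _ => hs0 i
  have hprodS : prodS a b c = S := by
    unfold prodS
    rw [hS]
    exact Finset.prod_congr rfl fun i _ => hsz i
  obtain ⟨P, hP⟩ : ∃ P : ℕ, P = 2 * x₂ * S := ⟨_, rfl⟩
  have hbigP : bigP a b x₂ c = P := by
    unfold bigP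
    rw [hprodS, hP]
  have hP0 : 0 < P := by
    rw [hP]
    positivity
  have hsP : ∀ i, s i ∣ P := by
    intro i
    rw [hP, hS]
    exact (Finset.dvd_prod_of_mem s (mem_univ i)).mul_left _
  obtain ⟨t, ht⟩ : ∃ t : Fin k → ℕ, t = fun i => P / s i := ⟨_, rfl⟩
  have hcop : ∀ i, cop a b x₂ c i = t i := by
    intro i
    unfold cop
    rw [hbigP, hsz, ht]
  have hst : ∀ i, s i * t i = P := by
    intro i
    rw [ht]
    exact Nat.mul_div_cancel' (hsP i)
  have ht0 : ∀ i, 0 < t i := by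
    intro i
    by_contra hcon
    push Not at hcon
    have h1 := hst i
    rw [Nat.le_zero.1 hcon, mul_zero] at h1
    omega
  obtain ⟨t₀, ht₀⟩ : ∃ t₀ : ℕ, t₀ = x₁ * S := ⟨_, rfl⟩
  have hcop0 : cop0 a b x₁ c = t₀ := by
    unfold cop0
    rw [hprodS, ht₀]
  have ht₀0 : 0 < t₀ := by
    rw [ht₀]
    positivity
  obtain ⟨W, hW⟩ : ∃ W : ℕ, W = t₀ * ∏ i, d i * t i := ⟨_, rfl⟩
  have hbigW : bigW a b x₁ x₂ c = W := by
    unfold bigW
    rw [hcop0, hW]
    congr 1
    refine Finset.prod_congr rfl fun i _ => ?_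
    rw [hcop, hc]
  have hdt0 : ∀ i, 0 < d i * t i := fun i => Nat.mul_pos (h i).deg (ht0 i)
  have hW0 : 0 < W := by
    rw [hW]
    exact Nat.mul_pos ht₀0 (Finset.prod_pos fun i _ => hdt0 i)
  have hj0 : t₀ * (W / t₀) = W := Nat.mul_div_cancel' (by rw [hW]; exact dvd_mul_right _ _)
  have hj : ∀ i, d i * t i * (W / (d i * t i)) = W := by
    intro i
    refine Nat.mul_div_cancel' ?_
    rw [hW]
    exact (Finset.dvd_prod_of_mem (fun i => d i * t i) (mem_univ i)).mul_left _
  -- the components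
  obtain ⟨ν, hν⟩ : ∃ ν : ∀ i, Fin (n i * t i) → Fin (n i * t i) → ℕ,
      ν = fun i => scale (W / (d i * t i)) (blowF (t i) (μ i)) := ⟨_, rfl⟩
  have hνmg : ∀ i, MG (ν i) W := by
    intro i
    have h1 := (((h i).mg.blow (t i)).equiv finProdFinEquiv.symm).scale (W / (d i * t i))
    rw [Nat.mul_comm (W / (d i * t i)), hj i] at h1
    rw [hν]
    exact h1
  have hνle : ∀ i u v, ν i u v ≤ W := by
    intro i u v
    rw [hν]
    unfold scale
    have h1 := (h i).le (finProdFinEquiv.symm u).1 (finProdFinEquiv.symm v).1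
    calc W / (d i * t i) * blowF (t i) (μ i) u v ≤ W / (d i * t i) * 1 :=
          Nat.mul_le_mul_left _ h1
      _ ≤ W := by
        rw [mul_one]
        exact Nat.div_le_self _ _
  obtain ⟨M, e1, e2, e3, e4, e5⟩ := unionAll_spec k (fun i => n i * t i) ν W W hνmg hνle
  obtain ⟨ν₀, hν₀⟩ : ∃ ν₀ : Fin (2 * t₀) → Fin (2 * t₀) → ℕ,
      ν₀ = scale (W / t₀) (blowF t₀ edge) := ⟨_, rfl⟩
  have hν₀mg : MG ν₀ W := by
    have h1 := ((edge_mg.blow t₀).equiv finProdFinEquiv.symm).scale (W / t₀)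
    rw [one_mul, Nat.mul_comm (W / t₀), hj0] at h1
    rw [hν₀]
    exact h1
  have hν₀le : ∀ u v, ν₀ u v ≤ W := by
    intro u v
    rw [hν₀]
    unfold scale
    have h1 : blowF t₀ edge u v ≤ 1 := by
      unfold blowF blow edge
      split_ifs <;> omega
    calc W / t₀ * blowF t₀ edge u v ≤ W / t₀ * 1 := Nat.mul_le_mul_left _ h1
      _ ≤ W := by
        rw [mul_one]
        exact Nat.div_le_self _ _
  refine ⟨2 * t₀ + ∑ i, n i * t i, P, W, unionF ν₀ M, unionF_mg hν₀mg e2, hW0, hP0, ?_,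
    unionF_le hν₀le e3, ?_, ?_, ?_⟩
  · -- the number of vertices
    have hx₁' : (0 : ℚ) < x₁ := by exact_mod_cast hx₁
    have hx₂' : (0 : ℚ) < x₂ := by exact_mod_cast hx₂
    have h1 : ∀ i, ((n i * t i : ℕ) : ℚ) = P * (1 / δ i) := by
      intro i
      have h2 := size_to (hab i) (h i).size
      have h3 : δ i ≠ 0 := by
        intro h4
        have h5 := (hab i).eq
        rw [h4, zero_mul] at h5
        have h6 := (hab i).apos
        have h7 : (0 : ℚ) < a i := by exact_mod_cast h6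
        linarith
      have h4 : (n i : ℚ) = s i * (1 / δ i) := by
        rw [h2]
        field_simp
      have h5 : (P : ℚ) = s i * t i := by exact_mod_cast (hst i).symm
      push_cast
      rw [h4, h5]
      ring
    have h2 : ((∑ i, n i * t i : ℕ) : ℚ) = P * ∑ i, 1 / δ i := by
      rw [mul_sum, Nat.cast_sum]
      exact sum_congr rfl fun i _ => h1 i
    have h3 : ((2 * t₀ : ℕ) : ℚ) = P * (x₁ / x₂) := by
      rw [hP, ht₀]
      push_cast
      field_simp
    rw [Nat.cast_add, h2, h3, hx]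
    field_simp
    ring
  · unfold total comb
    rw [hbigW, hcop0]
    congr 1
    rw [blowR_toL, scaleR_toL, ← unionR_toL, ← e1, hν₀]
    congr 1
    congr 1
    funext i
    rw [hcop i, hν, hc]
    simp only
    rw [blowR_toL, scaleR_toL]
  · intro i hi
    have h1 : HasSet (ν i) W η P := by
      have h2 := ((((h i).yes hi).blow (t := t i)).equiv finProdFinEquiv.symm).scale
        (W / (d i * t i))
      rw [Nat.mul_comm (W / (d i * t i)), hj i, hst i] at h2
      rw [hν]
      exact h2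
    exact ((e5 η P i h1).union_right ν₀).equiv finSumFinEquiv.symm
  · intro hno hη
    have h1 : ∀ i, FracNo (ν i) W (3 * η) P := by
      intro i
      have h2 := ((((h i).no (hno i)).blow (ht0 i)).equiv finProdFinEquiv.symm).scale
        (W / (d i * t i))
      have h3 : (s i : ℝ) * t i = P := by exact_mod_cast hst i
      rw [Nat.mul_comm (W / (d i * t i)), hj i, h3] at h2
      rw [hν]
      exact h2
    have h2 : FracNo ν₀ W (x₂ / x₁) P := by
      have hx₁' : (0 : ℝ) < x₁ := by exact_mod_cast hx₁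
      have hx₂' : (0 : ℝ) < x₂ := by exact_mod_cast hx₂
      have h3 := (((edge_frac (2 * x₂ / x₁) (by positivity)).blow ht₀0).equiv
        finProdFinEquiv.symm).scale (W / t₀)
      have h4 : (2 * x₂ / x₁ : ℝ) * t₀ = P := by
        rw [hP, ht₀]
        push_cast
        field_simp
      have h5 : (2 * x₂ / x₁ : ℝ) / 2 = x₂ / x₁ := by ring
      rw [one_mul, Nat.mul_comm (W / t₀), hj0, h4, h5] at h3
      rw [hν₀]
      exact h3
    exact (h2.union (e4 (3 * η) P h1)).equiv finSumFinEquiv.symm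

/-- Disjunctive reductions become many-one reductions. -/
theorem red_of_disjTT {L : Set (List Bool)} {η' : ℚ} (hη : 0 < η)
    (hη2 : η < 1 / 2) (hδ : ∀ i, 0 < δ i) (hδη : ∀ i, δ i ≤ η) (hη' : (3 * k + 2) * η ≤ η')
    (hδ' : 0 < δ') (hδδ' : ∑ i, 1 / δ i + 1 / η ≤ 1 / δ')
    (h : DisjTT L (fun i => Yes η (δ i)) (fun i => No η (δ i))) :
    Red L (Yes η' δ') (No η' δ') := by
  classical
  obtain ⟨f, hf, hA⟩ := h
  choose a b hab using fun i => exists_frac (hδ i)
  have hx0 : 0 < 1 / δ' - ∑ i, 1 / δ i := by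
    have : 0 < 1 / η := by positivity
    linarith
  obtain ⟨x₁, x₂, hx⟩ := exists_frac hx0
  have hx₁' : (0 : ℚ) < x₁ := by exact_mod_cast hx.apos
  have hx₂' : (0 : ℚ) < x₂ := by exact_mod_cast hx.bpos
  have hxe : (x₁ : ℚ) / x₂ = 1 / δ' - ∑ i, 1 / δ i := by
    rw [← hx.eq]
    field_simp
  obtain ⟨q₀, hq₀⟩ := exists_nat_ge (1 / (η : ℝ) ^ 2)
  have hηR : (0 : ℝ) < η := by exact_mod_cast hη
  have hspec : ∀ x i, ∃ (n d s : ℕ) (μ : Fin n → Fin n → ℕ),
      Spec η (δ i) (a i) (b i) (f i x) n d s μ := fun x i =>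
    exists_spec hη (by linarith) (hδη i) (hab i) (f i x)
  have hnorm : ∀ x i, (norm (a i) (b i) (f i x)).1 ≤ (norm (a i) (b i) (f i x)).2.length := by
    intro x i
    obtain ⟨n, d, s, μ, hs⟩ := hspec x i
    rw [hs.eq]
    simp only [length_toL]
    refine hs.mg.le_card hs.le ?_
    by_contra hcon
    push Not at hcon
    have h1 := hs.size
    rw [Nat.le_zero.1 hcon, mul_zero] at h1
    have h2 := hs.two
    have h3 := (hab i).bpos
    have h4 : 0 < b i * s := Nat.mul_pos h3 (by omega)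
    omega
  have hkη : (η : ℝ) ≤ η' := by
    have h1 : η ≤ η' := by
      have : (0 : ℚ) ≤ k := Nat.cast_nonneg k
      nlinarith
    exact_mod_cast h1
  refine ⟨fun x => bits (total a b x₁ x₂ q₀ fun i => norm (a i) (b i) (f i x)),
    polyTime_bits (poly_total a b x₁ x₂ q₀ (c := fun x i => norm (a i) (b i) (f i x))
      (fun i => (poly_norm (a i) (b i)).comp (Med.poly_of_polyTime (hf i))) hnorm),
    fun x => ?_⟩
  choose n d s μ hs using hspec x
  obtain ⟨N, P, W, M, e1, e2, e3, e4, e5, e6, e7, e8⟩ := comb_spec (q₀ := q₀) (δ' := δ')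
    hx.apos hx.bpos hab hδ' hxe hs
  obtain ⟨hQ1, hQ2, hQ3⟩ := nextPrime_spec (m := W + q₀ + 2) (by omega)
  obtain ⟨Q, hQ⟩ : ∃ Q : ℕ, Q = nextPrime (W + q₀ + 2) := ⟨_, rfl⟩
  rw [← hQ] at hQ1 hQ2 e6
  simp only
  rw [e6]
  have hdisj : ∀ i, Disjoint (Yes η (δ i)) (No η (δ i)) := by
    intro i
    rw [Set.disjoint_left]
    rintro y ⟨n, d, s, G, h1, h2, h3, ⟨S, h4, h4'⟩, h5⟩ ⟨n', d', s', G', h1', h2', h3', h6, h5'⟩
    obtain ⟨rfl, rfl, h7⟩ := rawG_inj (h5.symm.trans h5')
    simp only at h7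
    subst h7
    have hss : s = s' := by
      have : (s : ℚ) = s' := by rw [h3, h3']
      exact_mod_cast this
    subst hss
    have h8 := h6 S h4
    linarith
  constructor
  · intro hxL
    obtain ⟨i, hi⟩ := (hA (fun i => Yes η (δ i)) (fun i => subset_rfl) hdisj x).1 hxL
    refine out_yes hQ1.pos e1 e2 (fun u v => (e5 u v).trans (by omega)) e3 e4 ?_
    exact (e7 i hi).mono_eta hkη
  · intro hxL
    have hno : ∀ i, f i x ∈ No η (δ i) := by
      intro i
      by_contra hcon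
      refine hxL ((hA (fun i => (No η (δ i))ᶜ) (fun i => ?_) (fun i => disjoint_compl_left) x).2
        ⟨i, hcon⟩)
      exact Set.subset_compl_iff_disjoint_right.2 (hdisj i)
    refine out_no hQ1 e1 e2 (fun u v => (e5 u v).trans (by omega)) e3 e4 ?_ (e8 hno hη)
    -- the numbers
    have h1 : (x₂ : ℝ) / x₁ ≤ η := by
      have h2 : (x₂ : ℚ) / x₁ ≤ η := by
        have h3 : 1 / η ≤ (x₁ : ℚ) / x₂ := by
          rw [hxe]
          linarith
        rw [div_le_div_iff₀ hη hx₂'] at h3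
        rw [div_le_iff₀ hx₁']
        linarith
      have h4 : (((x₂ : ℚ) / x₁ : ℚ) : ℝ) ≤ (η : ℝ) := Rat.cast_le.2 h2
      push_cast at h4
      exact h4
    have h2 : 1 / √(Q : ℝ) ≤ η := by
      have h3 : (1 : ℝ) / η ^ 2 ≤ Q := by
        refine hq₀.trans ?_
        have : q₀ ≤ Q := by omega
        exact_mod_cast this
      have h4 : 1 / (η : ℝ) ≤ √Q := by
        rw [← Real.sqrt_sq (by positivity : (0 : ℝ) ≤ 1 / η)]
        refine Real.sqrt_le_sqrt ?_
        rw [div_pow, one_pow]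
        exact h3
      have h5 : (0 : ℝ) < √Q := lt_of_lt_of_le (by positivity) h4
      rw [div_le_iff₀ h5]
      rw [div_le_iff₀ hηR] at h4
      linarith
    have h3 : ((3 * k + 2 : ℕ) : ℝ) * η ≤ η' := by
      have h4 : ((3 * k + 2 : ℕ) : ℚ) * η ≤ η' := by
        push_cast
        exact hη'
      exact_mod_cast h4
    push_cast at h3
    linarith

end main

end Pool.Agent.U16.SSE
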