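import Pool.Agent.U16.SSE.Frac

/-!
# A mixing relation

The relation `y + y' + x x' ≡ k` modulo a prime `Q`.
-/

set_option autoImplicit false
set_option linter.unusedSectionVars false

namespace Pool.Agent.U16.SSE

open Finset

section zmod

variable {p : ℕ} [Fact p.Prime]

/-- The second moment. -/
theorem second_moment (g : ZMod p × ZMod p → ℝ) (k : ZMod p) (hg : ∀ w, 0 ≤ g w) :
    ∑ x : ZMod p, ∑ y : ZMod p, (∑ x' : ZMod p, g (x', k - y - x * x')) ^ 2 ≤
      (∑ w, g w) ^ 2 + p * ∑ w, g w ^ 2 := by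
  classical
  obtain ⟨G, hG⟩ : ∃ G : ZMod p → ℝ, G = fun x' => ∑ z, g (x', z) := ⟨_, rfl⟩
  have hG0 : ∀ x', 0 ≤ G x' := by
    intro x'
    rw [hG]
    exact sum_nonneg fun z _ => hg _
  have hsum : ∑ w, g w = ∑ x', G x' := by
    rw [hG, Fintype.sum_prod_type]
  -- the term for two values of x'
  have h1 : ∀ a b : ZMod p, ∑ x : ZMod p, ∑ y : ZMod p, g (a, k - y - x * a) * g (b, k - y - x * b) =
      if a = b then p * ∑ z, g (a, z) ^ 2 else G a * G b := by
    intro a b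
    have h2 : ∀ x : ZMod p, ∑ y : ZMod p, g (a, k - y - x * a) * g (b, k - y - x * b) =
        ∑ z : ZMod p, g (a, z) * g (b, z + x * (a - b)) := by
      intro x
      refine Fintype.sum_equiv (Equiv.subLeft (k - x * a)) _ _ fun y => ?_
      simp only [Equiv.subLeft_apply]
      congr 2
      · congr 1
        ring
      · congr 1
        ring
    simp only [h2]
    rw [sum_comm]
    split_ifs with hab
    · subst hab
      simp only [sub_self, mul_zero, add_zero, sum_const, card_univ, ZMod.card, nsmul_eq_mul]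
      rw [mul_sum]
      exact sum_congr rfl fun z _ => by ring
    · have h3 : ∀ z : ZMod p, ∑ x : ZMod p, g (a, z) * g (b, z + x * (a - b)) =
          g (a, z) * G b := by
        intro z
        rw [← mul_sum, hG]
        congr 1
        have hne : a - b ≠ 0 := sub_ne_zero.2 hab
        refine Fintype.sum_equiv ((Equiv.mulRight₀ (a - b) hne).trans (Equiv.addLeft z)) _ _
          fun x => ?_
        simp
      simp only [h3]
      rw [← sum_mul, hG]
  have h4 : ∑ x : ZMod p, ∑ y : ZMod p, (∑ x' : ZMod p, g (x', k - y - x * x')) ^ 2 =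
      ∑ a : ZMod p, ∑ b : ZMod p, if a = b then p * ∑ z, g (a, z) ^ 2 else G a * G b := by
    simp only [← h1]
    have h5 : ∀ x y : ZMod p, (∑ x' : ZMod p, g (x', k - y - x * x')) ^ 2 =
        ∑ a : ZMod p, ∑ b : ZMod p, g (a, k - y - x * a) * g (b, k - y - x * b) := by
      intro x y
      rw [sq, sum_mul_sum]
    simp only [h5]
    have h6 : ∀ x : ZMod p, ∑ y : ZMod p, ∑ a : ZMod p, ∑ b : ZMod p,
        g (a, k - y - x * a) * g (b, k - y - x * b) = ∑ a : ZMod p, ∑ b : ZMod p,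
          ∑ y : ZMod p, g (a, k - y - x * a) * g (b, k - y - x * b) := by
      intro x
      rw [sum_comm]
      exact sum_congr rfl fun a _ => sum_comm
    simp only [h6]
    rw [sum_comm]
    exact sum_congr rfl fun a _ => sum_comm
  rw [h4, hsum, sq, sum_mul_sum, Fintype.sum_prod_type, mul_sum, ← sum_add_distrib]
  refine sum_le_sum fun a _ => ?_
  have h7 : ∀ b : ZMod p, (if a = b then p * ∑ z, g (a, z) ^ 2 else G a * G b) ≤
      G a * G b + if a = b then p * ∑ z, g (a, z) ^ 2 else 0 := by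
    intro b
    split_ifs
    · have := mul_nonneg (hG0 a) (hG0 b)
      linarith
    · linarith
  refine (sum_le_sum fun b _ => h7 b).trans ?_
  rw [sum_add_distrib]
  simp

/-- The mixing property. -/
theorem mixing_zmod (f g : ZMod p × ZMod p → ℝ) (k : ZMod p) (hg : ∀ w, 0 ≤ g w) :
    ∑ x : ZMod p, ∑ y : ZMod p, f (x, y) * ∑ x' : ZMod p, g (x', k - y - x * x') ≤
      (∑ w, f w) * (∑ w, g w) / p +
        √p * √(∑ w, f w ^ 2) * √(∑ w, g w ^ 2) := by
  have hp0 : (0 : ℝ) < p := by exact_mod_cast (Fact.out : p.Prime).pos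
  obtain ⟨H, hH⟩ : ∃ H : ZMod p × ZMod p → ℝ, H = fun w =>
      ∑ x' : ZMod p, g (x', k - w.2 - w.1 * x') := ⟨_, rfl⟩
  obtain ⟨S, hS⟩ : ∃ S : ℝ, S = ∑ w, g w := ⟨_, rfl⟩
  have hH1 : ∑ w, H w = p * S := by
    rw [hH, Fintype.sum_prod_type]
    simp only
    have h1 : ∀ x : ZMod p, ∑ y : ZMod p, ∑ x' : ZMod p, g (x', k - y - x * x') = S := by
      intro x
      rw [sum_comm, hS, Fintype.sum_prod_type]
      refine sum_congr rfl fun x' _ => ?_
      refine Fintype.sum_equiv (Equiv.subLeft (k - x * x')) _ _ fun y => ?_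
      simp only [Equiv.subLeft_apply]
      congr 2
      ring
    simp only [h1, sum_const, card_univ, ZMod.card, nsmul_eq_mul]
  have hH2 : ∑ w, H w ^ 2 ≤ S ^ 2 + p * ∑ w, g w ^ 2 := by
    rw [hH, Fintype.sum_prod_type, hS]
    exact second_moment g k hg
  have hvar : ∑ w, (H w - S / p) ^ 2 ≤ p * ∑ w, g w ^ 2 := by
    have h1 : ∀ w, (H w - S / p) ^ 2 = H w ^ 2 - 2 * (S / p) * H w + (S / p) ^ 2 := by
      intro w
      ring
    simp only [h1, sum_add_distrib, sum_sub_distrib, ← mul_sum, hH1, sum_const, card_univ,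
      Fintype.card_prod, ZMod.card, nsmul_eq_mul]
    push_cast
    have h2 : (p : ℝ) * p * (S / p) ^ 2 = S ^ 2 := by
      field_simp
    have h3 : 2 * (S / p) * (p * S) = 2 * S ^ 2 := by
      field_simp
    rw [h2, h3]
    linarith
  have h5 : ∑ x : ZMod p, ∑ y : ZMod p, f (x, y) * ∑ x' : ZMod p, g (x', k - y - x * x') =
      ∑ w, f w * H w := by
    rw [hH, Fintype.sum_prod_type]
  rw [h5, ← hS]
  have h6 : ∑ w, f w * H w = (∑ w, f w) * S / p + ∑ w, f w * (H w - S / p) := by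
    rw [mul_div_assoc, sum_mul, ← sum_add_distrib]
    exact sum_congr rfl fun w _ => by ring
  rw [h6]
  have h7 : (∑ w, f w * (H w - S / p)) ≤ √(∑ w, f w ^ 2) * √(∑ w, (H w - S / p) ^ 2) :=
    Real.sum_mul_le_sqrt_mul_sqrt _ _ _
  have h8 : √(∑ w, (H w - S / p) ^ 2) ≤ √p * √(∑ w, g w ^ 2) := by
    rw [← Real.sqrt_mul hp0.le]
    exact Real.sqrt_le_sqrt hvar
  have h9 : √(∑ w, f w ^ 2) * √(∑ w, (H w - S / p) ^ 2) ≤
      √p * √(∑ w, f w ^ 2) * √(∑ w, g w ^ 2) := by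
    calc √(∑ w, f w ^ 2) * √(∑ w, (H w - S / p) ^ 2) ≤
        √(∑ w, f w ^ 2) * (√p * √(∑ w, g w ^ 2)) :=
          mul_le_mul_of_nonneg_left h8 (Real.sqrt_nonneg _)
      _ = _ := by ring
  linarith

end zmod

/-! ### The relation on numbers -/

/-- The value of `y + y' + x x'` modulo `Q`. -/
def val (Q : ℕ) (w w' : Fin Q × Fin Q) : ℕ := ((w.2 : ℕ) + w'.2 + w.1 * w'.1) % Q

theorem val_symm (Q : ℕ) (w w' : Fin Q × Fin Q) : val Q w w' = val Q w' w := by
  unfold val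
  congr 1
  ring

/-- The bijection with the residue classes. -/
noncomputable def toZ (Q : ℕ) (hQ : 0 < Q) : Fin Q ≃ ZMod Q :=
  Equiv.ofBijective (fun a : Fin Q => ((a : ℕ) : ZMod Q)) (by
    have : NeZero Q := ⟨hQ.ne'⟩
    rw [Fintype.bijective_iff_injective_and_card]
    refine ⟨fun a b h => ?_, by rw [Fintype.card_fin, ZMod.card]⟩
    simp only at h
    rw [ZMod.natCast_eq_natCast_iff] at h
    exact Fin.ext (Nat.ModEq.eq_of_lt_of_lt h a.2 b.2))

theorem toZ_apply (Q : ℕ) (hQ : 0 < Q) (a : Fin Q) : toZ Q hQ a = ((a : ℕ) : ZMod Q) := rfl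

theorem val_eq_iff {Q : ℕ} (hQ : 0 < Q) (w w' : Fin Q × Fin Q) (k : ℕ) (hk : k < Q) :
    val Q w w' = k ↔
      toZ Q hQ w'.2 = (k : ZMod Q) - toZ Q hQ w.2 - toZ Q hQ w.1 * toZ Q hQ w'.1 := by
  unfold val
  simp only [toZ_apply]
  constructor
  · intro h
    have h1 : (((w.2 : ℕ) + w'.2 + w.1 * w'.1 : ℕ) : ZMod Q) = (k : ZMod Q) := by
      rw [← h, ZMod.natCast_mod]
    push_cast at h1
    rw [← h1]
    ring
  · intro h
    have h1 : (((w.2 : ℕ) + w'.2 + w.1 * w'.1 : ℕ) : ZMod Q) = (k : ZMod Q) := by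
      push_cast
      rw [h]
      ring
    rw [ZMod.natCast_eq_natCast_iff] at h1
    have h2 : ((w.2 : ℕ) + w'.2 + w.1 * w'.1) % Q = k % Q := h1
    rw [h2, Nat.mod_eq_of_lt hk]

/-- Sums over the neighbours. -/
theorem sum_val {Q : ℕ} (hQ : 0 < Q) (w : Fin Q × Fin Q) (k : ℕ) (hk : k < Q)
    (g : Fin Q × Fin Q → ℝ) :
    (∑ w', if val Q w w' = k then g w' else 0) =
      ∑ x' : Fin Q, g (x', (toZ Q hQ).symm ((k : ZMod Q) - toZ Q hQ w.2 -
        toZ Q hQ w.1 * toZ Q hQ x')) := by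
  classical
  rw [Fintype.sum_prod_type]
  refine sum_congr rfl fun x' _ => ?_
  simp only [val_eq_iff hQ w _ k hk]
  have h1 : ∀ y' : Fin Q, (toZ Q hQ y' = (k : ZMod Q) - toZ Q hQ w.2 - toZ Q hQ w.1 * toZ Q hQ x') ↔
      y' = (toZ Q hQ).symm ((k : ZMod Q) - toZ Q hQ w.2 - toZ Q hQ w.1 * toZ Q hQ x') := by
    intro y'
    rw [Equiv.eq_symm_apply]
  simp only [h1]
  simp

/-- The mixing property of the relation `val Q w w' = k`. -/
theorem mixing {Q : ℕ} (hQ : Q.Prime) (k : ℕ) (hk : k < Q) (f g : Fin Q × Fin Q → ℝ)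
    (hg : ∀ w, 0 ≤ g w) :
    (∑ w, ∑ w', if val Q w w' = k then f w * g w' else 0) ≤
      (∑ w, f w) * (∑ w, g w) / Q + √Q * √(∑ w, f w ^ 2) * √(∑ w, g w ^ 2) := by
  classical
  have : Fact Q.Prime := ⟨hQ⟩
  have hQ0 := hQ.pos
  let e : Fin Q × Fin Q ≃ ZMod Q × ZMod Q := (toZ Q hQ0).prodCongr (toZ Q hQ0)
  have h1 := mixing_zmod (fun w => f (e.symm w)) (fun w => g (e.symm w)) (k : ZMod Q)
    (fun w => hg _)
  have h2 : ∀ h : Fin Q × Fin Q → ℝ, ∑ w, h (e.symm w) = ∑ w, h w := fun h =>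
    Equiv.sum_comp e.symm h
  have h3 := h2 f
  have h4 := h2 g
  have h5 := h2 fun w => f w ^ 2
  have h6 := h2 fun w => g w ^ 2
  rw [h3, h4, h5, h6] at h1
  refine le_trans (le_of_eq ?_) h1
  have h9 : ∑ x : ZMod Q, ∑ y : ZMod Q, f (e.symm (x, y)) *
      ∑ x' : ZMod Q, g (e.symm (x', k - y - x * x')) = ∑ z : ZMod Q × ZMod Q, f (e.symm z) *
      ∑ x' : ZMod Q, g (e.symm (x', k - z.2 - z.1 * x')) :=
    (Fintype.sum_prod_type (fun z : ZMod Q × ZMod Q => f (e.symm z) *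
      ∑ x' : ZMod Q, g (e.symm (x', k - z.2 - z.1 * x')))).symm
  rw [h9, ← Equiv.sum_comp e]
  refine sum_congr rfl fun w _ => ?_
  have h7 : ∀ w', (if val Q w w' = k then f w * g w' else 0) =
      f w * if val Q w w' = k then g w' else 0 := by
    intro w'
    split_ifs <;> simp
  simp only [h7]
  rw [← mul_sum, sum_val hQ0 w k hk g]
  have h8 : e.symm (e w) = w := e.symm_apply_apply w
  congr 1
  · exact (congrArg f h8).symm
  · refine Fintype.sum_equiv (toZ Q hQ0) _ _ fun x' => ?_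
    refine congrArg g ?_
    refine Prod.ext ?_ ?_
    · exact ((toZ Q hQ0).symm_apply_apply x').symm
    · rfl

end Pool.Agent.U16.SSE
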