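import Pool.Agent.U16.SSE.Prom

/-!
# Normalization of the queries
-/

set_option autoImplicit false
set_option linter.unusedSectionVars false

namespace Pool.Agent.U16.SSE

open Finset Pool.Agent.NPC

variable {n n' m d : ℕ}

/-- The complete bipartite graph with `2 b` vertices. -/
def dflt (b : ℕ) : ℕ × List (List ℕ) := (b, blowR b (toL edge))

/-- The degree and the matrix of the graph with a given code, or of the complete bipartite graph. -/
noncomputable def norm (a b : ℕ) (z : List Bool) : ℕ × List (List ℕ) :=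
  if check a b ((unbits (ℕ × ℕ × List (List Bool)) z).getD (0, 0, [])) = true then
    (((unbits (ℕ × ℕ × List (List Bool)) z).getD (0, 0, [])).2.1,
      natL ((unbits (ℕ × ℕ × List (List Bool)) z).getD (0, 0, [])).2.2) else dflt b

theorem poly_norm (a b : ℕ) : NPC.Poly (norm a b) := by
  have h1 : NPC.Poly fun x : List Bool => (unbits (ℕ × ℕ × List (List Bool)) x).getD (0, 0, []) :=
    NPC.Poly.optGetD poly_unbits (NPC.Poly.const _)
  unfold norm
  exact NPC.Poly.ite (((poly_check a b).comp h1).congr fun x => by simp)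
    (NPC.Poly.pair (NPC.Poly.fst (NPC.Poly.snd h1))
      (poly_natL.comp (NPC.Poly.snd (NPC.Poly.snd h1)))) (NPC.Poly.const _)

theorem norm_code {a b : ℕ} {G : SimpleGraph (Fin n)} (h : Regular G d) (h1 : a * n % b = 0)
    (h2 : 2 * b ≤ a * n) : norm a b (code G d) = (d, toL (adj G)) := by
  unfold norm code
  rw [unbits_bits, Option.getD_some, if_pos (check_rawG h h1 h2), natL_rawG]
  rfl

/-- What is known about the normalized graph. -/
structure Spec (η δ : ℚ) (a b : ℕ) (z : List Bool) (n d s : ℕ) (μ : Fin n → Fin n → ℕ) :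
    Prop where
  eq : norm a b z = (d, toL μ)
  mg : MG μ d
  deg : 1 ≤ d
  le : ∀ u v, μ u v ≤ 1
  two : 2 ≤ s
  size : a * n = b * s
  yes : z ∈ Yes η δ → HasSet μ d η s
  no : z ∈ No η δ → FracNo μ d (3 * η) s

/-- `δ = a / b`. -/
structure Frac (δ : ℚ) (a b : ℕ) : Prop where
  apos : 0 < a
  bpos : 0 < b
  eq : δ * b = a

theorem exists_frac {δ : ℚ} (hδ : 0 < δ) : ∃ a b : ℕ, Frac δ a b := by
  refine ⟨δ.num.toNat, δ.den, ?_, δ.pos, ?_⟩
  · have := Rat.num_pos.2 hδ
    omega
  · have h1 : (δ.num.toNat : ℤ) = δ.num := Int.toNat_of_nonneg (Rat.num_pos.2 hδ).le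
    have h2 : ((δ.num.toNat : ℕ) : ℚ) = (δ.num : ℚ) := by exact_mod_cast h1
    rw [h2]
    exact Rat.mul_den_eq_num δ

theorem size_of {δ : ℚ} {a b s : ℕ} (hab : Frac δ a b) (h : (s : ℚ) = δ * n) :
    a * n = b * s := by
  have h1 : ((a * n : ℕ) : ℚ) = ((b * s : ℕ) : ℚ) := by
    push_cast
    rw [← hab.eq, h]
    ring
  exact_mod_cast h1

theorem size_to {δ : ℚ} {a b s : ℕ} (hab : Frac δ a b) (h : a * n = b * s) :
    (s : ℚ) = δ * n := by
  have h1 : ((a * n : ℕ) : ℚ) = ((b * s : ℕ) : ℚ) := by rw [h]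
  push_cast at h1
  rw [← hab.eq] at h1
  have h2 : (b : ℚ) ≠ 0 := by
    have := hab.bpos
    positivity
  have h3 : (b : ℚ) * (δ * n) = b * s := by
    rw [← h1]
    ring
  exact (mul_left_cancel₀ h2 h3).symm

theorem frac_of_no {η δ : ℚ} {s : ℕ} (hη : 0 < η) (hδ1 : δ ≤ 1) {G : SimpleGraph (Fin n)}
    (h : Regular G d) (hs : 2 ≤ s) (hsn : (s : ℚ) = δ * n)
    (hS : ∀ S : Finset (Fin n), S.card = s → 1 - η ≤ (cut G S : ℚ) / (d * s)) :
    FracNo (adj G) d (3 * η) s := by
  have hd : 1 ≤ d := h.1
  refine fracNo_of_sets (adj_mg h) (by exact_mod_cast hη.le) hs ?_ fun S hS1 => ?_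
  · rw [Fintype.card_fin]
    have h1 : (s : ℚ) ≤ n := by
      rw [hsn]
      have : (0 : ℚ) ≤ n := Nat.cast_nonneg n
      nlinarith
    exact_mod_cast h1
  · have h1 := hS S hS1
    have h2 : (0 : ℚ) < d * s := by
      have : 0 < d * s := Nat.mul_pos hd (by omega)
      exact_mod_cast this
    rw [le_div_iff₀ h2] at h1
    have h3 : (1 - (η : ℝ)) * (d * s) ≤ (cut G S : ℝ) := by exact_mod_cast h1
    rw [cut_eq h S, hS1] at h3
    linarith

theorem has_of_yes {η : ℚ} {s : ℕ} {G : SimpleGraph (Fin n)} (h : Regular G d) (hs : 1 ≤ s)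
    (hS : ∃ S : Finset (Fin n), S.card = s ∧ (cut G S : ℚ) / (d * s) ≤ η) :
    HasSet (adj G) d η s := by
  obtain ⟨S, h1, h2⟩ := hS
  have hd : 1 ≤ d := h.1
  refine ⟨S, h1, ?_⟩
  have h3 : (0 : ℚ) < d * s := by
    have : 0 < d * s := Nat.mul_pos hd hs
    exact_mod_cast this
  rw [div_le_iff₀ h3] at h2
  have h4 : (cut G S : ℝ) ≤ η * (d * s) := by exact_mod_cast h2
  rw [cut_eq h S, h1] at h4
  linarith

theorem form_single {μ : Fin n → Fin n → ℕ} (h : MG μ d) {S : Finset (Fin n)} (hS : S.card = 1) :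
    form μ (ind S) = 0 := by
  rw [card_eq_one] at hS
  obtain ⟨v, rfl⟩ := hS
  rw [form_ind]
  simp [h.diag v]

theorem rawG_inj {G : SimpleGraph (Fin n)} {G' : SimpleGraph (Fin n')} {d' : ℕ}
    (h : code G d = code G' d') : ∃ hn : n = n', d = d' ∧ hn ▸ G = G' := by
  classical
  have h1 := bits_injective h
  unfold rawG at h1
  simp only [Prod.mk.injEq] at h1
  obtain ⟨rfl, rfl, h2⟩ := h1
  refine ⟨rfl, rfl, ?_⟩
  simp only
  ext u v
  have h3 := congrFun (List.ofFn_injective (congrFun (List.ofFn_injective h2) u)) v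
  exact decide_eq_decide.1 h3

theorem exists_spec {η δ : ℚ} {a b : ℕ} (hη : 0 < η) (hη1 : η < 1) (hδη : δ ≤ η)
    (hab : Frac δ a b) (z : List Bool) :
    ∃ (n d s : ℕ) (μ : Fin n → Fin n → ℕ), Spec η δ a b z n d s μ := by
  have hbR : (0 : ℝ) < b := by exact_mod_cast hab.bpos
  by_cases hc : check a b ((unbits (ℕ × ℕ × List (List Bool)) z).getD (0, 0, [])) = true
  · obtain ⟨n, d, G, h1, h2, h3, h4⟩ := check_spec hc
    obtain ⟨s, hs⟩ := Nat.dvd_of_mod_eq_zero h2
    have hs2 : 2 ≤ s := by
      by_contra hcon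
      push Not at hcon
      have : b * s ≤ b * 1 := Nat.mul_le_mul_left _ (by omega)
      have := hab.bpos
      omega
    have hsize := size_to hab hs
    have hkey : ∀ {n' d' : ℕ} {G' : SimpleGraph (Fin n')}, z = code G' d' →
        code G d = code G' d' := by
      intro n' d' G' hz
      rw [hz] at h4
      unfold code at h4
      rw [unbits_bits, Option.getD_some] at h4
      unfold code
      rw [← h4]
    refine ⟨n, d, s, adj G, ?_, adj_mg h1, h1.1, adj_le G, hs2, hs, ?_, ?_⟩
    · unfold norm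
      rw [if_pos hc, h4, natL_rawG]
      rfl
    · rintro ⟨n', d', s', G', e1, e2, e3, e4, e5⟩
      obtain ⟨rfl, rfl, e6⟩ := rawG_inj (hkey e5)
      simp only at e6
      subst e6
      have hss : s' = s := by
        have : (s' : ℚ) = s := by rw [e3, hsize]
        exact_mod_cast this
      subst hss
      exact has_of_yes e1 e2 e4
    · rintro ⟨n', d', s', G', e1, e2, e3, e4, e5⟩
      obtain ⟨rfl, rfl, e6⟩ := rawG_inj (hkey e5)
      simp only at e6
      subst e6
      have hss : s' = s := by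
        have : (s' : ℚ) = s := by rw [e3, hsize]
        exact_mod_cast this
      subst hss
      exact frac_of_no hη (hδη.trans hη1.le) e1 hs2 e3 e4
  · have hmg : MG (blowF b edge) (1 * b) := (edge_mg.blow b).equiv finProdFinEquiv.symm
    refine ⟨2 * b, b, 2 * a, blowF b edge, ?_, ?_, hab.bpos, ?_, ?_, by ring, ?_, ?_⟩
    · unfold norm
      rw [if_neg hc]
      unfold dflt
      rw [blowR_toL]
    · rwa [one_mul] at hmg
    · intro u v
      unfold blowF blow edge
      split_ifs <;> omega
    · have := hab.apos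
      omega
    · -- a yes instance passes the test
      rintro ⟨n', d', s', G', e1, e2, e3, ⟨S, e4, e4'⟩, e5⟩
      exfalso
      refine hc ?_
      rw [e5]
      unfold code
      rw [unbits_bits, Option.getD_some]
      have e6 := size_of hab e3
      refine check_rawG e1 (by rw [e6]; exact Nat.mul_mod_right _ _) ?_
      rw [e6, Nat.mul_comm]
      refine Nat.mul_le_mul_left _ ?_
      by_contra hcon
      push Not at hcon
      have e7 : s' = 1 := by omega
      subst e7
      have e8 := cut_eq e1 S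
      rw [form_single (adj_mg e1) e4, e4] at e8
      have e9 : (cut G' S : ℚ) = d' := by
        have : (cut G' S : ℝ) = d' := by
          rw [e8]
          push_cast
          ring
        exact_mod_cast this
      have e10 : (0 : ℚ) < d' := by
        have := e1.1
        exact_mod_cast this
      rw [e9, Nat.cast_one, mul_one, div_self e10.ne'] at e4'
      linarith
    · intro _
      have h1 := (edge_frac (2 * a / b) (by positivity)).blow hab.bpos
      have h2 := h1.equiv finProdFinEquiv.symm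
      have h3 : (2 * a / b : ℝ) * b = ((2 * a : ℕ) : ℝ) := by
        push_cast
        field_simp
      rw [h3, one_mul] at h2
      refine FracNo.mono_eta h2 (by positivity) ?_
      have h4 : (δ : ℝ) * b = a := by exact_mod_cast hab.eq
      have h5 : (2 * a / b : ℝ) / 2 = δ := by
        rw [← h4]
        field_simp
      rw [h5]
      have h6 : (δ : ℝ) ≤ η := by exact_mod_cast hδη
      have h7 : (0 : ℝ) < η := by exact_mod_cast hη
      linarith

end Pool.Agent.U16.SSE
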