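import Pool.Agent.U16.SSE.Mix

/-!
# Operations on multigraphs
-/

set_option autoImplicit false
set_option linter.unusedSectionVars false

namespace Pool.Agent.U16.SSE

open Finset

variable {V V' : Type} [Fintype V] [Fintype V'] {μ : V → V → ℕ} {μ' : V' → V' → ℕ} {d : ℕ}
  {η η' s : ℝ}

/-! ### Transfer -/

theorem MG.equiv (e : V' ≃ V) (h : MG μ d) : MG (fun u v => μ (e u) (e v)) d where
  symm _ _ := h.symm _ _
  diag _ := h.diag _
  reg u := (Equiv.sum_comp e fun v => μ (e u) v).trans (h.reg _)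

theorem form_equiv (e : V' ≃ V) (f : V' → ℝ) :
    form (fun u v => μ (e u) (e v)) f = form μ fun v => f (e.symm v) := by
  unfold form
  rw [← Equiv.sum_comp e]
  refine sum_congr rfl fun u _ => ?_
  rw [← Equiv.sum_comp e]
  refine sum_congr rfl fun v _ => ?_
  simp only [Equiv.symm_apply_apply]

theorem FracNo.equiv (e : V' ≃ V) (h : FracNo μ d η s) :
    FracNo (fun u v => μ (e u) (e v)) d η s := by
  intro f h0 h1 h2
  rw [form_equiv]
  exact h _ (fun v => h0 _) (fun v => h1 _) ((Equiv.sum_comp e.symm f).trans_le h2)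

theorem HasSet.equiv {s : ℕ} (e : V' ≃ V) (h : HasSet μ d η s) :
    HasSet (fun u v => μ (e u) (e v)) d η s := by
  classical
  obtain ⟨S, h1, h2⟩ := h
  refine ⟨S.map e.symm.toEmbedding, by rw [card_map, h1], ?_⟩
  rw [form_equiv]
  have h3 : (fun v => ind (S.map e.symm.toEmbedding) (e.symm v)) = ind S := by
    funext v
    unfold ind
    congr 1
    simp
  rw [h3]
  exact h2

theorem FracNo.mono_eta (h : FracNo μ d η s) (hs : 0 ≤ s) (hη : η ≤ η') : FracNo μ d η' s := by
  intro f h0 h1 h2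
  refine (h f h0 h1 h2).trans (mul_le_mul_of_nonneg_right hη ?_)
  positivity

theorem HasSet.mono_eta {s : ℕ} (h : HasSet μ d η s) (hη : η ≤ η') : HasSet μ d η' s := by
  obtain ⟨S, h1, h2⟩ := h
  refine ⟨S, h1, le_trans ?_ h2⟩
  refine mul_le_mul_of_nonneg_right (by linarith) ?_
  positivity

theorem FracNo.eta_nonneg (h : FracNo μ d η s) (hd : 0 < d) (hs : 0 < s) : 0 ≤ η := by
  have h1 := h (fun _ => 0) (fun _ => le_rfl) (fun _ => zero_le_one) (by simpa using hs.le)
  have h2 : form μ (fun _ => (0 : ℝ)) = 0 := by simp [form]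
  rw [h2] at h1
  have h3 : (0 : ℝ) < d * s := mul_pos (by exact_mod_cast hd) hs
  by_contra hcon
  push Not at hcon
  nlinarith

/-! ### Multiples -/

/-- All edges with multiplicity `j`. -/
def scale (j : ℕ) (μ : V → V → ℕ) (u v : V) : ℕ := j * μ u v

theorem MG.scale (j : ℕ) (h : MG μ d) : MG (scale j μ) (j * d) where
  symm u v := by
    unfold SSE.scale
    rw [h.symm]
  diag u := by
    unfold SSE.scale
    rw [h.diag, mul_zero]
  reg u := by
    unfold SSE.scale
    rw [← mul_sum, h.reg]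

theorem form_scale (j : ℕ) (f : V → ℝ) : form (scale j μ) f = j * form μ f := by
  unfold form scale
  rw [mul_sum]
  refine sum_congr rfl fun u _ => ?_
  rw [mul_sum]
  refine sum_congr rfl fun v _ => ?_
  push_cast
  ring

theorem FracNo.scale (j : ℕ) (h : FracNo μ d η s) : FracNo (scale j μ) (j * d) η s := by
  intro f h0 h1 h2
  rw [form_scale]
  have h3 := mul_le_mul_of_nonneg_left (h f h0 h1 h2) (Nat.cast_nonneg (α := ℝ) j)
  push_cast
  linarith

theorem HasSet.scale {s : ℕ} (j : ℕ) (h : HasSet μ d η s) : HasSet (scale j μ) (j * d) η s := by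
  obtain ⟨S, h1, h2⟩ := h
  refine ⟨S, h1, ?_⟩
  rw [form_scale]
  have h3 := mul_le_mul_of_nonneg_left h2 (Nat.cast_nonneg (α := ℝ) j)
  push_cast
  linarith

/-! ### Unions -/

/-- The disjoint union. -/
def union (μ : V → V → ℕ) (μ' : V' → V' → ℕ) : V ⊕ V' → V ⊕ V' → ℕ
  | Sum.inl u, Sum.inl v => μ u v
  | Sum.inr u, Sum.inr v => μ' u v
  | Sum.inl _, Sum.inr _ => 0
  | Sum.inr _, Sum.inl _ => 0

theorem MG.union (h : MG μ d) (h' : MG μ' d) : MG (union μ μ') d where
  symm u v := by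
    rcases u with u | u <;> rcases v with v | v <;> simp only [SSE.union]
    · exact h.symm _ _
    · exact h'.symm _ _
  diag u := by
    rcases u with u | u <;> simp only [SSE.union]
    · exact h.diag _
    · exact h'.diag _
  reg u := by
    rw [Fintype.sum_sum_type]
    rcases u with u | u <;> simp only [SSE.union, sum_const_zero, add_zero, zero_add]
    · exact h.reg _
    · exact h'.reg _

theorem form_union (f : V ⊕ V' → ℝ) : form (union μ μ') f =
    form μ (fun v => f (Sum.inl v)) + form μ' (fun v => f (Sum.inr v)) := by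
  unfold form
  rw [Fintype.sum_sum_type]
  simp only [Fintype.sum_sum_type, SSE.union, Nat.cast_zero, zero_mul, sum_const_zero, add_zero,
    zero_add]

theorem FracNo.union (h : FracNo μ d η s) (h' : FracNo μ' d η' s) :
    FracNo (union μ μ') d (η + η') s := by
  intro f h0 h1 h2
  rw [form_union]
  rw [Fintype.sum_sum_type] at h2
  have e1 : 0 ≤ ∑ v, f (Sum.inl v) := sum_nonneg fun v _ => h0 _
  have e2 : 0 ≤ ∑ v, f (Sum.inr v) := sum_nonneg fun v _ => h0 _
  have h3 := h (fun v => f (Sum.inl v)) (fun v => h0 _) (fun v => h1 _) (by linarith)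
  have h4 := h' (fun v => f (Sum.inr v)) (fun v => h0 _) (fun v => h1 _) (by linarith)
  linarith

theorem HasSet.union_left {s : ℕ} (h : HasSet μ d η s) (μ' : V' → V' → ℕ) :
    HasSet (union μ μ') d η s := by
  classical
  obtain ⟨S, h1, h2⟩ := h
  refine ⟨S.map Function.Embedding.inl, by rw [card_map, h1], ?_⟩
  rw [form_union]
  have h3 : (fun v => ind (S.map Function.Embedding.inl) (Sum.inl v : V ⊕ V')) = ind S := by
    funext v
    unfold ind
    congr 1
    simp
  rw [h3]
  exact h2.trans (le_add_of_nonneg_right (form_nonneg _ fun v => ind_nonneg _ _))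

theorem HasSet.union_right {s : ℕ} (h : HasSet μ' d η s) (μ : V → V → ℕ) :
    HasSet (union μ μ') d η s := by
  classical
  obtain ⟨S, h1, h2⟩ := h
  refine ⟨S.map Function.Embedding.inr, by rw [card_map, h1], ?_⟩
  rw [form_union]
  have h3 : (fun v => ind (S.map Function.Embedding.inr) (Sum.inr v : V ⊕ V')) = ind S := by
    funext v
    unfold ind
    congr 1
    simp
  rw [h3]
  exact h2.trans (le_add_of_nonneg_left (form_nonneg _ fun v => ind_nonneg _ _))

/-! ### Blow-ups -/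

/-- Every vertex is replaced by `t` copies. -/
def blow (t : ℕ) (μ : V → V → ℕ) (u v : V × Fin t) : ℕ := μ u.1 v.1

theorem MG.blow (t : ℕ) (h : MG μ d) : MG (blow t μ) (d * t) where
  symm _ _ := h.symm _ _
  diag _ := h.diag _
  reg u := by
    rw [Fintype.sum_prod_type]
    simp only [SSE.blow, sum_const, card_univ, Fintype.card_fin, smul_eq_mul]
    rw [← mul_sum, h.reg, mul_comm]

theorem form_blow (t : ℕ) (f : V × Fin t → ℝ) :
    form (blow t μ) f = form μ fun v => ∑ a, f (v, a) := by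
  unfold form blow
  rw [Fintype.sum_prod_type]
  refine sum_congr rfl fun u _ => ?_
  simp only [Fintype.sum_prod_type]
  rw [sum_comm]
  refine sum_congr rfl fun v _ => ?_
  rw [sum_mul_sum, mul_sum]
  refine sum_congr rfl fun a _ => ?_
  rw [mul_sum]

theorem form_mul (c : ℝ) (f : V → ℝ) : form μ (fun v => c * f v) = c ^ 2 * form μ f := by
  unfold form
  rw [mul_sum]
  refine sum_congr rfl fun u _ => ?_
  rw [mul_sum]
  exact sum_congr rfl fun v _ => by ring

theorem FracNo.blow {t : ℕ} (ht : 0 < t) (h : FracNo μ d η s) :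
    FracNo (blow t μ) (d * t) η (s * t) := by
  intro f h0 h1 h2
  have ht' : (0 : ℝ) < t := by exact_mod_cast ht
  rw [form_blow]
  have e1 : (fun v => ∑ a, f (v, a)) = fun v => (t : ℝ) * ((∑ a, f (v, a)) / t) := by
    funext v
    field_simp
  rw [e1, form_mul]
  have h3 := h (fun v => (∑ a, f (v, a)) / t)
    (fun v => div_nonneg (sum_nonneg fun a _ => h0 _) ht'.le)
    (fun v => by
      rw [div_le_one ht']
      refine (sum_le_sum fun a _ => h1 (v, a)).trans ?_
      simp)
    (by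
      rw [← sum_div, div_le_iff₀ ht']
      rw [Fintype.sum_prod_type] at h2
      exact h2)
  push_cast
  nlinarith [sq_nonneg (t : ℝ)]

theorem ind_prod {W : Type} [Fintype W] (S : Finset V) (v : V) (w : W) :
    ind (S ×ˢ (univ : Finset W)) (v, w) = ind S v := by
  have h : (v, w) ∈ S ×ˢ (univ : Finset W) ↔ v ∈ S := by simp
  unfold ind
  by_cases hv : v ∈ S
  · rw [if_pos (h.2 hv), if_pos hv]
  · rw [if_neg (fun hc => hv (h.1 hc)), if_neg hv]

theorem HasSet.blow {t s : ℕ} (h : HasSet μ d η s) : HasSet (blow t μ) (d * t) η (s * t) := by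
  obtain ⟨S, h1, h2⟩ := h
  refine ⟨S ×ˢ univ, by rw [card_product, h1, card_univ, Fintype.card_fin], ?_⟩
  rw [form_blow]
  simp only [ind_prod, sum_const, card_univ, Fintype.card_fin, nsmul_eq_mul]
  rw [form_mul]
  push_cast
  nlinarith [sq_nonneg (t : ℝ)]

/-! ### Simple graphs from multigraphs -/

/-- Every vertex is replaced by `Q ^ 2` copies, and edges of multiplicity `m` by relations of
density `m / Q`. -/
def gad (Q : ℕ) (μ : V → V → ℕ) (u v : V × (Fin Q × Fin Q)) : ℕ :=
  if val Q u.2 v.2 < μ u.1 v.1 then 1 else 0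

theorem sum_pair {Q : ℕ} (F : V × (Fin Q × Fin Q) → ℝ) : ∑ v, F v = ∑ v, ∑ w, F (v, w) :=
  Fintype.sum_prod_type F

theorem gad_le_one (Q : ℕ) (u v : V × (Fin Q × Fin Q)) : gad Q μ u v ≤ 1 := by
  unfold gad
  split_ifs <;> omega

theorem sum_lt {Q : ℕ} (w : Fin Q × Fin Q) (m : ℕ) (g : Fin Q × Fin Q → ℝ) :
    (∑ w', if val Q w w' < m then g w' else 0) =
      ∑ k ∈ range m, ∑ w', if val Q w w' = k then g w' else 0 := by
  rw [sum_comm]
  refine sum_congr rfl fun w' _ => ?_
  rw [sum_ite_eq]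
  simp only [mem_range]

theorem sum_lt_one {Q : ℕ} (hQ : 0 < Q) (w : Fin Q × Fin Q) {m : ℕ} (hm : m ≤ Q) :
    (∑ w', if val Q w w' < m then (1 : ℝ) else 0) = m * Q := by
  rw [sum_lt w m fun _ => 1]
  have h1 : ∀ k ∈ range m, (∑ w', if val Q w w' = k then (1 : ℝ) else 0) = Q := by
    intro k hk
    rw [mem_range] at hk
    rw [sum_val hQ w k (hk.trans_le hm) fun _ => 1]
    simp
  rw [sum_congr rfl h1]
  simp

theorem MG.gad {Q : ℕ} (hQ : 0 < Q) (h : MG μ d) (hμ : ∀ u v, μ u v ≤ Q) :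
    MG (gad Q μ) (d * Q) where
  symm u v := by
    unfold SSE.gad
    rw [h.symm, val_symm]
  diag u := by
    unfold SSE.gad
    rw [h.diag]
    simp
  reg u := by
    have h1 : ((∑ v, SSE.gad Q μ u v : ℕ) : ℝ) = ((d * Q : ℕ) : ℝ) := by
      push_cast
      rw [Fintype.sum_prod_type]
      have h2 : ∀ v : V, ∑ w, (SSE.gad Q μ u (v, w) : ℝ) = μ u.1 v * Q := by
        intro v
        rw [← sum_lt_one hQ u.2 (hμ u.1 v)]
        refine sum_congr rfl fun w _ => ?_
        unfold SSE.gad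
        split_ifs <;> simp
      simp only [h2]
      rw [← sum_mul]
      congr 1
      exact_mod_cast h.reg u.1
    exact_mod_cast h1

theorem form_gad (Q : ℕ) (f : V × (Fin Q × Fin Q) → ℝ) :
    form (gad Q μ) f = ∑ u, ∑ v, ∑ k ∈ range (μ u v),
      ∑ w, ∑ w', if val Q w w' = k then f (u, w) * f (v, w') else 0 := by
  unfold form
  simp only [sum_pair]
  refine sum_congr rfl fun u _ => ?_
  rw [sum_comm]
  refine sum_congr rfl fun v _ => ?_
  rw [sum_comm (s := range (μ u v))]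
  refine sum_congr rfl fun w _ => ?_
  rw [← sum_lt w (μ u v) fun w' => f (u, w) * f (v, w')]
  refine sum_congr rfl fun w' _ => ?_
  unfold gad
  split_ifs <;> simp

theorem HasSet.gad {Q s : ℕ} (hQ : 0 < Q) (h : HasSet μ d η s) (hμ : ∀ u v, μ u v ≤ Q) :
    HasSet (gad Q μ) (d * Q) η (s * (Q * Q)) := by
  obtain ⟨S, h1, h2⟩ := h
  refine ⟨S ×ˢ univ, by
    rw [card_product, h1, card_univ, Fintype.card_prod, Fintype.card_fin], ?_⟩
  have h3 : form (SSE.gad Q μ) (ind (S ×ˢ (univ : Finset (Fin Q × Fin Q)))) =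
      (Q : ℝ) ^ 3 * form μ (ind S) := by
    unfold form
    simp only [sum_pair]
    rw [mul_sum]
    refine sum_congr rfl fun u _ => ?_
    rw [sum_comm, mul_sum]
    refine sum_congr rfl fun v _ => ?_
    have h4 : ∀ w : Fin Q × Fin Q, ∑ w', (SSE.gad Q μ (u, w) (v, w') : ℝ) *
        (ind (S ×ˢ (univ : Finset (Fin Q × Fin Q))) (u, w) *
          ind (S ×ˢ (univ : Finset (Fin Q × Fin Q))) (v, w')) =
        (μ u v * Q) * (ind S u * ind S v) := by
      intro w
      simp only [ind_prod]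
      rw [← sum_mul]
      congr 1
      rw [← sum_lt_one hQ w (hμ u v)]
      refine sum_congr rfl fun w' _ => ?_
      unfold SSE.gad
      split_ifs <;> simp
    simp only [h4, sum_const, card_univ, Fintype.card_prod, Fintype.card_fin, nsmul_eq_mul]
    push_cast
    ring
  rw [h3]
  have h4 := mul_le_mul_of_nonneg_left h2 (by positivity : (0 : ℝ) ≤ (Q : ℝ) ^ 3)
  push_cast
  refine le_trans (le_of_eq ?_) h4
  ring

theorem FracNo.gad {Q : ℕ} (hQ : Q.Prime) (hm : MG μ d) (h : FracNo μ d η s)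
    (hμ : ∀ u v, μ u v ≤ Q) :
    FracNo (gad Q μ) (d * Q) (η + 1 / √Q) (s * (Q * Q)) := by
  intro f h0 h1 h2
  have hQ0 : (0 : ℝ) < Q := by exact_mod_cast hQ.pos
  have hsQ : 0 < √(Q : ℝ) := Real.sqrt_pos.2 hQ0
  have hsq : √(Q : ℝ) * √(Q : ℝ) = Q := Real.mul_self_sqrt hQ0.le
  obtain ⟨F, hF⟩ : ∃ F : V → ℝ, F = fun u => ∑ w, f (u, w) := ⟨_, rfl⟩
  have hF0 : ∀ u, 0 ≤ F u := by
    intro u
    rw [hF]
    exact sum_nonneg fun w _ => h0 _
  have hFs : ∑ u, F u ≤ s * (Q * Q) := by
    rw [hF, ← Fintype.sum_prod_type]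
    exact h2
  have hFsq : ∀ u, ∑ w, f (u, w) ^ 2 ≤ F u := by
    intro u
    rw [hF]
    refine sum_le_sum fun w _ => ?_
    have := h0 (u, w)
    have := h1 (u, w)
    nlinarith
  rw [form_gad]
  have hkey : ∀ u v, ∀ k ∈ range (μ u v),
      (∑ w, ∑ w', if val Q w w' = k then f (u, w) * f (v, w') else 0) ≤
        F u * F v / Q + √Q * ((F u + F v) / 2) := by
    intro u v k hk
    rw [mem_range] at hk
    refine (mixing hQ k (hk.trans_le (hμ u v)) (fun w => f (u, w)) (fun w => f (v, w))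
      (fun w => h0 _)).trans ?_
    have e1 : √(∑ w, f (u, w) ^ 2) ≤ √(F u) := Real.sqrt_le_sqrt (hFsq u)
    have e2 : √(∑ w, f (v, w) ^ 2) ≤ √(F v) := Real.sqrt_le_sqrt (hFsq v)
    have e3 : √(F u) * √(F v) ≤ (F u + F v) / 2 := by
      have := Real.mul_self_sqrt (hF0 u)
      have := Real.mul_self_sqrt (hF0 v)
      nlinarith [sq_nonneg (√(F u) - √(F v))]
    have e4 : √(∑ w, f (u, w) ^ 2) * √(∑ w, f (v, w) ^ 2) ≤ √(F u) * √(F v) :=
      mul_le_mul e1 e2 (Real.sqrt_nonneg _) (Real.sqrt_nonneg _)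
    have e5 : √(Q : ℝ) * √(∑ w, f (u, w) ^ 2) * √(∑ w, f (v, w) ^ 2) ≤
        √Q * ((F u + F v) / 2) := by
      rw [mul_assoc]
      exact mul_le_mul_of_nonneg_left (e4.trans e3) hsQ.le
    rw [hF] at e5 ⊢
    exact add_le_add le_rfl e5
  have h3 : ∑ u, ∑ v, ∑ k ∈ range (μ u v),
      (∑ w, ∑ w', if val Q w w' = k then f (u, w) * f (v, w') else 0) ≤
        ∑ u, ∑ v, (μ u v : ℝ) * (F u * F v / Q + √Q * ((F u + F v) / 2)) := by
    refine sum_le_sum fun u _ => sum_le_sum fun v _ => ?_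
    refine (sum_le_sum (hkey u v)).trans (le_of_eq ?_)
    rw [sum_const, card_range, nsmul_eq_mul]
  refine h3.trans ?_
  have h4 : ∑ u, ∑ v, (μ u v : ℝ) * (F u * F v / Q + √Q * ((F u + F v) / 2)) =
      form μ F / Q + √Q * (d * ∑ u, F u) := by
    have e1 : ∀ u v : V, (μ u v : ℝ) * (F u * F v / Q + √Q * ((F u + F v) / 2)) =
        (μ u v : ℝ) * (F u * F v) / Q + √Q / 2 * ((μ u v : ℝ) * F u) +
          √Q / 2 * ((μ u v : ℝ) * F v) := by
      intro u v
      ring
    simp only [e1, sum_add_distrib, ← mul_sum, ← sum_div]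
    have e2 : ∑ u, ∑ v, (μ u v : ℝ) * F u = d * ∑ u, F u := by
      rw [mul_sum]
      refine sum_congr rfl fun u _ => ?_
      rw [← sum_mul]
      congr 1
      exact_mod_cast hm.reg u
    have e3 : ∑ u, ∑ v, (μ u v : ℝ) * F v = d * ∑ u, F u := by
      rw [sum_comm, mul_sum]
      refine sum_congr rfl fun v _ => ?_
      rw [← sum_mul]
      congr 1
      have : ∑ u, μ u v = d := by
        rw [← hm.reg v]
        exact sum_congr rfl fun u _ => hm.symm _ _
      exact_mod_cast this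
    rw [e2, e3]
    unfold form
    ring
  rw [h4]
  have hQQ : (0 : ℝ) < (Q : ℝ) * Q := by positivity
  have h5 : form μ F = ((Q : ℝ) * Q) ^ 2 * form μ (fun u => F u / (Q * Q)) := by
    rw [← form_mul]
    congr 1
    funext u
    field_simp
  have h6 := h (fun u => F u / (Q * Q)) (fun u => div_nonneg (hF0 u) hQQ.le)
    (fun u => by
      rw [div_le_one hQQ, hF]
      refine (sum_le_sum fun w _ => h1 (u, w)).trans ?_
      simp)
    (by
      rw [← sum_div, div_le_iff₀ hQQ]
      exact hFs)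
  have h7 : form μ F / Q ≤ η * (d * s) * Q ^ 3 := by
    rw [h5, div_le_iff₀ hQ0]
    have := mul_le_mul_of_nonneg_left h6 (by positivity : (0 : ℝ) ≤ ((Q : ℝ) * Q) ^ 2)
    calc ((Q : ℝ) * Q) ^ 2 * form μ (fun u => F u / (Q * Q)) ≤
        ((Q : ℝ) * Q) ^ 2 * (η * (d * s)) := this
      _ = _ := by ring
  have h8 : √(Q : ℝ) * (d * ∑ u, F u) ≤ √Q * (d * (s * (Q * Q))) :=
    mul_le_mul_of_nonneg_left (mul_le_mul_of_nonneg_left hFs (Nat.cast_nonneg _)) hsQ.le
  have h9 : (η + 1 / √Q) * (((d * Q : ℕ) : ℝ) * (s * (Q * Q))) =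
      η * (d * s) * Q ^ 3 + √Q * (d * (s * (Q * Q))) := by
    have h10 : (1 / √(Q : ℝ)) * Q = √Q := by
      rw [div_mul_eq_mul_div, one_mul, div_eq_iff hsQ.ne', hsq]
    push_cast
    calc (η + 1 / √(Q : ℝ)) * ((d * Q : ℝ) * (s * (Q * Q))) =
        η * (d * s) * Q ^ 3 + ((1 / √(Q : ℝ)) * Q) * (d * (s * (Q * Q))) := by ring
      _ = _ := by rw [h10]
  rw [h9]
  exact add_le_add h7 h8

/-! ### One edge -/

/-- The graph with one edge. -/
def edge (u v : Fin 2) : ℕ := if u = v then 0 else 1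

theorem edge_mg : MG edge 1 where
  symm u v := by
    unfold edge
    simp only [eq_comm]
  diag u := by simp [edge]
  reg u := by
    fin_cases u <;> simp [edge]

theorem edge_frac (s : ℝ) (hs : 0 ≤ s) : FracNo edge 1 (s / 2) s := by
  intro f h0 h1 h2
  have h3 : form edge f = 2 * (f 0 * f 1) := by
    unfold form edge
    simp [Fin.sum_univ_two]
    ring
  rw [h3]
  rw [Fin.sum_univ_two] at h2
  have e0 := h0 0
  have e1 := h0 1
  push_cast
  nlinarith [sq_nonneg (f 0 - f 1)]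

end Pool.Agent.U16.SSE
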