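import Pool.Agent.U16.SSE.Raw

/-!
# The small-set expansion problem
-/

set_option autoImplicit false
set_option linter.unusedSectionVars false

namespace Pool.Agent.U16.SSE

open Finset Pool.Agent.NPC

variable {n n' m d : ℕ}

open Classical in
/-- The number of edges of `G` with exactly one endpoint in `S`. -/
noncomputable def cut {n : ℕ} (G : SimpleGraph (Fin n)) (S : Finset (Fin n)) : ℕ :=
  (univ.filter fun p : Fin n × Fin n => p.1 ∈ S ∧ p.2 ∉ S ∧ G.Adj p.1 p.2).card

open Classical in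
/-- The graph is `d`-regular, and `d` is positive. -/
def Regular {n : ℕ} (G : SimpleGraph (Fin n)) (d : ℕ) : Prop :=
  1 ≤ d ∧ ∀ u, (univ.filter fun v => G.Adj u v).card = d

open Classical in
/-- The number `n` of the vertices, the degree `d` and the adjacency matrix. -/
noncomputable def rawG {n : ℕ} (G : SimpleGraph (Fin n)) (d : ℕ) : ℕ × ℕ × List (List Bool) :=
  (n, d, List.ofFn fun u => List.ofFn fun v => decide (G.Adj u v))

/-- The bit string which describes the graph. -/
noncomputable def code {n : ℕ} (G : SimpleGraph (Fin n)) (d : ℕ) : List Bool := bits (rawG G d)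

/-- The yes instances of the small-set expansion problem: the codes of the regular graphs `G` for
which `δ n = s` is a positive integer and some set with `s` vertices has expansion at most `η`. -/
def Yes (η δ : ℚ) : Set (List Bool) :=
  {x | ∃ (n d s : ℕ) (G : SimpleGraph (Fin n)), Regular G d ∧ 1 ≤ s ∧ (s : ℚ) = δ * n ∧
    (∃ S : Finset (Fin n), S.card = s ∧ (cut G S : ℚ) / (d * s) ≤ η) ∧ x = code G d}

/-- The no instances: all sets with `s = δ n` vertices have expansion at least `1 - η`. -/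
def No (η δ : ℚ) : Set (List Bool) :=
  {x | ∃ (n d s : ℕ) (G : SimpleGraph (Fin n)), Regular G d ∧ 1 ≤ s ∧ (s : ℚ) = δ * n ∧
    (∀ S : Finset (Fin n), S.card = s → 1 - η ≤ (cut G S : ℚ) / (d * s)) ∧ x = code G d}

/-! ### Graphs and matrices -/

open Classical in
/-- The adjacency matrix. -/
noncomputable def adj (G : SimpleGraph (Fin n)) (u v : Fin n) : ℕ := if G.Adj u v then 1 else 0

theorem adj_le (G : SimpleGraph (Fin n)) (u v : Fin n) : adj G u v ≤ 1 := by
  unfold adj
  split_ifs <;> omega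

theorem adj_mg {G : SimpleGraph (Fin n)} (h : Regular G d) : MG (adj G) d where
  symm u v := by
    unfold adj
    by_cases huv : G.Adj u v
    · rw [if_pos huv, if_pos huv.symm]
    · rw [if_neg huv, if_neg fun hc => huv hc.symm]
  diag u := by simp [adj]
  reg u := by
    rw [← h.2 u, card_filter]
    rfl

theorem cut_eq {G : SimpleGraph (Fin n)} (h : Regular G d) (S : Finset (Fin n)) :
    (cut G S : ℝ) = d * S.card - form (adj G) (ind S) := by
  classical
  rw [form_ind]
  have h1 : cut G S = ∑ u ∈ S, ∑ v ∈ Sᶜ, adj G u v := by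
    unfold cut
    rw [card_filter, Fintype.sum_prod_type, ← sum_filter_add_sum_filter_not univ (fun u => u ∈ S)]
    have e1 : ∑ u ∈ univ.filter (fun u => ¬ u ∈ S), ∑ v : Fin n,
        (if u ∈ S ∧ v ∉ S ∧ G.Adj u v then 1 else 0) = 0 := by
      refine sum_eq_zero fun u hu => sum_eq_zero fun v _ => ?_
      rw [mem_filter] at hu
      rw [if_neg (fun hc => hu.2 hc.1)]
    rw [e1, add_zero, filter_mem_eq_inter, univ_inter]
    refine sum_congr rfl fun u hu => ?_
    rw [← sum_filter_add_sum_filter_not univ (fun v => v ∈ S)]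
    have e2 : ∑ v ∈ univ.filter (fun v => v ∈ S),
        (if u ∈ S ∧ v ∉ S ∧ G.Adj u v then 1 else 0) = 0 := by
      refine sum_eq_zero fun v hv => ?_
      rw [mem_filter] at hv
      rw [if_neg (fun hc => hc.2.1 hv.2)]
    rw [e2, zero_add]
    have e3 : univ.filter (fun v => ¬ v ∈ S) = Sᶜ := by
      ext v
      simp
    rw [e3]
    refine sum_congr rfl fun v hv => ?_
    rw [mem_compl] at hv
    unfold adj
    simp only [hu, hv, true_and, not_false_eq_true]
  have h2 : ∀ u, ∑ v ∈ S, (adj G u v : ℝ) + ∑ v ∈ Sᶜ, (adj G u v : ℝ) = d := by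
    intro u
    rw [sum_add_sum_compl]
    exact_mod_cast (adj_mg h).reg u
  rw [h1]
  push_cast
  have h3 : ∑ u ∈ S, ∑ v ∈ S, (adj G u v : ℝ) + ∑ u ∈ S, ∑ v ∈ Sᶜ, (adj G u v : ℝ) =
      d * S.card := by
    rw [← sum_add_distrib]
    simp only [h2, sum_const, nsmul_eq_mul]
    ring
  linarith

/-- The graph with a given matrix. -/
def ofM (μ : Fin n → Fin n → ℕ) (h : MG μ d) : SimpleGraph (Fin n) where
  Adj u v := μ u v = 1
  symm := ⟨fun u v huv => by rw [h.symm v u, huv]⟩
  loopless := ⟨fun u hu => by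
    rw [h.diag u] at hu
    omega⟩

theorem adj_ofM {μ : Fin n → Fin n → ℕ} (h : MG μ d) (h1 : ∀ u v, μ u v ≤ 1) :
    adj (ofM μ h) = μ := by
  funext u v
  unfold adj
  have h2 := h1 u v
  by_cases h3 : μ u v = 1
  · rw [if_pos (show (ofM μ h).Adj u v from h3), h3]
  · rw [if_neg (show ¬ (ofM μ h).Adj u v from h3)]
    omega

theorem regular_ofM {μ : Fin n → Fin n → ℕ} (h : MG μ d) (h1 : ∀ u v, μ u v ≤ 1) (hd : 1 ≤ d) :
    Regular (ofM μ h) d := by
  classical
  refine ⟨hd, fun u => ?_⟩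
  refine Eq.trans ?_ (h.reg u)
  rw [card_filter]
  refine sum_congr rfl fun v _ => ?_
  have h2 := h1 u v
  by_cases h3 : μ u v = 1
  · rw [if_pos (show (ofM μ h).Adj u v from h3), h3]
  · rw [if_neg (show ¬ (ofM μ h).Adj u v from h3)]
    omega

theorem rawG_ofM {μ : Fin n → Fin n → ℕ} (h : MG μ d) :
    rawG (ofM μ h) d = (n, d, List.ofFn fun u => List.ofFn fun v => decide (μ u v = 1)) := by
  unfold rawG
  refine Prod.ext rfl (Prod.ext rfl ?_)
  simp only
  congr 1
  funext u
  congr 1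
  funext v
  exact decide_eq_decide.2 Iff.rfl

/-! ### The final step -/

/-- The graph of the gadget. -/
def outR (Q D : ℕ) (l : List (List ℕ)) : ℕ × ℕ × List (List Bool) :=
  (l.length * (Q * Q), D * Q, gadR Q l)

theorem poly_outR {α : Type} [TEnc α] {Q D : α → ℕ} {l : α → List (List ℕ)} (hQ : UPoly Q)
    (hD : NPC.Poly D) (hl : NPC.Poly l) : NPC.Poly fun a => outR (Q a) (D a) (l a) := by
  unfold outR
  have hQ' := hQ.toPoly
  exact NPC.Poly.pair (NPC.Poly.mul (NPC.Poly.length hl) (NPC.Poly.mul hQ' hQ'))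
    (NPC.Poly.pair (NPC.Poly.mul hD hQ') (poly_gadR hQ hl))

section out

variable {Q : ℕ} {μ : Fin n → Fin n → ℕ}

theorem gadF_mg (hQ : 0 < Q) (h : MG μ d) (hμ : ∀ u v, μ u v ≤ Q) : MG (gadF Q μ) (d * Q) :=
  (h.gad hQ hμ).equiv (gadE n Q)

theorem gadF_le (u v : Fin (n * (Q * Q))) : gadF Q μ u v ≤ 1 := gad_le_one Q _ _

theorem code_out (hQ : 0 < Q) (h : MG μ d) (hμ : ∀ u v, μ u v ≤ Q) :
    bits (outR Q d (toL μ)) = code (ofM (gadF Q μ) (gadF_mg hQ h hμ)) (d * Q) := by
  unfold code outR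
  rw [rawG_ofM, gadR_toL, length_toL]

theorem out_yes {η δ : ℚ} {s : ℕ} (hQ : 0 < Q) (h : MG μ d) (hd : 1 ≤ d) (hμ : ∀ u v, μ u v ≤ Q)
    (hs : 1 ≤ s) (hsn : (s : ℚ) = δ * n) (hS : HasSet μ d η s) :
    bits (outR Q d (toL μ)) ∈ Yes η δ := by
  have hreg : Regular (ofM (gadF Q μ) (gadF_mg hQ h hμ)) (d * Q) :=
    regular_ofM _ gadF_le (Nat.mul_pos hd hQ)
  refine ⟨n * (Q * Q), d * Q, s * (Q * Q), ofM (gadF Q μ) (gadF_mg hQ h hμ), hreg,
    Nat.mul_pos hs (Nat.mul_pos hQ hQ), ?_, ?_, code_out hQ h hμ⟩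
  · push_cast
    rw [hsn]
    ring
  · obtain ⟨S, hS1, hS2⟩ := (hS.gad hQ hμ).equiv (gadE n Q)
    refine ⟨S, hS1, ?_⟩
    have h1 := cut_eq hreg S
    rw [adj_ofM _ gadF_le, hS1] at h1
    have h2 : (cut (ofM (gadF Q μ) (gadF_mg hQ h hμ)) S : ℝ) ≤
        (η : ℝ) * (((d * Q : ℕ) : ℝ) * ((s * (Q * Q) : ℕ) : ℝ)) := by
      rw [h1]
      unfold gadF
      linarith
    have h3 : (cut (ofM (gadF Q μ) (gadF_mg hQ h hμ)) S : ℚ) ≤
        η * (((d * Q : ℕ) : ℚ) * ((s * (Q * Q) : ℕ) : ℚ)) := by exact_mod_cast h2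
    rw [div_le_iff₀]
    · exact h3
    · have : 0 < d * Q * (s * (Q * Q)) :=
        Nat.mul_pos (Nat.mul_pos hd hQ) (Nat.mul_pos hs (Nat.mul_pos hQ hQ))
      exact_mod_cast this

theorem out_no {η δ : ℚ} {η' : ℝ} {s : ℕ} (hQ : Q.Prime) (h : MG μ d) (hd : 1 ≤ d)
    (hμ : ∀ u v, μ u v ≤ Q) (hs : 1 ≤ s) (hsn : (s : ℚ) = δ * n) (hη : η' + 1 / √Q ≤ η)
    (hS : FracNo μ d η' s) : bits (outR Q d (toL μ)) ∈ No η δ := by
  have hQ0 := hQ.pos
  have hreg : Regular (ofM (gadF Q μ) (gadF_mg hQ0 h hμ)) (d * Q) :=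
    regular_ofM _ gadF_le (Nat.mul_pos hd hQ0)
  refine ⟨n * (Q * Q), d * Q, s * (Q * Q), ofM (gadF Q μ) (gadF_mg hQ0 h hμ), hreg,
    Nat.mul_pos hs (Nat.mul_pos hQ0 hQ0), ?_, ?_, code_out hQ0 h hμ⟩
  · push_cast
    rw [hsn]
    ring
  · intro S hS1
    have h0 := ((hS.gad hQ h hμ).equiv (gadE n Q)) (ind S) (ind_nonneg S) (ind_le_one S) (by
      rw [sum_ind, hS1]
      push_cast
      exact le_rfl)
    have h1 := cut_eq hreg S
    rw [adj_ofM _ gadF_le, hS1] at h1
    have h4 : (0 : ℝ) ≤ ((d * Q : ℕ) : ℝ) * ((s : ℝ) * (Q * Q)) := by positivity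
    have h5 := mul_le_mul_of_nonneg_right hη h4
    have h2 : (1 - (η : ℝ)) * (((d * Q : ℕ) : ℝ) * ((s * (Q * Q) : ℕ) : ℝ)) ≤
        (cut (ofM (gadF Q μ) (gadF_mg hQ0 h hμ)) S : ℝ) := by
      rw [h1]
      unfold gadF
      push_cast at h0 h5 ⊢
      linarith
    have h3 : (1 - η) * (((d * Q : ℕ) : ℚ) * ((s * (Q * Q) : ℕ) : ℚ)) ≤
        (cut (ofM (gadF Q μ) (gadF_mg hQ0 h hμ)) S : ℚ) := by exact_mod_cast h2
    rw [le_div_iff₀]
    · exact h3
    · have : 0 < d * Q * (s * (Q * Q)) :=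
        Nat.mul_pos (Nat.mul_pos hd hQ0) (Nat.mul_pos hs (Nat.mul_pos hQ0 hQ0))
      exact_mod_cast this

end out

/-! ### Reading the input -/

/-- The matrix of a Boolean matrix. -/
def natL (l : List (List Bool)) : List (List ℕ) := l.map fun r => r.map fun b => if b then 1 else 0

/-- The entries of a Boolean matrix. -/
def entB (l : List (List Bool)) (u v : ℕ) : Bool := (l.getD u []).getD v false

/-- The test whether the data is the data of a regular graph for which `a n / b` is an integer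
greater than one. -/
def check (a b : ℕ) (r : ℕ × ℕ × List (List Bool)) : Bool :=
  decide (r.2.2.length = r.1) && ((r.2.2.all fun row => decide (row.length = r.1)) &&
    ((r.2.2.all fun row => decide ((row.map fun b => if b = true then 1 else 0).sum = r.2.1)) &&
    (((List.range r.2.2.length).all fun u => !(entB r.2.2 u u) &&
      (List.range r.2.2.length).all fun v => decide (entB r.2.2 u v = entB r.2.2 v u)) &&
    (decide (1 ≤ r.2.1) && (decide (a * r.1 % b = 0) && decide (2 * b ≤ a * r.1))))))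

theorem poly_natL : NPC.Poly natL := by
  unfold natL
  fun_prop

theorem poly_entB {α : Type} [TEnc α] {l : α → List (List Bool)} {u v : α → ℕ} (hl : NPC.Poly l)
    (hu : NPC.Poly u) (hv : NPC.Poly v) : NPC.Poly fun a => entB (l a) (u a) (v a) := by
  unfold entB
  exact NPC.Poly.getD (NPC.Poly.getD hl hu (NPC.Poly.const [])) hv (NPC.Poly.const false)

theorem poly_check (a b : ℕ) : NPC.Poly (check a b) := by
  unfold check
  have h1 : NPC.Poly fun r : ℕ × ℕ × List (List Bool) => List.range r.2.2.length :=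
    NPC.Poly.range_length (NPC.Poly.snd (NPC.Poly.snd NPC.Poly.id))
  have h2 : NPC.Poly fun r : ℕ × ℕ × List (List Bool) =>
      (List.range r.2.2.length).all fun u => !(entB r.2.2 u u) &&
      (List.range r.2.2.length).all fun v => decide (entB r.2.2 u v = entB r.2.2 v u) := by
    refine NPC.Poly.all (p := fun (r : ℕ × ℕ × List (List Bool)) u => !(entB r.2.2 u u) &&
      (List.range r.2.2.length).all fun v => decide (entB r.2.2 u v = entB r.2.2 v u)) h1 ?_
    refine NPC.Poly.and (NPC.Poly.not (poly_entB (by fun_prop) (by fun_prop) (by fun_prop))) ?_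
    refine NPC.Poly.all (p := fun (q : (ℕ × ℕ × List (List Bool)) × ℕ) v =>
      decide (entB q.1.2.2 q.2 v = entB q.1.2.2 v q.2)) (h1.comp (NPC.Poly.fst NPC.Poly.id)) ?_
    exact NPC.Poly.dec_eq (poly_entB (by fun_prop) (by fun_prop) (by fun_prop))
      (poly_entB (by fun_prop) (by fun_prop) (by fun_prop))
  fun_prop

theorem natL_rawG (G : SimpleGraph (Fin n)) (d : ℕ) : natL (rawG G d).2.2 = toL (adj G) := by
  classical
  unfold natL rawG toL
  simp only [List.map_ofFn]
  congr 1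
  funext u
  simp only [Function.comp_apply, List.map_ofFn]
  congr 1
  funext v
  simp only [Function.comp_apply, decide_eq_true_eq]
  unfold adj
  congr

theorem check_rawG {G : SimpleGraph (Fin n)} (h : Regular G d) {a b : ℕ} (h1 : a * n % b = 0)
    (h2 : 2 * b ≤ a * n) : check a b (rawG G d) = true := by
  classical
  have hent : ∀ u v : Fin n, entB (rawG G d).2.2 u v = decide (G.Adj u v) := by
    intro u v
    unfold entB rawG
    simp
  unfold check
  simp only [Bool.and_eq_true, decide_eq_true_eq, List.all_eq_true, List.mem_range,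
    Bool.not_eq_true']
  refine ⟨by simp [rawG], ?_, ?_, ?_, h.1, h1, h2⟩
  · intro row hrow
    unfold rawG at hrow ⊢
    rw [List.mem_ofFn] at hrow
    obtain ⟨u, rfl⟩ := hrow
    simp
  · intro row hrow
    unfold rawG at hrow ⊢
    rw [List.mem_ofFn] at hrow
    obtain ⟨u, rfl⟩ := hrow
    simp only [List.map_ofFn, List.sum_ofFn, Function.comp_apply, decide_eq_true_eq]
    rw [← h.2 u, card_filter]
  · have hlen : (rawG G d).2.2.length = n := by simp [rawG]
    intro u hu
    rw [hlen] at hu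
    refine ⟨?_, fun v hv => ?_⟩
    · have := hent ⟨u, hu⟩ ⟨u, hu⟩
      simpa using this
    · rw [hlen] at hv
      have e1 := hent ⟨u, hu⟩ ⟨v, hv⟩
      have e2 := hent ⟨v, hv⟩ ⟨u, hu⟩
      simp only at e1 e2
      rw [e1, e2]
      exact decide_eq_decide.2 (G.adj_comm _ _)

theorem check_spec {a b : ℕ} {r : ℕ × ℕ × List (List Bool)} (h : check a b r = true) :
    ∃ (n d : ℕ) (G : SimpleGraph (Fin n)), Regular G d ∧ a * n % b = 0 ∧ 2 * b ≤ a * n ∧
      r = rawG G d := by
  classical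
  obtain ⟨n, d, l⟩ := r
  unfold check at h
  simp only [Bool.and_eq_true, decide_eq_true_eq, List.all_eq_true, List.mem_range,
    Bool.not_eq_true'] at h
  obtain ⟨h1, h2, h3, h4, h5, h6, h7⟩ := h
  have hl : l = List.ofFn fun u : Fin n => List.ofFn fun v : Fin n => entB l u v := by
    refine List.ext_getElem (by simp [h1]) fun i hi hi' => ?_
    rw [List.getElem_ofFn]
    have h8 : l[i].length = n := h2 _ (List.getElem_mem hi)
    refine List.ext_getElem (by simp [h8]) fun j hj hj' => ?_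
    rw [List.getElem_ofFn]
    unfold entB
    simp [hi, hj]
  refine ⟨n, d, ⟨fun u v => entB l u v = true, ⟨fun u v huv => ?_⟩, ⟨fun u hu => ?_⟩⟩, ⟨h5, ?_⟩,
    h6, h7, ?_⟩
  · have := (h4 u (by rw [h1]; exact u.2)).2 v (by rw [h1]; exact v.2)
    rw [← this]
    exact huv
  · have := (h4 u (by rw [h1]; exact u.2)).1
    rw [this] at hu
    exact Bool.false_ne_true hu
  · intro u
    have h8 : (List.ofFn fun v : Fin n => entB l u v) ∈ l := by
      rw [hl]
      rw [List.mem_ofFn]
      refine ⟨u, ?_⟩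
      rw [← hl]
    have h9 := h3 _ h8
    simp only [List.map_ofFn, List.sum_ofFn, Function.comp_apply] at h9
    refine Eq.trans ?_ h9
    rw [card_filter]
    exact sum_congr rfl fun v _ => by congr
  · unfold rawG
    refine Prod.ext rfl (Prod.ext rfl ?_)
    simp only
    refine hl.trans ?_
    congr 1
    funext u
    congr 1
    funext v
    simp

end Pool.Agent.U16.SSE
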