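import Pool.Agent.U16.SSE.Ops
import Pool.Agent.U16.UGT.Sat

/-!
# Operations on lists
-/

set_option autoImplicit false
set_option linter.unusedSectionVars false

namespace Pool.Agent.U16.SSE

open Finset Pool.Agent.NPC

variable {n n' m d : ℕ} {α : Type} [TEnc α]

/-- The list of the rows of a matrix. -/
def toL (μ : Fin n → Fin n → ℕ) : List (List ℕ) := List.ofFn fun u => List.ofFn fun v => μ u v

/-- The entries of a list of rows. -/
def ent (l : List (List ℕ)) (u v : ℕ) : ℕ := (l.getD u []).getD v 0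

/-- The list of the rows of the matrix with `N` rows and the entries `e u v`. -/
def build (N : ℕ) (e : ℕ → ℕ → ℕ) : List (List ℕ) :=
  (List.range N).map fun u => (List.range N).map fun v => e u v

theorem length_toL (μ : Fin n → Fin n → ℕ) : (toL μ).length = n := by simp [toL]

theorem ent_toL (μ : Fin n → Fin n → ℕ) (u v : Fin n) : ent (toL μ) u v = μ u v := by
  unfold ent toL
  simp

theorem build_eq (N : ℕ) (e : ℕ → ℕ → ℕ) : build N e = toL fun u v : Fin N => e u v := by
  unfold build toL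
  refine List.ext_getElem (by simp) fun i hi hi' => ?_
  simp only [List.getElem_map, List.getElem_range, List.getElem_ofFn]
  refine List.ext_getElem (by simp) fun j hj hj' => ?_
  simp only [List.getElem_map, List.getElem_range, List.getElem_ofFn]

theorem poly_build {N : α → ℕ} {e : α → ℕ → ℕ → ℕ} (hN : UPoly N)
    (he : Poly fun p : α × ℕ × ℕ => e p.1 p.2.1 p.2.2) : Poly fun a => build (N a) (e a) := by
  unfold build
  refine NPC.Poly.map (F := fun a u => (List.range (N a)).map fun v => e a u v) hN.range ?_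
  refine NPC.Poly.map (F := fun (p : α × ℕ) v => e p.1 p.2 v)
    ((hN.comp (NPC.Poly.fst NPC.Poly.id)).range) ?_
  exact he.comp (f := fun q : (α × ℕ) × ℕ => (q.1.1, q.1.2, q.2)) (by fun_prop)

theorem poly_ent {l : α → List (List ℕ)} {u v : α → ℕ} (hl : Poly l) (hu : Poly u) (hv : Poly v) :
    Poly fun a => ent (l a) (u a) (v a) := by
  unfold ent
  exact NPC.Poly.getD (NPC.Poly.getD hl hu (NPC.Poly.const [])) hv (NPC.Poly.const 0)

/-! ### Multiples -/

/-- All edges with multiplicity `j`. -/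
def scaleR (j : ℕ) (l : List (List ℕ)) : List (List ℕ) :=
  build l.length fun u v => j * ent l u v

theorem scaleR_toL (j : ℕ) (μ : Fin n → Fin n → ℕ) : scaleR j (toL μ) = toL (scale j μ) := by
  unfold scaleR
  rw [build_eq, length_toL]
  simp only [ent_toL]
  rfl

theorem poly_scaleR {j : α → ℕ} {l : α → List (List ℕ)} (hj : Poly j) (hl : Poly l) :
    Poly fun a => scaleR (j a) (l a) := by
  unfold scaleR
  refine poly_build (e := fun a u v => j a * ent (l a) u v) (UPoly.length hl) ?_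
  exact NPC.Poly.mul (hj.comp (NPC.Poly.fst NPC.Poly.id)) (poly_ent (hl.comp (NPC.Poly.fst NPC.Poly.id))
    (NPC.Poly.fst (NPC.Poly.snd NPC.Poly.id)) (NPC.Poly.snd (NPC.Poly.snd NPC.Poly.id)))

/-! ### Blow-ups -/

/-- Every vertex is replaced by `t` copies. -/
def blowR (t : ℕ) (l : List (List ℕ)) : List (List ℕ) :=
  build (l.length * t) fun u v => ent l (u / t) (v / t)

/-- The blow-up with vertices `0, …, n t - 1`. -/
def blowF (t : ℕ) (μ : Fin n → Fin n → ℕ) (u v : Fin (n * t)) : ℕ :=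
  blow t μ (finProdFinEquiv.symm u) (finProdFinEquiv.symm v)

theorem blowR_toL (t : ℕ) (μ : Fin n → Fin n → ℕ) : blowR t (toL μ) = toL (blowF t μ) := by
  unfold blowR
  rw [build_eq, length_toL]
  congr 1
  funext u v
  unfold blowF blow
  have h : ∀ u : Fin (n * t), (u : ℕ) / t = ((finProdFinEquiv.symm u).1 : Fin n) := fun u => rfl
  rw [h u, h v, ent_toL]

theorem poly_blowR {t : α → ℕ} {l : α → List (List ℕ)} (ht : UPoly t) (hl : Poly l) :
    Poly fun a => blowR (t a) (l a) := by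
  unfold blowR
  refine poly_build (e := fun a u v => ent (l a) (u / t a) (v / t a))
    (UPoly.mul (UPoly.length hl) ht) ?_
  exact poly_ent (hl.comp (NPC.Poly.fst NPC.Poly.id))
    (NPC.Poly.div (NPC.Poly.fst (NPC.Poly.snd NPC.Poly.id)) (ht.toPoly.comp (NPC.Poly.fst NPC.Poly.id)))
    (NPC.Poly.div (NPC.Poly.snd (NPC.Poly.snd NPC.Poly.id)) (ht.toPoly.comp (NPC.Poly.fst NPC.Poly.id)))

/-! ### Unions -/

/-- The disjoint union. -/
def unionR (l l' : List (List ℕ)) : List (List ℕ) :=
  build (l.length + l'.length) fun u v =>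
    if u < l.length then (if v < l.length then ent l u v else 0)
    else if v < l.length then 0 else ent l' (u - l.length) (v - l.length)

/-- The disjoint union with vertices `0, …, n + n' - 1`. -/
def unionF (μ : Fin n → Fin n → ℕ) (μ' : Fin n' → Fin n' → ℕ) (u v : Fin (n + n')) : ℕ :=
  union μ μ' (finSumFinEquiv.symm u) (finSumFinEquiv.symm v)

theorem unionR_toL (μ : Fin n → Fin n → ℕ) (μ' : Fin n' → Fin n' → ℕ) :
    unionR (toL μ) (toL μ') = toL (unionF μ μ') := by
  unfold unionR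
  rw [build_eq, length_toL, length_toL]
  congr 1
  funext u v
  unfold unionF
  refine Fin.addCases (fun i => ?_) (fun i => ?_) u <;>
  refine Fin.addCases (fun j => ?_) (fun j => ?_) v
  · rw [finSumFinEquiv_symm_apply_castAdd, finSumFinEquiv_symm_apply_castAdd]
    rw [Fin.val_castAdd, Fin.val_castAdd, if_pos i.2, if_pos j.2, ent_toL]
    rfl
  · rw [finSumFinEquiv_symm_apply_castAdd, finSumFinEquiv_symm_apply_natAdd]
    rw [Fin.val_castAdd, Fin.val_natAdd, if_pos i.2, if_neg (by omega)]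
    rfl
  · rw [finSumFinEquiv_symm_apply_castAdd, finSumFinEquiv_symm_apply_natAdd]
    rw [Fin.val_castAdd, Fin.val_natAdd, if_neg (by omega), if_pos j.2]
    rfl
  · rw [finSumFinEquiv_symm_apply_natAdd, finSumFinEquiv_symm_apply_natAdd]
    rw [Fin.val_natAdd, Fin.val_natAdd, if_neg (by omega), if_neg (by omega),
      Nat.add_sub_cancel_left, Nat.add_sub_cancel_left, ent_toL]
    rfl

theorem poly_unionR {l l' : α → List (List ℕ)} (hl : Poly l) (hl' : Poly l') :
    Poly fun a => unionR (l a) (l' a) := by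
  unfold unionR
  refine poly_build (e := fun a u v =>
    if u < (l a).length then (if v < (l a).length then ent (l a) u v else 0)
    else if v < (l a).length then 0 else ent (l' a) (u - (l a).length) (v - (l a).length))
    (UPoly.add (UPoly.length hl) (UPoly.length hl')) ?_
  have hu : Poly fun p : α × ℕ × ℕ => p.2.1 := NPC.Poly.fst (NPC.Poly.snd NPC.Poly.id)
  have hv : Poly fun p : α × ℕ × ℕ => p.2.2 := NPC.Poly.snd (NPC.Poly.snd NPC.Poly.id)
  have h1 : Poly fun p : α × ℕ × ℕ => l p.1 := hl.comp (NPC.Poly.fst NPC.Poly.id)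
  have h2 : Poly fun p : α × ℕ × ℕ => l' p.1 := hl'.comp (NPC.Poly.fst NPC.Poly.id)
  have h3 := NPC.Poly.length h1
  refine NPC.Poly.ite (NPC.Poly.decide_lt hu h3) (NPC.Poly.ite (NPC.Poly.decide_lt hv h3) (poly_ent h1 hu hv)
    (NPC.Poly.const 0)) (NPC.Poly.ite (NPC.Poly.decide_lt hv h3) (NPC.Poly.const 0)
      (poly_ent h2 (NPC.Poly.sub hu h3) (NPC.Poly.sub hv h3)))

/-! ### The gadget -/

/-- The value of the relation at two indices. -/
def valN (Q u v : ℕ) : ℕ :=
  ((u % (Q * Q)) % Q + (v % (Q * Q)) % Q + ((u % (Q * Q)) / Q) * ((v % (Q * Q)) / Q)) % Q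

/-- The rows of the adjacency matrix of the gadget. -/
def gadR (Q : ℕ) (l : List (List ℕ)) : List (List Bool) :=
  (List.range (l.length * (Q * Q))).map fun u => (List.range (l.length * (Q * Q))).map fun v =>
    decide (valN Q u v < ent l (u / (Q * Q)) (v / (Q * Q)))

/-- The numbering of the vertices of the gadget. -/
def gadE (n Q : ℕ) : Fin (n * (Q * Q)) ≃ Fin n × (Fin Q × Fin Q) :=
  finProdFinEquiv.symm.trans ((Equiv.refl (Fin n)).prodCongr finProdFinEquiv.symm)

/-- The gadget with vertices `0, …, n Q ^ 2 - 1`. -/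
def gadF (Q : ℕ) (μ : Fin n → Fin n → ℕ) (u v : Fin (n * (Q * Q))) : ℕ :=
  gad Q μ (gadE n Q u) (gadE n Q v)

theorem gadR_entry (Q : ℕ) (μ : Fin n → Fin n → ℕ) (u v : Fin (n * (Q * Q))) :
    valN Q u v < ent (toL μ) (u / (Q * Q)) (v / (Q * Q)) ↔ gadF Q μ u v = 1 := by
  have h : ∀ u : Fin (n * (Q * Q)), (u : ℕ) / (Q * Q) = ((gadE n Q u).1 : Fin n) := fun u => rfl
  have h1 : ∀ u : Fin (n * (Q * Q)), ((u : ℕ) % (Q * Q)) / Q = ((gadE n Q u).2.1 : Fin Q) :=
    fun u => rfl
  have h2 : ∀ u : Fin (n * (Q * Q)), ((u : ℕ) % (Q * Q)) % Q = ((gadE n Q u).2.2 : Fin Q) :=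
    fun u => rfl
  unfold gadF gad valN val
  rw [h u, h v, h1 u, h1 v, h2 u, h2 v, ent_toL]
  split_ifs with h3
  · simp [h3]
  · simp [h3]

theorem gadR_toL (Q : ℕ) (μ : Fin n → Fin n → ℕ) : gadR Q (toL μ) =
    List.ofFn fun u => List.ofFn fun v => decide (gadF Q μ u v = 1) := by
  unfold gadR
  rw [length_toL]
  refine List.ext_getElem (by simp) fun i hi hi' => ?_
  simp only [List.getElem_map, List.getElem_range, List.getElem_ofFn]
  refine List.ext_getElem (by simp) fun j hj hj' => ?_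
  simp only [List.getElem_map, List.getElem_range, List.getElem_ofFn]
  simp only [List.length_map, List.length_range] at hi hj
  exact decide_eq_decide.2 (gadR_entry Q μ ⟨i, hi⟩ ⟨j, hj⟩)

theorem poly_gadR {Q : α → ℕ} {l : α → List (List ℕ)} (hQ : UPoly Q) (hl : Poly l) :
    Poly fun a => gadR (Q a) (l a) := by
  unfold gadR
  have hN : UPoly fun a => (l a).length * (Q a * Q a) :=
    UPoly.mul (UPoly.length hl) (UPoly.mul hQ hQ)
  have hQ' := hQ.toPoly
  refine NPC.Poly.map (F := fun a u => (List.range ((l a).length * (Q a * Q a))).map fun v =>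
    decide (valN (Q a) u v < ent (l a) (u / (Q a * Q a)) (v / (Q a * Q a)))) hN.range ?_
  refine NPC.Poly.map (F := fun (p : α × ℕ) v =>
    decide (valN (Q p.1) p.2 v < ent (l p.1) (p.2 / (Q p.1 * Q p.1)) (v / (Q p.1 * Q p.1))))
    ((hN.comp (NPC.Poly.fst NPC.Poly.id)).range) ?_
  have h1 : Poly fun q : (α × ℕ) × ℕ => Q q.1.1 := hQ'.comp (NPC.Poly.fst (NPC.Poly.fst NPC.Poly.id))
  have h2 : Poly fun q : (α × ℕ) × ℕ => l q.1.1 := hl.comp (NPC.Poly.fst (NPC.Poly.fst NPC.Poly.id))
  have hu : Poly fun q : (α × ℕ) × ℕ => q.1.2 := NPC.Poly.snd (NPC.Poly.fst NPC.Poly.id)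
  have hv : Poly fun q : (α × ℕ) × ℕ => q.2 := NPC.Poly.snd NPC.Poly.id
  have h3 := NPC.Poly.mul h1 h1
  refine NPC.Poly.decide_lt ?_ (poly_ent h2 (NPC.Poly.div hu h3) (NPC.Poly.div hv h3))
  unfold valN
  exact NPC.Poly.mod (NPC.Poly.add (NPC.Poly.add (NPC.Poly.mod (NPC.Poly.mod hu h3) h1) (NPC.Poly.mod (NPC.Poly.mod hv h3) h1))
    (NPC.Poly.mul (NPC.Poly.div (NPC.Poly.mod hu h3) h1) (NPC.Poly.div (NPC.Poly.mod hv h3) h1))) h1

/-! ### A prime number -/

/-- The least prime number between `m` and `2 m`. -/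
def nextPrime (m : ℕ) : ℕ :=
  (((List.range (2 * m + 1)).filter fun q => decide (m ≤ q) &&
    (List.range (2 * m + 1)).all fun a => decide (a < 2) || (decide (q ≤ a) || decide (q % a ≠ 0))
      ).head?).getD 2

theorem prime_iff_all {m q : ℕ} (hq : q ≤ 2 * m) (h2 : 2 ≤ q) :
    ((List.range (2 * m + 1)).all fun a => decide (a < 2) || (decide (q ≤ a) ||
      decide (q % a ≠ 0))) = true ↔ q.Prime := by
  simp only [List.all_eq_true, List.mem_range, Bool.or_eq_true, decide_eq_true_eq]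
  constructor
  · intro h
    rw [Nat.prime_def]
    refine ⟨h2, fun a ha => ?_⟩
    have hle := Nat.le_of_dvd (by omega) ha
    rcases h a (by omega) with h3 | h3 | h3
    · left
      have : a ≠ 0 := by
        rintro rfl
        rw [Nat.zero_dvd] at ha
        omega
      omega
    · right
      omega
    · exact absurd (Nat.mod_eq_zero_of_dvd ha) h3
  · intro h a _
    by_cases h3 : a < 2
    · exact Or.inl h3
    · by_cases h4 : q ≤ a
      · exact Or.inr (Or.inl h4)
      · refine Or.inr (Or.inr fun h5 => ?_)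
        rcases (Nat.dvd_prime h).1 (Nat.dvd_of_mod_eq_zero h5) with h6 | h6 <;> omega

theorem nextPrime_spec {m : ℕ} (hm : 2 ≤ m) :
    (nextPrime m).Prime ∧ m ≤ nextPrime m ∧ nextPrime m ≤ 2 * m := by
  unfold nextPrime
  obtain ⟨l, hl⟩ : ∃ l : List ℕ, l = (List.range (2 * m + 1)).filter fun q => decide (m ≤ q) &&
    (List.range (2 * m + 1)).all fun a => decide (a < 2) || (decide (q ≤ a) ||
      decide (q % a ≠ 0)) := ⟨_, rfl⟩
  rw [← hl]
  have hmem : ∀ q, q ∈ l ↔ q ≤ 2 * m ∧ m ≤ q ∧ q.Prime := by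
    intro q
    rw [hl, List.mem_filter, List.mem_range, Bool.and_eq_true, decide_eq_true_eq]
    constructor
    · rintro ⟨h1, h2, h3⟩
      exact ⟨by omega, h2, (prime_iff_all (by omega) (by omega)).1 h3⟩
    · rintro ⟨h1, h2, h3⟩
      exact ⟨by omega, h2, (prime_iff_all (by omega) (by omega)).2 h3⟩
  obtain ⟨p, hp1, hp2, hp3⟩ := Nat.exists_prime_lt_and_le_two_mul m (by omega)
  have hne : p ∈ l := (hmem p).2 ⟨hp3, hp2.le, hp1⟩
  cases l with
  | nil => simp at hne
  | cons q l =>
    have h1 := (hmem q).1 (by simp)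
    simp only [List.head?_cons, Option.getD_some]
    exact ⟨h1.2.2, h1.2.1, h1.1⟩

theorem nextPrime_le (m : ℕ) : nextPrime m ≤ 2 * m + 2 := by
  unfold nextPrime
  cases h : ((List.range (2 * m + 1)).filter fun q => decide (m ≤ q) &&
    (List.range (2 * m + 1)).all fun a => decide (a < 2) || (decide (q ≤ a) ||
      decide (q % a ≠ 0))).head? with
  | none => simp
  | some q =>
    have h1 := List.mem_of_mem_head? h
    rw [List.mem_filter, List.mem_range] at h1
    simp only [Option.getD_some]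
    omega

theorem upoly_nextPrime {m : α → ℕ} (hm : UPoly m) : UPoly fun a => nextPrime (m a) := by
  have h2 : UPoly fun a => 2 * m a + 1 := UPoly.add (UPoly.mul (UPoly.const 2) hm) (UPoly.const 1)
  have h1 : Poly fun a => nextPrime (m a) := by
    unfold nextPrime
    have h3 := h2.range
    have hm' := hm.toPoly
    refine NPC.Poly.optGetD (NPC.Poly.head? (NPC.Poly.filter (p := fun a q => decide (m a ≤ q) &&
      (List.range (2 * m a + 1)).all fun b => decide (b < 2) || (decide (q ≤ b) ||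
        decide (q % b ≠ 0))) h3 ?_)) (NPC.Poly.const 2)
    refine NPC.Poly.and (NPC.Poly.decide_le (hm'.comp (NPC.Poly.fst NPC.Poly.id)) (NPC.Poly.snd NPC.Poly.id)) ?_
    refine NPC.Poly.all (p := fun (x : α × ℕ) b => decide (b < 2) || (decide (x.2 ≤ b) ||
        decide (x.2 % b ≠ 0))) (h3.comp (NPC.Poly.fst NPC.Poly.id)) ?_
    fun_prop
  exact UPoly.of_le h1 (UPoly.add (UPoly.mul (UPoly.const 2) hm) (UPoly.const 2)) fun a =>
    nextPrime_le (m a)

/-! ### Several graphs -/

/-- The disjoint union of `k` graphs. -/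
def unionAll : (k : ℕ) → (Fin k → List (List ℕ)) → List (List ℕ)
  | 0, _ => []
  | k + 1, l => unionR (l 0) (unionAll k fun i => l i.succ)

theorem poly_unionAll : ∀ {k : ℕ} {l : Fin k → α → List (List ℕ)}, (∀ i, Poly (l i)) →
    Poly fun a => unionAll k fun i => l i a
  | 0, _, _ => by
    unfold unionAll
    exact NPC.Poly.const _
  | k + 1, l, h => by
    unfold unionAll
    exact poly_unionR (h 0) (poly_unionAll (l := fun i => l i.succ) fun i => h i.succ)

theorem unionF_mg {μ : Fin n → Fin n → ℕ} {μ' : Fin n' → Fin n' → ℕ} (h : MG μ d) (h' : MG μ' d) :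
    MG (unionF μ μ') d :=
  (h.union h').equiv finSumFinEquiv.symm

theorem unionF_le {μ : Fin n → Fin n → ℕ} {μ' : Fin n' → Fin n' → ℕ} (h : ∀ u v, μ u v ≤ m)
    (h' : ∀ u v, μ' u v ≤ m) (u v : Fin (n + n')) : unionF μ μ' u v ≤ m := by
  unfold unionF
  rcases finSumFinEquiv.symm u with a | a <;> rcases finSumFinEquiv.symm v with b | b
  · exact h a b
  · exact Nat.zero_le _
  · exact Nat.zero_le _
  · exact h' a b

theorem unionAll_spec : ∀ (k : ℕ) (n : Fin k → ℕ) (μ : ∀ i, Fin (n i) → Fin (n i) → ℕ) (D m : ℕ),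
    (∀ i, MG (μ i) D) → (∀ i u v, μ i u v ≤ m) →
    ∃ M : Fin (∑ i, n i) → Fin (∑ i, n i) → ℕ, (unionAll k fun i => toL (μ i)) = toL M ∧ MG M D ∧
      (∀ u v, M u v ≤ m) ∧ (∀ η s : ℝ, (∀ i, FracNo (μ i) D η s) → FracNo M D (k * η) s) ∧
      ∀ (η : ℝ) (s : ℕ) (i : Fin k), HasSet (μ i) D η s → HasSet M D η s
  | 0, n, μ, D, m, _, _ => by
    rw [Fin.sum_univ_zero]
    refine ⟨fun u => u.elim0, rfl, ⟨fun u => u.elim0, fun u => u.elim0, fun u => u.elim0⟩,
      fun u => u.elim0, fun η s _ f _ _ hs => ?_, fun _ _ i => i.elim0⟩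
    simp [form]
  | k + 1, n, μ, D, m, h1, h2 => by
    obtain ⟨M, e1, e2, e3, e4, e5⟩ := unionAll_spec k (fun i => n i.succ) (fun i => μ i.succ) D m
      (fun i => h1 _) (fun i => h2 _)
    rw [Fin.sum_univ_succ]
    refine ⟨unionF (μ 0) M, ?_, unionF_mg (h1 0) e2, unionF_le (h2 0) e3, ?_, ?_⟩
    · unfold unionAll
      rw [e1, unionR_toL]
    · intro η s h
      have h3 := ((h 0).union (e4 η s fun i => h i.succ)).equiv finSumFinEquiv.symm
      have h4 : ((k + 1 : ℕ) : ℝ) * η = η + k * η := by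
        push_cast
        ring
      rw [h4]
      exact h3
    · intro η s i
      refine Fin.cases (fun h => ?_) (fun i h => ?_) i
      · exact (h.union_left M).equiv finSumFinEquiv.symm
      · exact ((e5 η s i h).union_right (μ 0)).equiv finSumFinEquiv.symm

end Pool.Agent.U16.SSE
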