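import Pool.Agent.U16.SSE.Ops
import Pool.Agent.Lib.helper20.PCPA

/-!
# The zig-zag product

The multigraph with the vertices `(u, i)`, where `i` is one of the ports at `u`: a step inside the
cloud of `u`, a step to the other end of the edge, and a step inside the cloud of `v`.
-/

set_option autoImplicit false
set_option linter.unusedSectionVars false

namespace Pool.Agent.U16.SSE

open Finset

variable {V P : Type} [Fintype V] [Fintype P]

/-- The neighbours of each vertex are numbered by the ports: the function `v ↦ π u v` is a bijection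
from the neighbours of `u` to `P`. -/
def Ports (A : V → V → ℕ) (π : V → V → P) : Prop :=
  ∀ u (F : P → ℝ), ∑ v, (A u v : ℝ) * F (π u v) = ∑ p, F p

/-- The matrix of a `D`-regular multigraph on the ports whose nontrivial eigenvalues are at most
`lam D` in absolute value. -/
structure Expand (B : P → P → ℕ) (D : ℕ) (lam : ℝ) : Prop where
  symm : ∀ i j, B i j = B j i
  reg : ∀ i, ∑ j, B i j = D
  contr : ∀ f : P → ℝ, ∑ i, f i = 0 → ∑ p, (∑ i, (B i p : ℝ) * f i) ^ 2 ≤
    (lam * D) ^ 2 * ∑ i, f i ^ 2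

/-- The zig-zag product. -/
def zz (A : V → V → ℕ) (π : V → V → P) (B : P → P → ℕ) (x y : V × P) : ℕ :=
  A x.1 y.1 * (B x.2 (π x.1 y.1) * B y.2 (π y.1 x.1))

variable {A : V → V → ℕ} {π : V → V → P} {B : P → P → ℕ} {d D : ℕ} {lam : ℝ}

theorem Expand.col (h : Expand B D lam) (p : P) : ∑ i, (B i p : ℝ) = D := by
  have h1 : ∑ i, B i p = D := by
    rw [← h.reg p]
    exact sum_congr rfl fun i _ => h.symm i p
  exact_mod_cast h1

theorem Ports.card (hA : MG A d) (hπ : Ports A π) (u : V) : (Fintype.card P : ℝ) = d := by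
  have h1 := hπ u fun _ => 1
  simp only [mul_one, sum_const, card_univ, nsmul_eq_mul] at h1
  rw [← h1]
  exact_mod_cast hA.reg u

theorem zz_mg (hA : MG A d) (hπ : Ports A π) (hB : Expand B D lam) : MG (zz A π B) (D * D) where
  symm x y := by
    unfold zz
    rw [hA.symm x.1 y.1, mul_comm (B x.2 _)]
  diag x := by
    unfold zz
    rw [hA.diag, zero_mul]
  reg x := by
    have h1 : ((∑ y, zz A π B x y : ℕ) : ℝ) = ((D * D : ℕ) : ℝ) := by
      push_cast
      rw [Fintype.sum_prod_type]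
      have h2 : ∀ v : V, ∑ j, (zz A π B x (v, j) : ℝ) =
          (A x.1 v : ℝ) * ((B x.2 (π x.1 v) : ℝ) * D) := by
        intro v
        unfold zz
        push_cast
        rw [← mul_sum, ← mul_sum, hB.col]
      simp only [h2]
      rw [hπ x.1 fun p => (B x.2 p : ℝ) * D, ← sum_mul]
      congr 1
      exact_mod_cast hB.reg x.2
    exact_mod_cast h1

theorem form_zz (f : V × P → ℝ) : form (zz A π B) f = ∑ u, ∑ v, (A u v : ℝ) *
    ((∑ i, (B i (π u v) : ℝ) * f (u, i)) * (∑ j, (B j (π v u) : ℝ) * f (v, j))) := by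
  unfold form
  rw [Fintype.sum_prod_type]
  refine sum_congr rfl fun u _ => ?_
  simp only [Fintype.sum_prod_type]
  rw [sum_comm]
  refine sum_congr rfl fun v _ => ?_
  rw [sum_mul_sum, mul_sum]
  refine sum_congr rfl fun i _ => ?_
  rw [mul_sum]
  refine sum_congr rfl fun j _ => ?_
  unfold zz
  push_cast
  ring

theorem zz_has {η : ℝ} {s : ℕ} (hB : Expand B D lam) (hP : Fintype.card P = d)
    (h : HasSet A d η s) : HasSet (zz A π B) (D * D) η (s * d) := by
  obtain ⟨S, h1, h2⟩ := h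
  refine ⟨S ×ˢ univ, by rw [card_product, h1, card_univ, hP], ?_⟩
  rw [form_zz]
  simp only [ind_prod]
  have h3 : ∀ u p, ∑ i, (B i p : ℝ) * ind S u = D * ind S u := by
    intro u p
    rw [← sum_mul, hB.col]
  simp only [h3]
  have h4 : ∑ u, ∑ v, (A u v : ℝ) * ((D * ind S u) * (D * ind S v)) =
      (D * D) * form A (ind S) := by
    unfold form
    rw [mul_sum]
    refine sum_congr rfl fun u _ => ?_
    rw [mul_sum]
    exact sum_congr rfl fun v _ => by ring
  rw [h4]
  have h5 := mul_le_mul_of_nonneg_left h2 (by positivity : (0 : ℝ) ≤ (D : ℝ) * D)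
  push_cast
  refine le_trans (le_of_eq ?_) h5
  ring

theorem zz_frac {η s : ℝ} (hA : MG A d) (hd : 0 < d) (hπ : Ports A π) (hB : Expand B D lam)
    (hlam : 0 < lam) (hlam1 : lam ≤ 1) (hP : Fintype.card P = d) (h : FracNo A d η s) :
    FracNo (zz A π B) (D * D) (η + 3 * lam) (s * d) := by
  intro f h0 h1 h2
  have hdR : (0 : ℝ) < d := by exact_mod_cast hd
  obtain ⟨F, hF⟩ : ∃ F : V → ℝ, F = fun u => (∑ i, f (u, i)) / d := ⟨_, rfl⟩
  have hFd : ∀ u, d * F u = ∑ i, f (u, i) := by
    intro u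
    rw [hF]
    field_simp
  have hF0 : ∀ u, 0 ≤ F u := by
    intro u
    rw [hF]
    exact div_nonneg (sum_nonneg fun i _ => h0 _) hdR.le
  have hF1 : ∀ u, F u ≤ 1 := by
    intro u
    rw [hF]
    simp only
    rw [div_le_one hdR]
    refine (sum_le_sum fun i _ => h1 (u, i)).trans ?_
    rw [sum_const, card_univ, hP, nsmul_eq_mul, mul_one]
  have hFs : ∑ u, F u ≤ s := by
    have h3 : d * ∑ u, F u ≤ s * d := by
      rw [mul_sum]
      simp only [hFd]
      rw [← Fintype.sum_prod_type]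
      exact h2
    by_contra hcon
    push Not at hcon
    nlinarith
  obtain ⟨q, hq⟩ : ∃ q : ℝ, q = ∑ x, f x ^ 2 := ⟨_, rfl⟩
  have hq0 : 0 ≤ q := by
    rw [hq]
    exact sum_nonneg fun x _ => sq_nonneg _
  have hqs : q ≤ s * d := by
    rw [hq]
    refine (sum_le_sum fun x _ => ?_).trans h2
    have := h0 x
    have := h1 x
    nlinarith
  have hsplit : ∀ u, ∑ i, f (u, i) ^ 2 = ∑ i, (f (u, i) - F u) ^ 2 + d * F u ^ 2 := by
    intro u
    have e1 : ∀ i, f (u, i) ^ 2 = (f (u, i) - F u) ^ 2 + 2 * F u * f (u, i) - F u ^ 2 := by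
      intro i
      ring
    simp only [e1, sum_add_distrib, sum_sub_distrib, ← mul_sum, ← hFd u, sum_const, card_univ, hP,
      nsmul_eq_mul]
    ring
  -- the deviations
  obtain ⟨g, hg⟩ : ∃ g : V → P → ℝ, g = fun u p => ∑ i, (B i p : ℝ) * (f (u, i) - F u) :=
    ⟨_, rfl⟩
  have hgd : ∀ u p, ∑ i, (B i p : ℝ) * f (u, i) = D * F u + g u p := by
    intro u p
    rw [hg]
    simp only [mul_sub, sum_sub_distrib]
    rw [← sum_mul, hB.col]
    ring
  have hg2 : ∀ u, ∑ p, g u p ^ 2 ≤ (lam * D) ^ 2 * ∑ i, (f (u, i) - F u) ^ 2 := by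
    intro u
    rw [hg]
    refine hB.contr (fun i => f (u, i) - F u) ?_
    rw [sum_sub_distrib, ← hFd u, sum_const, card_univ, hP, nsmul_eq_mul, sub_self]
  have hsumF : ∑ u, d * F u ^ 2 ≤ q := by
    rw [hq, Fintype.sum_prod_type]
    refine sum_le_sum fun u _ => ?_
    rw [hsplit u]
    have : 0 ≤ ∑ i, (f (u, i) - F u) ^ 2 := sum_nonneg fun i _ => sq_nonneg _
    linarith
  have hsumg : ∑ u, ∑ p, g u p ^ 2 ≤ (lam * D) ^ 2 * q := by
    rw [hq, Fintype.sum_prod_type, mul_sum]
    refine sum_le_sum fun u _ => (hg2 u).trans ?_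
    refine mul_le_mul_of_nonneg_left ?_ (sq_nonneg _)
    rw [hsplit u]
    have : 0 ≤ d * F u ^ 2 := by positivity
    linarith
  rw [form_zz]
  simp only [hgd]
  -- the pointwise bound
  have hpt : ∀ u v, (A u v : ℝ) * ((D * F u + g u (π u v)) * (D * F v + g v (π v u))) ≤
      D ^ 2 * ((A u v : ℝ) * (F u * F v)) + lam / 2 * D ^ 2 * ((A u v : ℝ) * F u ^ 2) +
        lam / 2 * D ^ 2 * ((A u v : ℝ) * F v ^ 2) +
        (1 / (2 * lam) + 1 / 2) * ((A u v : ℝ) * g u (π u v) ^ 2) +
        (1 / (2 * lam) + 1 / 2) * ((A u v : ℝ) * g v (π v u) ^ 2) := by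
    intro u v
    have hA0 : (0 : ℝ) ≤ A u v := Nat.cast_nonneg _
    have key : ∀ x y : ℝ, x * y ≤ lam / 2 * x ^ 2 + 1 / (2 * lam) * y ^ 2 := by
      intro x y
      have e1 : lam / 2 * x ^ 2 + 1 / (2 * lam) * y ^ 2 - x * y =
          (lam * x - y) ^ 2 / (2 * lam) := by
        field_simp
        ring
      have e2 : 0 ≤ (lam * x - y) ^ 2 / (2 * lam) := by positivity
      linarith
    have e1 := key (D * F u) (g v (π v u))
    have e2 := key (D * F v) (g u (π u v))
    have e3 : g u (π u v) * g v (π v u) ≤ 1 / 2 * g u (π u v) ^ 2 + 1 / 2 * g v (π v u) ^ 2 := by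
      nlinarith [sq_nonneg (g u (π u v) - g v (π v u))]
    have e4 : (D * F u + g u (π u v)) * (D * F v + g v (π v u)) ≤
        D ^ 2 * (F u * F v) + lam / 2 * D ^ 2 * F u ^ 2 + lam / 2 * D ^ 2 * F v ^ 2 +
        (1 / (2 * lam) + 1 / 2) * g u (π u v) ^ 2 + (1 / (2 * lam) + 1 / 2) * g v (π v u) ^ 2 := by
      nlinarith
    calc (A u v : ℝ) * ((D * F u + g u (π u v)) * (D * F v + g v (π v u))) ≤
        A u v * (D ^ 2 * (F u * F v) + lam / 2 * D ^ 2 * F u ^ 2 + lam / 2 * D ^ 2 * F v ^ 2 +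
        (1 / (2 * lam) + 1 / 2) * g u (π u v) ^ 2 +
        (1 / (2 * lam) + 1 / 2) * g v (π v u) ^ 2) := mul_le_mul_of_nonneg_left e4 hA0
      _ = _ := by ring
  refine (sum_le_sum fun u _ => sum_le_sum fun v _ => hpt u v).trans ?_
  simp only [sum_add_distrib, ← mul_sum]
  have s1 : ∑ u, ∑ v, (A u v : ℝ) * F u ^ 2 = ∑ u, d * F u ^ 2 := by
    refine sum_congr rfl fun u _ => ?_
    rw [← sum_mul]
    congr 1
    exact_mod_cast hA.reg u
  have s2 : ∑ u, ∑ v, (A u v : ℝ) * F v ^ 2 = ∑ u, d * F u ^ 2 := by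
    rw [sum_comm, ← s1]
    refine sum_congr rfl fun u _ => sum_congr rfl fun v _ => ?_
    rw [hA.symm]
  have s3 : ∑ u, ∑ v, (A u v : ℝ) * g u (π u v) ^ 2 = ∑ u, ∑ p, g u p ^ 2 :=
    sum_congr rfl fun u _ => hπ u fun p => g u p ^ 2
  have s4 : ∑ u, ∑ v, (A u v : ℝ) * g v (π v u) ^ 2 = ∑ u, ∑ p, g u p ^ 2 := by
    rw [sum_comm, ← s3]
    refine sum_congr rfl fun u _ => sum_congr rfl fun v _ => ?_
    rw [hA.symm]
  rw [s1, s2, s3, s4]
  have h5 := h F hF0 hF1 hFs
  have hD0 : (0 : ℝ) ≤ (D : ℝ) ^ 2 := sq_nonneg _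
  have h6 := mul_le_mul_of_nonneg_left h5 hD0
  have h7 : lam / 2 * D ^ 2 * ∑ u, d * F u ^ 2 ≤ lam / 2 * D ^ 2 * q :=
    mul_le_mul_of_nonneg_left hsumF (by positivity)
  have h8 : (1 / (2 * lam) + 1 / 2) * ∑ u, ∑ p, g u p ^ 2 ≤
      (1 / (2 * lam) + 1 / 2) * ((lam * D) ^ 2 * q) :=
    mul_le_mul_of_nonneg_left hsumg (by positivity)
  have h9 : (1 / (2 * lam) + 1 / 2) * ((lam * D) ^ 2 * q) =
      lam / 2 * D ^ 2 * q + lam ^ 2 / 2 * D ^ 2 * q := by
    field_simp
  have h10 : lam ^ 2 * D ^ 2 * q ≤ lam * D ^ 2 * q := by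
    have e1 : lam ^ 2 ≤ lam := by nlinarith
    exact mul_le_mul_of_nonneg_right (mul_le_mul_of_nonneg_right e1 hD0) hq0
  have h11 : 3 * lam * D ^ 2 * q ≤ 3 * lam * D ^ 2 * (s * d) :=
    mul_le_mul_of_nonneg_left hqs (by positivity)
  have h12 : form A F = ∑ u, ∑ v, (A u v : ℝ) * (F u * F v) := rfl
  rw [h12] at h6
  have h13 : (η + 3 * lam) * (((D * D : ℕ) : ℝ) * (s * d)) =
      D ^ 2 * (η * (d * s)) + 3 * lam * D ^ 2 * (s * d) := by
    push_cast
    ring
  rw [h13]
  linarith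

/-! ### Numbering the neighbours -/

/-- The number of the neighbours of `u` before `v`. -/
def rk {n : ℕ} (A : Fin n → Fin n → ℕ) (u v : Fin n) : ℕ := ∑ w, if w < v then A u w else 0

theorem rank_sum {n : ℕ} (c : Fin n → ℕ) (hc : ∀ v, c v ≤ 1) (F : ℕ → ℝ) :
    ∑ v, (c v : ℝ) * F (∑ w, if w < v then c w else 0) = ∑ p ∈ range (∑ v, c v), F p := by
  classical
  induction n with
  | zero => simp
  | succ n ih =>
    have h1 := ih (fun v => c v.castSucc) fun v => hc _
    rw [Fin.sum_univ_castSucc, Fin.sum_univ_castSucc (f := c)]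
    have h2 : ∀ v : Fin n, (∑ w : Fin (n + 1), if w < v.castSucc then c w else 0) =
        ∑ w : Fin n, if w < v then c w.castSucc else 0 := by
      intro v
      rw [Fin.sum_univ_castSucc]
      rw [if_neg (by
        intro h
        exact absurd h (Fin.castSucc_lt_last v).asymm), add_zero]
      simp only [Fin.castSucc_lt_castSucc_iff]
    simp only [h2]
    rw [h1]
    have h3 : (∑ w : Fin (n + 1), if w < Fin.last n then c w else 0) =
        ∑ w : Fin n, c w.castSucc := by
      rw [Fin.sum_univ_castSucc]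
      rw [if_neg (lt_irrefl _), add_zero]
      refine sum_congr rfl fun w _ => ?_
      rw [if_pos (Fin.castSucc_lt_last w)]
    rw [h3]
    have h4 := hc (Fin.last n)
    rcases Nat.le_one_iff_eq_zero_or_eq_one.1 h4 with h5 | h5
    · rw [h5]
      simp
    · rw [h5, sum_range_succ]
      simp

theorem rk_lt {n d : ℕ} {A : Fin n → Fin n → ℕ} (hA : MG A d) {u v : Fin n}
    (h : A u v = 1) : rk A u v < d := by
  classical
  unfold rk
  rw [← hA.reg u]
  refine sum_lt_sum (fun w _ => ?_) ⟨v, mem_univ v, ?_⟩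
  · split_ifs <;> omega
  · rw [if_neg (lt_irrefl v), h]
    exact one_pos

/-- The port at `(u, σ)` of the edge to `(v, τ)`, in the blow-up. -/
def prt {n d : ℕ} (hd : 0 < d) (A : Fin n → Fin n → ℕ) (x y : Fin n × Fin d) : Fin (d * d) :=
  finProdFinEquiv (⟨rk A x.1 y.1 % d, Nat.mod_lt _ hd⟩, y.2)

theorem ports_blow {n d : ℕ} {A : Fin n → Fin n → ℕ} (hd : 0 < d) (hA : MG A d)
    (h1 : ∀ u v, A u v ≤ 1) : Ports (blow d A) (prt hd A) := by
  intro x F
  rw [Fintype.sum_prod_type]
  have e1 : ∀ v : Fin n, ∑ τ : Fin d, (blow d A x (v, τ) : ℝ) * F (prt hd A x (v, τ)) =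
      (A x.1 v : ℝ) * (fun p : ℕ => ∑ τ : Fin d, F (finProdFinEquiv (⟨p % d, Nat.mod_lt _ hd⟩, τ)))
        (rk A x.1 v) := by
    intro v
    simp only
    rw [mul_sum]
    rfl
  simp only [e1]
  have e2 := rank_sum (A x.1) (fun v => h1 _ v) fun p : ℕ =>
    ∑ τ : Fin d, F (finProdFinEquiv (⟨p % d, Nat.mod_lt _ hd⟩, τ))
  refine e2.trans ?_
  rw [hA.reg, sum_range, ← Equiv.sum_comp finProdFinEquiv F, Fintype.sum_prod_type]
  refine sum_congr rfl fun p _ => sum_congr rfl fun τ _ => ?_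
  congr 3
  exact Fin.ext (Nat.mod_eq_of_lt p.2)

/-! ### The expanders of Margulis, Gabber and Galil -/

open Pool.Agent.Lib.helper20.PCP (G ginv mg mg_lt mg_inv poin)

/-- The matrix of the lazy Margulis graph, with `16` labels. -/
def tau (M i j : ℕ) : ℕ := (if i = j then 8 else 0) + ∑ g : G, if mg M g i = j then 1 else 0

theorem mg_inv' {M : ℕ} (g : G) {r : ℕ} (h : r < M * M) : mg M g (mg M (ginv g) r) = r := by
  have h1 := mg_inv (ginv g) h
  have h2 : ginv (ginv g) = g := by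
    obtain ⟨a, b, c⟩ := g
    simp [ginv]
  rwa [h2] at h1

/-- The inverse label, as a permutation. -/
def ginvE : G ≃ G := ⟨ginv, ginv, fun g => by obtain ⟨a, b, c⟩ := g; simp [ginv], fun g => by
  obtain ⟨a, b, c⟩ := g; simp [ginv]⟩

theorem tau_symm {M i j : ℕ} (hi : i < M * M) (hj : j < M * M) : tau M i j = tau M j i := by
  unfold tau
  congr 1
  · simp only [eq_comm]
  · rw [← Equiv.sum_comp ginvE]
    refine sum_congr rfl fun g _ => ?_
    have h1 : mg M (ginvE g) i = j ↔ mg M g j = i := by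
      constructor
      · intro h
        rw [← h]
        exact mg_inv' g hi
      · intro h
        rw [← h]
        exact mg_inv g hj
    simp only [h1]

theorem tau_sum {M : ℕ} (f : ℕ → ℝ) {j : ℕ} (hj : j < M * M) :
    ∑ i ∈ range (M * M), (tau M i j : ℝ) * f i = 8 * f j + ∑ g : G, f (mg M g j) := by
  classical
  have h1 : ∀ i ∈ range (M * M), (tau M i j : ℝ) * f i =
      (if i = j then 8 * f i else 0) + ∑ g : G, if i = mg M g j then f i else 0 := by
    intro i hi
    rw [mem_range] at hi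
    rw [tau_symm hi hj]
    unfold tau
    push_cast
    rw [add_mul, sum_mul]
    congr 1
    · simp only [eq_comm (a := j)]
      split_ifs <;> simp
    · refine sum_congr rfl fun g _ => ?_
      simp only [eq_comm (a := i)]
      split_ifs <;> simp
  rw [sum_congr rfl h1, sum_add_distrib, sum_comm]
  congr 1
  · rw [sum_ite_eq' , if_pos (mem_range.2 hj)]
  · refine sum_congr rfl fun g _ => ?_
    rw [sum_ite_eq', if_pos (mem_range.2 (mg_lt g hj))]

theorem sum_mg {M : ℕ} (f : ℕ → ℝ) (g : G) :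
    ∑ r ∈ range (M * M), f (mg M g r) = ∑ r ∈ range (M * M), f r := by
  refine sum_nbij' (fun r => mg M g r) (fun r => mg M (ginv g) r)
    (fun r hr => mem_range.2 (mg_lt g (mem_range.1 hr)))
    (fun r hr => mem_range.2 (mg_lt _ (mem_range.1 hr)))
    (fun r hr => mg_inv g (mem_range.1 hr)) (fun r hr => mg_inv' g (mem_range.1 hr))
    fun r _ => rfl

theorem card_G : Fintype.card G = 8 := by decide

theorem tau_contr {M : ℕ} (f : ℕ → ℝ) (h0 : ∑ r ∈ range (M * M), f r = 0) :
    ∑ p ∈ range (M * M), (∑ i ∈ range (M * M), (tau M i p : ℝ) * f i) ^ 2 ≤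
      256 * (383 / 384) * ∑ i ∈ range (M * M), f i ^ 2 := by
  have h1 := poin f h0
  have h2 : ∑ p ∈ range (M * M), (∑ i ∈ range (M * M), (tau M i p : ℝ) * f i) ^ 2 =
      ∑ p ∈ range (M * M), (8 * f p + ∑ g : G, f (mg M g p)) ^ 2 :=
    sum_congr rfl fun p hp => by rw [tau_sum f (mem_range.1 hp)]
  rw [h2]
  obtain ⟨q, hq⟩ : ∃ q : ℝ, q = ∑ i ∈ range (M * M), f i ^ 2 := ⟨_, rfl⟩
  have h3 : ∀ g : G, ∑ r ∈ range (M * M), f (mg M g r) ^ 2 = q := by
    intro g
    rw [hq]
    exact sum_mg (fun r => f r ^ 2) g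
  have h4 : ∑ g : G, ∑ r ∈ range (M * M), (f (mg M g r) - f r) ^ 2 =
      16 * q - 2 * ∑ r ∈ range (M * M), f r * ∑ g : G, f (mg M g r) := by
    have e1 : ∀ g : G, ∑ r ∈ range (M * M), (f (mg M g r) - f r) ^ 2 =
        2 * q - 2 * ∑ r ∈ range (M * M), f r * f (mg M g r) := by
      intro g
      have e2 : ∀ r, (f (mg M g r) - f r) ^ 2 = f (mg M g r) ^ 2 + f r ^ 2 -
          2 * (f r * f (mg M g r)) := fun r => by ring
      simp only [e2, sum_sub_distrib, sum_add_distrib, h3, ← hq, ← mul_sum]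
      ring
    simp only [e1]
    rw [sum_sub_distrib, sum_const, card_univ, card_G, nsmul_eq_mul, ← mul_sum, sum_comm]
    simp only [← mul_sum]
    push_cast
    ring
  have h5 : ∑ p ∈ range (M * M), (∑ g : G, f (mg M g p)) ^ 2 ≤ 64 * q := by
    have e1 : ∀ p, (∑ g : G, f (mg M g p)) ^ 2 ≤ 8 * ∑ g : G, f (mg M g p) ^ 2 := by
      intro p
      have := sq_sum_le_card_mul_sum_sq (s := (univ : Finset G)) (f := fun g => f (mg M g p))
      rw [card_univ, card_G] at this
      exact_mod_cast this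
    refine (sum_le_sum fun p _ => e1 p).trans ?_
    rw [← mul_sum, sum_comm]
    simp only [h3]
    rw [sum_const, card_univ, card_G, nsmul_eq_mul]
    push_cast
    linarith
  have h6 : ∑ p ∈ range (M * M), (8 * f p + ∑ g : G, f (mg M g p)) ^ 2 =
      64 * q + 16 * ∑ r ∈ range (M * M), f r * ∑ g : G, f (mg M g r) +
        ∑ p ∈ range (M * M), (∑ g : G, f (mg M g p)) ^ 2 := by
    rw [hq, mul_sum, mul_sum, ← sum_add_distrib, ← sum_add_distrib]
    exact sum_congr rfl fun p _ => by ring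
  rw [h6, ← hq]
  rw [h4, ← hq] at h1
  linarith

/-- The number of walks of length `k`. -/
def walks (M : ℕ) : ℕ → ℕ → ℕ → ℕ
  | 0, i, j => if i = j then 1 else 0
  | k + 1, i, j => ∑ l ∈ range (M * M), tau M i l * walks M k l j

theorem tau_row {M i : ℕ} (hi : i < M * M) : ∑ j ∈ range (M * M), tau M i j = 16 := by
  have h1 : ((∑ j ∈ range (M * M), tau M i j : ℕ) : ℝ) = 16 := by
    push_cast
    have h2 := tau_sum (M := M) (fun _ => 1) hi
    simp only [mul_one, sum_const, card_univ, card_G, nsmul_eq_mul] at h2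
    have h3 : ∑ j ∈ range (M * M), (tau M i j : ℝ) = ∑ j ∈ range (M * M), (tau M j i : ℝ) :=
      sum_congr rfl fun j hj => by rw [tau_symm hi (mem_range.1 hj)]
    rw [h3, h2]
    norm_num
  exact_mod_cast h1

theorem walks_row {M : ℕ} : ∀ (k : ℕ) {i : ℕ}, i < M * M →
    ∑ j ∈ range (M * M), walks M k i j = 16 ^ k
  | 0, i, hi => by
    unfold walks
    rw [sum_ite_eq, if_pos (mem_range.2 hi), pow_zero]
  | k + 1, i, hi => by
    unfold walks
    rw [sum_comm]
    simp only [← mul_sum]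
    have h1 : ∀ l ∈ range (M * M), tau M i l * ∑ j ∈ range (M * M), walks M k l j =
        tau M i l * 16 ^ k := fun l hl => by rw [walks_row k (mem_range.1 hl)]
    rw [sum_congr rfl h1, ← sum_mul, tau_row hi, pow_succ]
    ring

/-- The walks read backwards. -/
theorem walks_succ' {M : ℕ} : ∀ (k : ℕ) {i j : ℕ}, i < M * M → j < M * M →
    walks M (k + 1) i j = ∑ l ∈ range (M * M), walks M k i l * tau M l j
  | 0, i, j, hi, hj => by
    unfold walks
    unfold walks
    simp only [mul_ite, mul_one, mul_zero, ite_mul, one_mul, zero_mul]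
    rw [sum_ite_eq' , sum_ite_eq, if_pos (mem_range.2 hj), if_pos (mem_range.2 hi)]
  | k + 1, i, j, hi, hj => by
    have e1 : walks M (k + 1 + 1) i j = ∑ l ∈ range (M * M), tau M i l * walks M (k + 1) l j := rfl
    have e2 : ∀ l, walks M (k + 1) i l = ∑ m ∈ range (M * M), tau M i m * walks M k m l :=
      fun l => rfl
    rw [e1]
    simp only [e2]
    have e3 : ∀ l ∈ range (M * M), tau M i l * walks M (k + 1) l j =
        ∑ m ∈ range (M * M), tau M i l * (walks M k l m * tau M m j) := by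
      intro l hl
      rw [walks_succ' k (mem_range.1 hl) hj, mul_sum]
    rw [sum_congr rfl e3, sum_comm]
    refine sum_congr rfl fun m _ => ?_
    rw [sum_mul]
    exact sum_congr rfl fun l _ => by ring

theorem walks_symm {M : ℕ} : ∀ (k : ℕ) {i j : ℕ}, i < M * M → j < M * M →
    walks M k i j = walks M k j i
  | 0, i, j, _, _ => by
    unfold walks
    simp only [eq_comm]
  | k + 1, i, j, hi, hj => by
    have e1 : walks M (k + 1) j i = ∑ l ∈ range (M * M), tau M j l * walks M k l i := rfl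
    rw [walks_succ' k hi hj, e1]
    refine sum_congr rfl fun l hl => ?_
    rw [walks_symm k hi (mem_range.1 hl), tau_symm (mem_range.1 hl) hj, mul_comm]

theorem walks_contr {M : ℕ} : ∀ (k : ℕ) (f : ℕ → ℝ), ∑ r ∈ range (M * M), f r = 0 →
    ∑ p ∈ range (M * M), (∑ i ∈ range (M * M), (walks M k i p : ℝ) * f i) ^ 2 ≤
      (256 * (383 / 384)) ^ k * ∑ i ∈ range (M * M), f i ^ 2
  | 0, f, h0 => by
    unfold walks
    rw [pow_zero, one_mul]
    refine sum_le_sum fun p hp => le_of_eq ?_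
    congr 1
    simp only [Nat.cast_ite, Nat.cast_one, Nat.cast_zero, ite_mul, one_mul, zero_mul]
    rw [sum_ite_eq', if_pos hp]
  | k + 1, f, h0 => by
    obtain ⟨g, hg⟩ : ∃ g : ℕ → ℝ, g = fun l => ∑ i ∈ range (M * M), (walks M k i l : ℝ) * f i :=
      ⟨_, rfl⟩
    have hg0 : ∑ l ∈ range (M * M), g l = 0 := by
      rw [hg, sum_comm]
      have e1 : ∀ i ∈ range (M * M), ∑ l ∈ range (M * M), (walks M k i l : ℝ) * f i =
          16 ^ k * f i := by
        intro i hi
        rw [← sum_mul]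
        congr 1
        exact_mod_cast walks_row k (mem_range.1 hi)
      rw [sum_congr rfl e1, ← mul_sum, h0, mul_zero]
    have h1 : ∀ p ∈ range (M * M), ∑ i ∈ range (M * M), (walks M (k + 1) i p : ℝ) * f i =
        ∑ l ∈ range (M * M), (tau M l p : ℝ) * g l := by
      intro p hp
      have e1 : ∀ i ∈ range (M * M), (walks M (k + 1) i p : ℝ) * f i =
          ∑ l ∈ range (M * M), (tau M l p : ℝ) * ((walks M k i l : ℝ) * f i) := by
        intro i hi
        rw [walks_succ' k (mem_range.1 hi) (mem_range.1 hp)]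
        push_cast
        rw [sum_mul]
        exact sum_congr rfl fun l _ => by ring
      rw [sum_congr rfl e1, sum_comm, hg]
      refine sum_congr rfl fun l _ => ?_
      rw [mul_sum]
    rw [sum_congr rfl fun p hp => by rw [h1 p hp]]
    refine (tau_contr g hg0).trans ?_
    have h2 := walks_contr k f h0
    have h3 := mul_le_mul_of_nonneg_left h2 (by norm_num : (0 : ℝ) ≤ 256 * (383 / 384))
    rw [pow_succ', mul_assoc (256 * (383 / 384 : ℝ)), hg]
    exact h3

/-- The matrix of the walks, on the ports. -/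
def walksF (k M : ℕ) (i j : Fin (M * M)) : ℕ := walks M k i j

theorem walksF_le (k M : ℕ) (i j : Fin (M * M)) : walksF k M i j ≤ 16 ^ k := by
  unfold walksF
  rw [← walks_row k i.2]
  exact single_le_sum (f := fun j => walks M k i j) (fun j _ => Nat.zero_le _)
    (mem_range.2 j.2)

theorem expand_walks (k M : ℕ) : Expand (walksF k M) (16 ^ k) √((383 / 384) ^ k) where
  symm i j := walks_symm k i.2 j.2
  reg i := by
    rw [← walks_row k i.2, sum_range]
    rfl
  contr f hf := by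
    obtain ⟨g, hg⟩ : ∃ g : ℕ → ℝ, g = fun r => if h : r < M * M then f ⟨r, h⟩ else 0 := ⟨_, rfl⟩
    have hgf : ∀ i : Fin (M * M), g i = f i := by
      intro i
      rw [hg]
      simp [i.2]
    have h1 : ∑ r ∈ range (M * M), g r = 0 := by
      rw [sum_range, ← hf]
      exact sum_congr rfl fun i _ => hgf i
    have h2 := walks_contr k g h1
    rw [sum_range, sum_range] at h2
    simp only [hgf] at h2
    have h3 : ∀ p : Fin (M * M), ∑ i ∈ range (M * M), (walks M k i p : ℝ) * g i =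
        ∑ i, (walksF k M i p : ℝ) * f i := by
      intro p
      rw [sum_range]
      exact sum_congr rfl fun i _ => by rw [hgf i]; rfl
    simp only [h3] at h2
    refine h2.trans (le_of_eq ?_)
    congr 1
    rw [mul_pow √((383 / 384 : ℝ) ^ k), Real.sq_sqrt (by positivity), mul_pow]
    push_cast
    rw [← pow_mul, mul_comm k 2, pow_mul]
    norm_num
    ring

end Pool.Agent.U16.SSE
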