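import Pool.Agent.U16.SSE.ZigZag
import Pool.Agent.U16.SSE.Hard

/-!
# The zig-zag product, on lists
-/

set_option autoImplicit false
set_option linter.unusedSectionVars false

namespace Pool.Agent.U16.SSE

open Finset Pool.Agent.NPC
open Pool.Agent.Lib.helper20.PCP (G mg)
open Pool.Agent.U16.UGT (Red)

variable {α : Type} [TEnc α] {n d : ℕ}

theorem ent_build {N : ℕ} (e : ℕ → ℕ → ℕ) {u v : ℕ} (hu : u < N) (hv : v < N) :
    ent (build N e) u v = e u v := by
  rw [build_eq]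
  exact ent_toL (fun u v : Fin N => e u v) ⟨u, hu⟩ ⟨v, hv⟩

theorem list_sum_range (N : ℕ) (f : ℕ → ℕ) :
    ((List.range N).map f).sum = ∑ l ∈ Finset.range N, f l := by
  induction N with
  | zero => simp
  | succ N ih => rw [List.range_succ, List.map_append, List.sum_append, ih, Finset.sum_range_succ]; simp

/-- The matrix of the walks of length `k`. -/
def walksR (M : ℕ) : ℕ → List (List ℕ)
  | 0 => build (M * M) fun i j => if i = j then 1 else 0
  | k + 1 => build (M * M) fun i j =>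
      ((List.range (M * M)).map fun l => tau M i l * ent (walksR M k) l j).sum

theorem ent_walksR (M : ℕ) : ∀ (k : ℕ) {i j : ℕ}, i < M * M → j < M * M →
    ent (walksR M k) i j = walks M k i j
  | 0, i, j, hi, hj => by
    unfold walksR walks
    rw [ent_build _ hi hj]
  | k + 1, i, j, hi, hj => by
    unfold walksR
    rw [ent_build _ hi hj, list_sum_range]
    have e1 : walks M (k + 1) i j = ∑ l ∈ Finset.range (M * M), tau M i l * walks M k l j := rfl
    rw [e1]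
    refine sum_congr rfl fun l hl => ?_
    rw [ent_walksR M k (Finset.mem_range.1 hl) hj]

theorem poly_mg (g : G) {M r : α → ℕ} (hM : NPC.Poly M) (hr : NPC.Poly r) :
    NPC.Poly fun a => mg (M a) g (r a) := by
  obtain ⟨x, y, z⟩ := g
  unfold mg
  cases x <;> cases y <;> cases z <;> simp only [if_true, if_false, Bool.false_eq_true] <;>
    fun_prop

theorem poly_tau {M i j : α → ℕ} (hM : NPC.Poly M) (hi : NPC.Poly i) (hj : NPC.Poly j) :
    NPC.Poly fun a => tau (M a) (i a) (j a) := by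
  unfold tau
  have h1 : ∀ g : G, NPC.Poly fun a => if mg (M a) g (i a) = j a then 1 else 0 := fun g =>
    NPC.Poly.ite (NPC.Poly.dec_eq (poly_mg g hM hi) hj) (NPC.Poly.const 1) (NPC.Poly.const 0)
  refine NPC.Poly.add (NPC.Poly.ite (NPC.Poly.dec_eq hi hj) (NPC.Poly.const 8)
    (NPC.Poly.const 0)) ?_
  simp only [Fintype.sum_prod_type, Fintype.sum_bool]
  exact NPC.Poly.add (NPC.Poly.add (NPC.Poly.add (h1 _) (h1 _)) (NPC.Poly.add (h1 _) (h1 _)))
    (NPC.Poly.add (NPC.Poly.add (h1 _) (h1 _)) (NPC.Poly.add (h1 _) (h1 _)))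

theorem poly_walksR {M : α → ℕ} (hM : UPoly M) : ∀ k : ℕ, NPC.Poly fun a => walksR (M a) k
  | 0 => by
    unfold walksR
    refine poly_build (e := fun _ i j => if i = j then 1 else 0) (UPoly.mul hM hM) ?_
    fun_prop
  | k + 1 => by
    unfold walksR
    have h1 : UPoly fun a => M a * M a := UPoly.mul hM hM
    refine poly_build (e := fun a i j =>
      ((List.range (M a * M a)).map fun l => tau (M a) i l * ent (walksR (M a) k) l j).sum) h1 ?_
    refine NPC.Poly.sum (NPC.Poly.map (F := fun (p : α × ℕ × ℕ) l =>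
      tau (M p.1) p.2.1 l * ent (walksR (M p.1) k) l p.2.2)
        ((h1.comp (NPC.Poly.fst NPC.Poly.id)).range) ?_)
    refine NPC.Poly.mul (poly_tau (hM.toPoly.comp (NPC.Poly.fst (NPC.Poly.fst NPC.Poly.id)))
      (by fun_prop) (by fun_prop)) (poly_ent ((poly_walksR hM k).comp
        (NPC.Poly.fst (NPC.Poly.fst NPC.Poly.id))) (by fun_prop) (by fun_prop))

/-- The number of the neighbours of `u` before `v`. -/
def rkR (l : List (List ℕ)) (u v : ℕ) : ℕ :=
  ((List.range l.length).map fun w => if w < v then ent l u w else 0).sum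

theorem rkR_toL (A : Fin n → Fin n → ℕ) (u v : Fin n) : rkR (toL A) u v = rk A u v := by
  unfold rkR rk
  rw [list_sum_range, length_toL, Finset.sum_range]
  refine sum_congr rfl fun w _ => ?_
  rw [ent_toL]
  rfl

theorem poly_rkR {l : α → List (List ℕ)} {u v : α → ℕ} (hl : NPC.Poly l) (hu : NPC.Poly u)
    (hv : NPC.Poly v) : NPC.Poly fun a => rkR (l a) (u a) (v a) := by
  unfold rkR
  refine NPC.Poly.sum (NPC.Poly.map (F := fun a w => if w < v a then ent (l a) (u a) w else 0)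
    (UPoly.length hl).range ?_)
  exact NPC.Poly.ite (NPC.Poly.decide_lt (NPC.Poly.snd NPC.Poly.id)
    (hv.comp (NPC.Poly.fst NPC.Poly.id))) (poly_ent (hl.comp (NPC.Poly.fst NPC.Poly.id))
      (hu.comp (NPC.Poly.fst NPC.Poly.id)) (NPC.Poly.snd NPC.Poly.id)) (NPC.Poly.const 0)

/-- The entries of the zig-zag product. -/
def zzE (d : ℕ) (lb l : List (List ℕ)) (x y : ℕ) : ℕ :=
  ent l (x / (d * d) / d) (y / (d * d) / d) *
    (ent lb (x % (d * d)) (y / (d * d) % d +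
        d * (rkR l (x / (d * d) / d) (y / (d * d) / d) % d)) *
      ent lb (y % (d * d)) (x / (d * d) % d +
        d * (rkR l (y / (d * d) / d) (x / (d * d) / d) % d)))

/-- The zig-zag product. -/
def zzR (d : ℕ) (lb l : List (List ℕ)) : List (List ℕ) :=
  build (l.length * d * (d * d)) (zzE d lb l)

theorem poly_zzE {d x y : α → ℕ} {lb l : α → List (List ℕ)} (hd : NPC.Poly d)
    (hlb : NPC.Poly lb) (hl : NPC.Poly l) (hx : NPC.Poly x) (hy : NPC.Poly y) :
    NPC.Poly fun a => zzE (d a) (lb a) (l a) (x a) (y a) := by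
  unfold zzE
  have hdd := NPC.Poly.mul hd hd
  have x1 := NPC.Poly.div (NPC.Poly.div hx hdd) hd
  have y1 := NPC.Poly.div (NPC.Poly.div hy hdd) hd
  have x2 := NPC.Poly.mod (NPC.Poly.div hx hdd) hd
  have y2 := NPC.Poly.mod (NPC.Poly.div hy hdd) hd
  have x3 := NPC.Poly.mod hx hdd
  have y3 := NPC.Poly.mod hy hdd
  exact NPC.Poly.mul (poly_ent hl x1 y1) (NPC.Poly.mul
    (poly_ent hlb x3 (NPC.Poly.add y2 (NPC.Poly.mul hd (NPC.Poly.mod (poly_rkR hl x1 y1) hd))))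
    (poly_ent hlb y3 (NPC.Poly.add x2 (NPC.Poly.mul hd (NPC.Poly.mod (poly_rkR hl y1 x1) hd)))))

theorem poly_zzR {d : α → ℕ} {lb l : α → List (List ℕ)} (hd : UPoly d)
    (hlb : NPC.Poly lb) (hl : NPC.Poly l) : NPC.Poly fun a => zzR (d a) (lb a) (l a) := by
  unfold zzR
  refine poly_build (UPoly.mul (UPoly.mul (UPoly.length hl) hd) (UPoly.mul hd hd)) ?_
  exact poly_zzE (hd.toPoly.comp (NPC.Poly.fst NPC.Poly.id)) (hlb.comp (NPC.Poly.fst NPC.Poly.id))
    (hl.comp (NPC.Poly.fst NPC.Poly.id)) (NPC.Poly.fst (NPC.Poly.snd NPC.Poly.id))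
    (NPC.Poly.snd (NPC.Poly.snd NPC.Poly.id))

/-- The numbering of the vertices of the zig-zag product. -/
def zzEq (n d : ℕ) : Fin (n * d * (d * d)) ≃ (Fin n × Fin d) × Fin (d * d) :=
  finProdFinEquiv.symm.trans (finProdFinEquiv.symm.prodCongr (Equiv.refl _))

/-- The zig-zag product of the blow-up and the walks in the Margulis graph. -/
def zzF (k : ℕ) (hd : 0 < d) (A : Fin n → Fin n → ℕ) (x y : Fin (n * d * (d * d))) : ℕ :=
  zz (blow d A) (prt hd A) (walksF k d) (zzEq n d x) (zzEq n d y)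

theorem zzR_toL (k : ℕ) (hd : 0 < d) (A : Fin n → Fin n → ℕ) :
    zzR d (walksR d k) (toL A) = toL (zzF k hd A) := by
  unfold zzR
  rw [build_eq, length_toL]
  congr 1
  funext x y
  unfold zzE zzF zz
  have h1 : ∀ x : Fin (n * d * (d * d)), (x : ℕ) / (d * d) / d = ((zzEq n d x).1.1 : Fin n) :=
    fun x => rfl
  have h2 : ∀ x : Fin (n * d * (d * d)), (x : ℕ) / (d * d) % d = ((zzEq n d x).1.2 : Fin d) :=
    fun x => rfl
  have h3 : ∀ x : Fin (n * d * (d * d)), (x : ℕ) % (d * d) = ((zzEq n d x).2 : Fin (d * d)) :=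
    fun x => rfl
  rw [h1 x, h1 y, h2 x, h2 y, h3 x, h3 y, ent_toL, rkR_toL, rkR_toL]
  have h4 : ∀ a b : Fin n × Fin d, (b.2 : ℕ) + d * (rk A a.1 b.1 % d) = (prt hd A a b : ℕ) := by
    intro a b
    unfold prt
    rw [finProdFinEquiv_apply_val]
  rw [h4 (zzEq n d x).1 (zzEq n d y).1, h4 (zzEq n d y).1 (zzEq n d x).1,
    ent_walksR d k (zzEq n d x).2.2 (prt hd A _ _).2,
    ent_walksR d k (zzEq n d y).2.2 (prt hd A _ _).2]
  rfl

section spec

variable {A : Fin n → Fin n → ℕ} {k : ℕ}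

theorem zzF_mg (hd : 0 < d) (hA : MG A d) (h1 : ∀ u v, A u v ≤ 1) :
    MG (zzF k hd A) (16 ^ k * 16 ^ k) :=
  (zz_mg (hA.blow d) (ports_blow hd hA h1) (expand_walks k d)).equiv (zzEq n d)

theorem zzF_le (hd : 0 < d) (h1 : ∀ u v, A u v ≤ 1) (x y : Fin (n * d * (d * d))) :
    zzF k hd A x y ≤ 16 ^ k * 16 ^ k := by
  unfold zzF zz
  calc blow d A (zzEq n d x).1 (zzEq n d y).1 * (walksF k d (zzEq n d x).2 _ *
      walksF k d (zzEq n d y).2 _) ≤ 1 * (16 ^ k * 16 ^ k) :=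
        Nat.mul_le_mul (h1 _ _) (Nat.mul_le_mul (walksF_le k d _ _) (walksF_le k d _ _))
    _ = _ := one_mul _

theorem zzF_has {η : ℝ} {s : ℕ} (hd : 0 < d) (h : HasSet A d η s) :
    HasSet (zzF k hd A) (16 ^ k * 16 ^ k) η (s * d * (d * d)) :=
  (zz_has (expand_walks k d) (Fintype.card_fin _) (h.blow (t := d))).equiv (zzEq n d)

theorem zzF_frac {η : ℝ} {s : ℕ} (hd : 0 < d) (hA : MG A d) (h1 : ∀ u v, A u v ≤ 1)
    (h : FracNo A d η s) : FracNo (zzF k hd A) (16 ^ k * 16 ^ k)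
      (η + 3 * √((383 / 384) ^ k)) ((s * d * (d * d) : ℕ) : ℝ) := by
  have h2 : (0 : ℝ) < (383 / 384) ^ k := by positivity
  have h3 := (zz_frac (hA.blow d) (Nat.mul_pos hd hd) (ports_blow hd hA h1) (expand_walks k d)
    (Real.sqrt_pos.2 h2) (Real.sqrt_le_one.2 (pow_le_one₀ (by norm_num) (by norm_num)))
    (Fintype.card_fin _) (h.blow hd)).equiv (zzEq n d)
  push_cast at h3 ⊢
  exact h3

end spec

/-! ### Graphs of bounded degree -/

/-- The codes of the `D`-regular graphs. -/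
def Deg (D : ℕ) : Set (List Bool) :=
  {x | ∃ (n : ℕ) (G : SimpleGraph (Fin n)), x = code G D}

theorem out_deg {Q : ℕ} {μ : Fin n → Fin n → ℕ} (hQ : 0 < Q) (h : MG μ d)
    (hμ : ∀ u v, μ u v ≤ Q) : bits (outR Q d (toL μ)) ∈ Deg (d * Q) :=
  ⟨_, _, code_out hQ h hμ⟩

/-- The output of the reduction. -/
def degOut (k Q : ℕ) (c : ℕ × List (List ℕ)) : ℕ × ℕ × List (List Bool) :=
  outR Q (16 ^ k * 16 ^ k) (zzR c.1 (walksR c.1 k) c.2)

theorem poly_degOut (k Q : ℕ) {c : α → ℕ × List (List ℕ)} (hc : NPC.Poly c)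
    (hd : ∀ x, (c x).1 ≤ (c x).2.length) : NPC.Poly fun x => degOut k Q (c x) := by
  unfold degOut
  have h1 : UPoly fun x => (c x).1 :=
    UPoly.of_le (NPC.Poly.fst hc) (UPoly.length (NPC.Poly.snd hc)) hd
  exact poly_outR (UPoly.const Q) (NPC.Poly.const _)
    (poly_zzR h1 (poly_walksR h1 k) (NPC.Poly.snd hc))

theorem red_deg {L : Set (List Bool)} {η η' δ : ℚ} {k Q : ℕ} (hη : 0 < η) (hη2 : η < 1 / 2)
    (hδ : 0 < δ) (hδη : δ ≤ η) (hη' : 5 * η ≤ η') (hk : 3 * √((383 / 384 : ℝ) ^ k) ≤ η)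
    (hQ : Q.Prime) (hQD : 16 ^ k * 16 ^ k ≤ Q) (hQη : 1 / √(Q : ℝ) ≤ η)
    (h : Red L (Yes η δ) (No η δ)) :
    Red L (Yes η' δ ∩ Deg (16 ^ k * 16 ^ k * Q)) (No η' δ ∩ Deg (16 ^ k * 16 ^ k * Q)) := by
  obtain ⟨f, hf, hfx⟩ := h
  obtain ⟨a, b, hab⟩ := exists_frac hδ
  have hspec : ∀ x, ∃ (n d s : ℕ) (μ : Fin n → Fin n → ℕ), Spec η δ a b (f x) n d s μ := fun x =>
    exists_spec hη (by linarith) hδη hab (f x)
  have hnorm : ∀ x, (norm a b (f x)).1 ≤ (norm a b (f x)).2.length := by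
    intro x
    obtain ⟨n, d, s, μ, hs⟩ := hspec x
    rw [hs.eq]
    simp only [length_toL]
    refine hs.mg.le_card hs.le ?_
    by_contra hcon
    push Not at hcon
    have h1 := hs.size
    rw [Nat.le_zero.1 hcon, mul_zero] at h1
    have h2 := hs.two
    have h4 : 0 < b * s := Nat.mul_pos hab.bpos (by omega)
    omega
  have hkη : (η : ℝ) ≤ η' := by
    have h1 : η ≤ η' := by linarith
    exact_mod_cast h1
  refine ⟨fun x => bits (degOut k Q (norm a b (f x))), polyTime_bits (poly_degOut k Q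
    ((poly_norm a b).comp (Med.poly_of_polyTime hf)) hnorm), fun x => ?_⟩
  obtain ⟨n, d, s, μ, hs⟩ := hspec x
  have hd : 0 < d := hs.deg
  have hD0 : 0 < 16 ^ k * 16 ^ k := by positivity
  have hmg := zzF_mg (k := k) hd hs.mg hs.le
  have hle : ∀ u v, zzF k hd μ u v ≤ Q := fun u v => (zzF_le hd hs.le u v).trans hQD
  have hout : bits (degOut k Q (norm a b (f x))) =
      bits (outR Q (16 ^ k * 16 ^ k) (toL (zzF k hd μ))) := by
    unfold degOut
    rw [hs.eq]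
    simp only
    rw [zzR_toL k hd]
  have hs0 : 1 ≤ s * d * (d * d) := Nat.mul_pos (Nat.mul_pos (by have := hs.two; omega) hd)
    (Nat.mul_pos hd hd)
  have hsize : ((s * d * (d * d) : ℕ) : ℚ) = δ * ((n * d * (d * d) : ℕ) : ℚ) := by
    have h1 := size_to hab hs.size
    push_cast
    rw [h1]
    ring
  simp only
  rw [hout]
  refine ⟨fun hx => ⟨?_, out_deg hQ.pos hmg hle⟩, fun hx => ⟨?_, out_deg hQ.pos hmg hle⟩⟩
  · exact out_yes hQ.pos hmg hD0 hle hs0 hsize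
      ((zzF_has hd (hs.yes ((hfx x).1 hx))).mono_eta hkη)
  · refine out_no hQ hmg hD0 hle hs0 hsize ?_ (zzF_frac hd hs.mg hs.le (hs.no ((hfx x).2 hx)))
    have h1 : (5 : ℝ) * η ≤ η' := by
      have h2 : ((5 * η : ℚ) : ℝ) ≤ (η' : ℝ) := Rat.cast_le.2 hη'
      push_cast at h2
      exact h2
    linarith

/-! ### Small degrees -/

/-- A set of any size with many edges. -/
theorem exists_matched {A : Fin n → Fin n → ℕ} (hA : MG A d) (hd : 0 < d) : ∀ s : ℕ, s ≤ n →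
    ∃ S : Finset (Fin n), S.card = s ∧ ((s : ℝ) ≤ form A (ind S) ∨
      ((s : ℝ) - 1 ≤ form A (ind S) ∧ ∃ u ∈ S, ∀ v ∈ S, A u v = 0)) := by
  classical
  have hadd : ∀ (S : Finset (Fin n)) (u : Fin n), u ∉ S →
      form A (ind (insert u S)) = form A (ind S) + 2 * ∑ v ∈ S, (A u v : ℝ) := by
    intro S u hu
    rw [form_ind, form_ind, sum_insert hu, sum_insert hu, hA.diag u]
    have e1 : ∀ x ∈ S, ∑ v ∈ insert u S, (A x v : ℝ) = A x u + ∑ v ∈ S, (A x v : ℝ) :=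
      fun x _ => sum_insert hu
    rw [sum_congr rfl e1, sum_add_distrib]
    have e2 : ∑ x ∈ S, (A x u : ℝ) = ∑ v ∈ S, (A u v : ℝ) :=
      sum_congr rfl fun x _ => by rw [hA.symm]
    rw [e2]
    push_cast
    ring
  have hnb : ∀ (S : Finset (Fin n)) (u v : Fin n), v ∈ S → A u v ≠ 0 →
      1 ≤ ∑ v ∈ S, (A u v : ℝ) := by
    intro S u v hv h
    have h1 : (1 : ℝ) ≤ A u v := by
      exact_mod_cast Nat.one_le_iff_ne_zero.2 h
    exact h1.trans (single_le_sum (f := fun v => (A u v : ℝ)) (fun v _ => Nat.cast_nonneg _) hv)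
  intro s
  induction s with
  | zero =>
    intro _
    refine ⟨∅, rfl, Or.inl ?_⟩
    rw [form_ind]
    simp
  | succ s ih =>
    intro hs
    obtain ⟨S, h1, h2⟩ := ih (by omega)
    rcases h2 with h2 | ⟨h2, u, hu, h3⟩
    · obtain ⟨u, hu⟩ : ∃ u, u ∉ S := by
        by_contra hcon
        push Not at hcon
        have h4 : S = univ := eq_univ_of_forall hcon
        rw [h4, card_univ, Fintype.card_fin] at h1
        omega
      refine ⟨insert u S, by rw [card_insert_of_notMem hu, h1], ?_⟩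
      rw [hadd S u hu]
      by_cases h4 : ∃ v ∈ S, A u v ≠ 0
      · obtain ⟨v, hv, h5⟩ := h4
        left
        have h6 := hnb S u v hv h5
        push_cast
        linarith
      · push Not at h4
        right
        have h6 : ∑ v ∈ S, (A u v : ℝ) = 0 := sum_eq_zero fun v hv => by
          rw [h4 v hv]
          simp
        refine ⟨by rw [h6]; push_cast; linarith, u, mem_insert_self u S, fun v hv => ?_⟩
        rcases mem_insert.1 hv with rfl | hv
        · exact hA.diag _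
        · exact h4 v hv
    · obtain ⟨v, hv⟩ : ∃ v, A u v ≠ 0 := by
        by_contra hcon
        push Not at hcon
        have h4 := hA.reg u
        simp only [hcon, sum_const_zero] at h4
        omega
      have hvS : v ∉ S := fun h => hv (h3 v h)
      refine ⟨insert v S, by rw [card_insert_of_notMem hvS, h1], Or.inl ?_⟩
      rw [hadd S v hvS]
      have h4 := hnb S v u hu (by rw [hA.symm]; exact hv)
      push_cast
      linarith

/-- If the degree is less than `1 / η` then there are only finitely many no instances. -/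
theorem finite_no_deg {η δ : ℚ} {D : ℕ} (hD : D * η < 1) (hδ : 0 < δ) (hδ1 : δ ≤ 1) :
    (No η δ ∩ Deg D).Finite := by
  classical
  obtain ⟨B, hB⟩ := exists_nat_ge (1 / (δ * (1 - D * η)))
  have h1 : (⋃ n ∈ Finset.range (B + 1),
      Set.range fun G : SimpleGraph (Fin n) => code G D).Finite := by
    refine Set.Finite.biUnion (Finset.finite_toSet _) fun n _ => ?_
    exact Set.finite_range _
  refine h1.subset ?_
  rintro x ⟨⟨n, d, s, G, h2, h3, h4, h5, rfl⟩, ⟨n', G', h6⟩⟩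
  obtain ⟨rfl, rfl, -⟩ := rawG_inj h6
  have hd : 0 < d := h2.1
  have hdR : (0 : ℝ) < d := by exact_mod_cast hd
  have hsn : s ≤ n := by
    have h7 : (s : ℚ) ≤ n := by
      rw [h4]
      have : (0 : ℚ) ≤ n := Nat.cast_nonneg n
      nlinarith
    exact_mod_cast h7
  obtain ⟨S, h7, h8⟩ := exists_matched (adj_mg h2) hd s hsn
  have h9 : (s : ℝ) - 1 ≤ form (adj G) (ind S) := by
    rcases h8 with h8 | h8
    · linarith
    · exact h8.1
  have h10 := h5 S h7
  have hsR : (0 : ℝ) < s := by exact_mod_cast h3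
  have h11 : (0 : ℚ) < d * s := by
    have : 0 < d * s := Nat.mul_pos hd h3
    exact_mod_cast this
  rw [le_div_iff₀ h11] at h10
  have h12 : (1 - (η : ℝ)) * (d * s) ≤ (cut G S : ℝ) := by exact_mod_cast h10
  rw [cut_eq h2 S, h7] at h12
  have h13 : (s : ℝ) - 1 ≤ η * (d * s) := by linarith
  have h14 : (s : ℚ) - 1 ≤ η * (d * s) := by exact_mod_cast h13
  have h15 : (s : ℚ) * (1 - d * η) ≤ 1 := by linarith
  rw [h4] at h15
  have h16 : 0 < δ * (1 - d * η) := mul_pos hδ (by linarith)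
  have h17 : (n : ℚ) ≤ B := by
    refine le_trans ?_ hB
    rw [le_div_iff₀ h16]
    linarith
  have h18 : n ≤ B := by exact_mod_cast h17
  simp only [Set.mem_iUnion, Finset.mem_range, Set.mem_range]
  exact ⟨n, by omega, G, rfl⟩

/-! ### The choice of the parameters -/

theorem exists_params {η : ℚ} (hη : 0 < η) (hη2 : η < 1 / 2) : ∃ k Q : ℕ,
    3 * √((383 / 384 : ℝ) ^ k) ≤ η ∧ Q.Prime ∧ 16 ^ k * 16 ^ k ≤ Q ∧ 1 / √(Q : ℝ) ≤ η ∧
    ((16 ^ k * 16 ^ k * Q : ℕ) : ℚ) ≤ (3 / η) ^ 9000 := by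
  have hηR : (0 : ℝ) < η := by exact_mod_cast hη
  have hex : ∃ k : ℕ, (383 / 384 : ℝ) ^ k ≤ (η / 3) ^ 2 := by
    obtain ⟨k, hk⟩ := exists_pow_lt_of_lt_one (by positivity : (0 : ℝ) < (η / 3) ^ 2)
      (by norm_num : (383 / 384 : ℝ) < 1)
    exact ⟨k, hk.le⟩
  classical
  obtain ⟨k, hk⟩ : ∃ k, k = Nat.find hex := ⟨_, rfl⟩
  have hk1 : (383 / 384 : ℝ) ^ k ≤ (η / 3) ^ 2 := by
    rw [hk]
    exact Nat.find_spec hex
  have hη3 : (η : ℝ) / 3 < 1 / 6 := by
    have : (η : ℝ) < 1 / 2 := by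
      have h1 : ((η : ℚ) : ℝ) < ((1 / 2 : ℚ) : ℝ) := Rat.cast_lt.2 hη2
      push_cast at h1
      exact h1
    linarith
  have hk0 : k ≠ 0 := by
    rintro h0
    rw [h0, pow_zero] at hk1
    nlinarith
  obtain ⟨j, hj⟩ := Nat.exists_eq_succ_of_ne_zero hk0
  have hk2 : (η / 3 : ℝ) ^ 2 < (383 / 384) ^ j := by
    have h1 : ¬ (383 / 384 : ℝ) ^ j ≤ (η / 3) ^ 2 := Nat.find_min hex (by omega)
    push Not at h1
    exact h1
  obtain ⟨X, hX⟩ : ∃ X : ℝ, X = 3 / η := ⟨_, rfl⟩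
  have hX6 : 6 < X := by
    rw [hX, lt_div_iff₀ hηR]
    linarith
  have hX2 : (1 : ℝ) / (η / 3) ^ 2 = X ^ 2 := by
    rw [hX]
    field_simp
  -- the size of `256 ^ k`
  have h256 : (256 : ℝ) ≤ (384 / 383) ^ 2200 := by
    have e1 : (129 / 100 : ℝ) ≤ (384 / 383) ^ 100 := by norm_num
    have e2 : (256 : ℝ) ≤ (129 / 100) ^ 22 := by norm_num
    calc (256 : ℝ) ≤ (129 / 100) ^ 22 := e2
      _ ≤ ((384 / 383) ^ 100) ^ 22 := pow_le_pow_left₀ (by norm_num) e1 22
      _ = (384 / 383) ^ 2200 := by rw [← pow_mul]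
  have hj2 : (256 : ℝ) ^ j ≤ X ^ 4400 := by
    have h1 : (384 / 383 : ℝ) ^ j ≤ X ^ 2 := by
      rw [← hX2, le_div_iff₀ (by positivity)]
      have h2 : (384 / 383 : ℝ) ^ j * (383 / 384) ^ j = 1 := by
        rw [← mul_pow]
        norm_num
      have h3 : (0 : ℝ) < (384 / 383) ^ j := by positivity
      nlinarith
    calc (256 : ℝ) ^ j ≤ ((384 / 383) ^ 2200) ^ j := pow_le_pow_left₀ (by norm_num) h256 j
      _ = ((384 / 383) ^ j) ^ 2200 := by rw [← pow_mul, ← pow_mul, Nat.mul_comm]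
      _ ≤ (X ^ 2) ^ 2200 := pow_le_pow_left₀ (by positivity) h1 _
      _ = X ^ 4400 := by rw [← pow_mul]
  have hk3 : (256 : ℝ) ^ k ≤ X ^ 4404 := by
    rw [hj, Nat.succ_eq_add_one, pow_succ]
    have h1 : (256 : ℝ) ≤ X ^ 4 := by
      have h2 : (6 : ℝ) ^ 4 ≤ X ^ 4 := pow_le_pow_left₀ (by norm_num) hX6.le 4
      linarith
    calc (256 : ℝ) ^ j * 256 ≤ X ^ 4400 * X ^ 4 :=
          mul_le_mul hj2 h1 (by norm_num) (by positivity)
      _ = X ^ 4404 := by rw [← pow_add]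
  have h1616 : ((16 ^ k * 16 ^ k : ℕ) : ℝ) = 256 ^ k := by
    push_cast
    rw [← mul_pow]
    norm_num
  obtain ⟨q₀, hq₀⟩ : ∃ q₀ : ℕ, q₀ = ⌈X ^ 2⌉₊ := ⟨_, rfl⟩
  have hq₀' : X ^ 2 ≤ q₀ := by
    rw [hq₀]
    exact Nat.le_ceil _
  have hq₀'' : (q₀ : ℝ) ≤ X ^ 2 + 1 := by
    rw [hq₀]
    exact (Nat.ceil_lt_add_one (by positivity)).le
  obtain ⟨hQ1, hQ2, hQ3⟩ := nextPrime_spec (m := 16 ^ k * 16 ^ k + q₀ + 2) (by omega)
  refine ⟨k, nextPrime (16 ^ k * 16 ^ k + q₀ + 2), ?_, hQ1, by omega, ?_, ?_⟩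
  · have h1 : √((383 / 384 : ℝ) ^ k) ≤ η / 3 := by
      rw [← Real.sqrt_sq (by positivity : (0 : ℝ) ≤ η / 3)]
      exact Real.sqrt_le_sqrt hk1
    linarith
  · have h1 : X ^ 2 ≤ (nextPrime (16 ^ k * 16 ^ k + q₀ + 2) : ℝ) := by
      refine hq₀'.trans ?_
      have : q₀ ≤ nextPrime (16 ^ k * 16 ^ k + q₀ + 2) := by omega
      exact_mod_cast this
    have h2 : X ≤ √(nextPrime (16 ^ k * 16 ^ k + q₀ + 2) : ℝ) := by
      rw [← Real.sqrt_sq (by linarith : (0 : ℝ) ≤ X)]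
      exact Real.sqrt_le_sqrt h1
    have h3 : 1 / √(nextPrime (16 ^ k * 16 ^ k + q₀ + 2) : ℝ) ≤ 1 / X :=
      one_div_le_one_div_of_le (by linarith) h2
    refine h3.trans ?_
    rw [hX, one_div_div]
    linarith
  · have h1 : (nextPrime (16 ^ k * 16 ^ k + q₀ + 2) : ℝ) ≤ 2 * (256 ^ k + q₀ + 2) := by
      have h2 : ((nextPrime (16 ^ k * 16 ^ k + q₀ + 2) : ℕ) : ℝ) ≤
          ((2 * (16 ^ k * 16 ^ k + q₀ + 2) : ℕ) : ℝ) := by exact_mod_cast hQ3
      rw [Nat.cast_mul, Nat.cast_add, Nat.cast_add, h1616] at h2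
      push_cast at h2
      exact h2
    have hX1 : (1 : ℝ) ≤ X := by linarith
    have h2 : (2 : ℝ) * (256 ^ k + q₀ + 2) ≤ X ^ 4410 := by
      have e1 : X ^ 2 ≤ X ^ 4404 := pow_le_pow_right₀ hX1 (by norm_num)
      have e2 : (1 : ℝ) ≤ X ^ 4404 := one_le_pow₀ hX1
      have e3 : (2 : ℝ) * (256 ^ k + q₀ + 2) ≤ 10 * X ^ 4404 := by linarith
      have e4 : (10 : ℝ) ≤ X ^ 6 := by
        have h5 : (6 : ℝ) ^ 6 ≤ X ^ 6 := pow_le_pow_left₀ (by norm_num) hX6.le 6
        linarith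
      have e5 : (10 : ℝ) * X ^ 4404 ≤ X ^ 6 * X ^ 4404 :=
        mul_le_mul_of_nonneg_right e4 (by positivity)
      have e6 : X ^ 6 * X ^ 4404 = X ^ 4410 := by rw [← pow_add]
      linarith
    have h3 : ((16 ^ k * 16 ^ k * nextPrime (16 ^ k * 16 ^ k + q₀ + 2) : ℕ) : ℝ) ≤
        X ^ 9000 := by
      rw [Nat.cast_mul, h1616]
      calc (256 : ℝ) ^ k * (nextPrime (16 ^ k * 16 ^ k + q₀ + 2) : ℝ) ≤ X ^ 4404 * X ^ 4410 :=
            mul_le_mul hk3 (h1.trans h2) (Nat.cast_nonneg _) (by positivity)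
        _ = X ^ 8814 := by rw [← pow_add]
        _ ≤ X ^ 9000 := pow_le_pow_right₀ hX1 (by norm_num)
    rw [hX] at h3
    have h4 : (((16 ^ k * 16 ^ k * nextPrime (16 ^ k * 16 ^ k + q₀ + 2) : ℕ) : ℚ) : ℝ) ≤
        (((3 / η) ^ 9000 : ℚ) : ℝ) := by
      rw [Rat.cast_pow, Rat.cast_div, Rat.cast_natCast]
      exact_mod_cast h3
    exact Rat.cast_le.1 h4

end Pool.Agent.U16.SSE
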